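import Pool.Agent.H90.Fol.Normal

set_option autoImplicit false

open Filter Topology
open scoped ComplexConjugate

namespace Pool.Agent.H90.Fol

theorem D2_linear (L : ℂ →L[ℝ] ℝ) (x v w : ℂ) : D2 (fun z => L z) x v w = 0 := by
  have h1 : fderiv ℝ (fun z => L z) = fun _ => L := by
    funext y
    exact L.fderiv
  unfold D2
  rw [h1]
  simp

theorem lap_re_hol {h : ℂ → ℂ} {x : ℂ} (hh : ∀ᶠ y in 𝓝 x, DifferentiableAt ℂ h y) :
    lap (fun z => (h z).re) x = 0 := by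
  have h1 := lap_comp_hol (φ := fun z : ℂ => Complex.reCLM z) (γ := h) (x := x)
    (Complex.reCLM.contDiff.contDiffAt) hh
  have e : (fun z => (h z).re) = fun z => Complex.reCLM (h z) := rfl
  rw [e, h1]
  unfold levi
  rw [D2_linear, D2_linear, add_zero]

theorem D2_normSq (x v w : ℂ) : D2 (fun z : ℂ => ‖z‖ ^ 2) x v w = 2 * (v * conj w).re := by
  have hc : ContDiffAt ℝ 2 (fun z : ℂ => ‖z‖ ^ 2) x := contDiffAt_id.norm_sq ℝ
  have h1 : (fun y => fderiv ℝ (fun z : ℂ => ‖z‖ ^ 2) y w) = fun y => 2 * (y * conj w).re := by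
    funext y
    have h2 : HasFDerivAt (fun z : ℂ => ‖z‖ ^ 2) (2 • (innerSL ℝ y)) y := by
      have := (hasStrictFDerivAt_norm_sq y).hasFDerivAt
      simpa using this
    rw [h2.fderiv]
    simp only [ContinuousLinearMap.smul_apply, innerSL_apply_apply, Complex.inner]
    rw [nsmul_eq_mul]
    push_cast
    congr 1
    rw [← Complex.conj_re, map_mul, Complex.conj_conj, mul_comm]
  have hL : HasFDerivAt (fun y : ℂ => 2 * (y * conj w).re)
      ((2 : ℝ) • (Complex.reCLM.comp ((ContinuousLinearMap.mul ℝ ℂ).flip (conj w)))) x := by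
    have := (Complex.reCLM.comp ((ContinuousLinearMap.mul ℝ ℂ).flip (conj w))).hasFDerivAt (x := x)
    exact this.const_mul 2
  rw [← h1] at hL
  rw [D2_eq_of_hasFDerivAt hc v w hL]
  simp
  ring

theorem lap_normSq (x : ℂ) : lap (fun z : ℂ => ‖z‖ ^ 2) x = 4 := by
  unfold lap levi
  rw [D2_normSq, D2_normSq]
  simp
  norm_num

theorem lap_add {f g : ℂ → ℝ} {x : ℂ} (hf : ContDiffAt ℝ 2 f x) (hg : ContDiffAt ℝ 2 g x) :
    lap (fun y => f y + g y) x = lap f x + lap g x := by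
  unfold lap levi
  rw [D2_add hf hg, D2_add hf hg]
  ring

theorem lap_sub {f g : ℂ → ℝ} {x : ℂ} (hf : ContDiffAt ℝ 2 f x) (hg : ContDiffAt ℝ 2 g x) :
    lap (fun y => f y - g y) x = lap f x - lap g x := by
  unfold lap levi
  rw [D2_sub hf hg, D2_sub hf hg]
  ring

theorem lap_const_mul {f : ℂ → ℝ} {x : ℂ} (hf : ContDiffAt ℝ 2 f x) (c : ℝ) :
    lap (fun y => c * f y) x = c * lap f x := by
  unfold lap levi
  rw [D2_const_mul hf, D2_const_mul hf]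
  ring

theorem norm_pair_lt {a b : ℂ} {r : ℝ} (ha : ‖a‖ < r) (hb : ‖b‖ < r) : ‖(a, b)‖ < r := by
  rw [Prod.norm_def]
  exact max_lt ha hb

section
variable {φ : ℂ × ℂ → ℝ} {δ : ℝ}

/-- The graph of a holomorphic function. -/
theorem hasDerivAt_graph {z1 : ℂ} {w : ℂ → ℂ} {ζ : ℂ} (hw : DifferentiableAt ℂ w ζ) :
    HasDerivAt (fun ζ => ((z1 + ζ, w ζ) : ℂ × ℂ)) (1, deriv w ζ) ζ :=
  ((hasDerivAt_id ζ).const_add z1).prodMk hw.hasDerivAt

theorem Normal.lap_graph (hN : Normal φ δ) {z1 : ℂ} {w : ℂ → ℂ} {ζ : ℂ}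
    (hw : ∀ᶠ y in 𝓝 ζ, DifferentiableAt ℂ w y) (hx : ‖((z1 + ζ, w ζ) : ℂ × ℂ)‖ < 4) :
    ContDiffAt ℝ 2 (fun y => φ (z1 + y, w y)) ζ ∧
      lap (fun y => φ (z1 + y, w y)) ζ = levi φ (z1 + ζ, w ζ) (1, deriv w ζ) := by
  have hγ : ∀ᶠ y in 𝓝 ζ, DifferentiableAt ℂ (fun ζ => ((z1 + ζ, w ζ) : ℂ × ℂ)) y := by
    filter_upwards [hw] with y hy
    exact (hasDerivAt_graph hy).differentiableAt
  constructor
  · exact ContDiffAt.comp (g := φ) ζ (hN.smooth _ hx) (contDiffAt_hol hγ)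
  · have h := lap_comp_hol (φ := φ) (γ := fun ζ => ((z1 + ζ, w ζ) : ℂ × ℂ)) (hN.smooth _ hx) hγ
    rw [(hasDerivAt_graph hw.self_of_nhds).deriv] at h
    exact h

/-- Discs attached to the graph of the vertical derivative are contained in it. -/
theorem Normal.interior_le (hN : Normal φ δ) (hδ0 : 0 ≤ δ) (hδ : δ ≤ 1 / 100) {z1 : ℂ}
    (hz1 : ‖z1‖ ≤ 1) {w s : ℂ → ℂ} (hw : DiffContOnCl ℂ w (Metric.ball 0 1))
    (hs : DiffContOnCl ℂ s (Metric.ball 0 1)) (hwb : ∀ ζ, ‖ζ‖ ≤ 1 → ‖w ζ‖ ≤ 3 / 2)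
    (hb : ∀ ζ, ‖ζ‖ = 1 → s ζ = G φ (z1 + ζ, w ζ)) {η : ℝ} (hη : 0 < η) (ζ v : ℂ)
    (hζ : ‖ζ‖ ≤ 1) (hv : ‖v‖ ≤ 5 / 2) :
    φ (z1 + ζ, w ζ) - φ (z1 + ζ, v) - 2 * (s ζ * (w ζ - v)).re + η * ‖ζ‖ ^ 2 ≤ η := by
  -- bounds
  have hz : ∀ ζ : ℂ, ‖ζ‖ ≤ 1 → ‖z1 + ζ‖ < 4 := fun ζ h => by
    have := norm_add_le z1 ζ
    linarith
  have hcb : closure (Metric.ball (0 : ℂ) 1) = Metric.closedBall 0 1 := closure_ball _ one_ne_zero
  have hsb1 : ∀ ζ : ℂ, ‖ζ‖ = 1 → ‖s ζ‖ ≤ 31 / 20 := by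
    intro ζ h
    rw [hb ζ h, G_eq]
    have h1 := hwb ζ h.le
    have h2 : ‖((z1 + ζ, w ζ) : ℂ × ℂ)‖ ≤ 2 := by
      rw [Prod.norm_def]
      refine max_le ?_ (by show ‖w ζ‖ ≤ 2; linarith)
      show ‖z1 + ζ‖ ≤ 2
      have := norm_add_le z1 ζ
      linarith
    have h3 := hN.pp_le (x := (z1 + ζ, w ζ)) (by linarith)
    have h4 := norm_add_le (conj (w ζ)) (pp φ (z1 + ζ, w ζ))
    rw [RCLike.norm_conj] at h4
    have h5 : δ * ‖((z1 + ζ, w ζ) : ℂ × ℂ)‖ ≤ 1 / 100 * 2 :=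
      mul_le_mul hδ h2 (norm_nonneg _) (by norm_num)
    show ‖conj (w ζ) + pp φ (z1 + ζ, w ζ)‖ ≤ 31 / 20
    linarith
  have hsb : ∀ ζ : ℂ, ‖ζ‖ ≤ 1 → ‖s ζ‖ ≤ 31 / 20 := by
    intro ζ h
    refine Complex.norm_le_of_forall_mem_frontier_norm_le Metric.isBounded_ball hs ?_
      (by rw [hcb]; simpa using h)
    intro ζ' hζ'
    rw [frontier_ball _ one_ne_zero] at hζ'
    exact hsb1 ζ' (by simpa using hζ')
  -- the function
  set F : ℂ × ℂ → ℝ := fun q => φ (z1 + q.1, w q.1) - φ (z1 + q.1, q.2) -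
    2 * (s q.1 * (w q.1 - q.2)).re + η * ‖q.1‖ ^ 2 with hF
  set K : Set (ℂ × ℂ) := Metric.closedBall 0 1 ×ˢ Metric.closedBall 0 (5 / 2) with hK
  have hKc : IsCompact K := (isCompact_closedBall _ _).prod (isCompact_closedBall _ _)
  have hKm : ∀ q : ℂ × ℂ, q ∈ K ↔ ‖q.1‖ ≤ 1 ∧ ‖q.2‖ ≤ 5 / 2 := fun q => by
    simp [hK, Set.mem_prod]
  have hwc : ContinuousOn w (Metric.closedBall 0 1) := hcb ▸ hw.continuousOn
  have hsc : ContinuousOn s (Metric.closedBall 0 1) := hcb ▸ hs.continuousOn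
  have hφc : ContinuousOn φ (Metric.ball 0 4) := fun x hx =>
    (hN.smooth x (by simpa using hx)).continuousAt.continuousWithinAt
  have hw1 : ContinuousOn (fun q : ℂ × ℂ => w q.1) K :=
    hwc.comp continuousOn_fst fun q hq => by simpa using ((hKm q).1 hq).1
  have hs1 : ContinuousOn (fun q : ℂ × ℂ => s q.1) K :=
    hsc.comp continuousOn_fst fun q hq => by simpa using ((hKm q).1 hq).1
  have hFc : ContinuousOn F K := by
    have c1 : ContinuousOn (fun q : ℂ × ℂ => φ (z1 + q.1, w q.1)) K := by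
      refine hφc.comp ((continuousOn_const.add continuousOn_fst).prodMk hw1) ?_
      intro q hq
      obtain ⟨h1, h2⟩ := (hKm q).1 hq
      have := hwb q.1 h1
      exact mem_ball_zero_iff.2 (norm_pair_lt (hz q.1 h1) (by linarith))
    have c2 : ContinuousOn (fun q : ℂ × ℂ => φ (z1 + q.1, q.2)) K := by
      refine hφc.comp ((continuousOn_const.add continuousOn_fst).prodMk continuousOn_snd) ?_
      intro q hq
      obtain ⟨h1, h2⟩ := (hKm q).1 hq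
      exact mem_ball_zero_iff.2 (norm_pair_lt (hz q.1 h1) (by linarith))
    have c3 : ContinuousOn (fun q : ℂ × ℂ => 2 * (s q.1 * (w q.1 - q.2)).re) K :=
      continuousOn_const.mul
        (Complex.continuous_re.comp_continuousOn (hs1.mul (hw1.sub continuousOn_snd)))
    exact ((c1.sub c2).sub c3).add (continuousOn_const.mul (continuousOn_fst.norm.pow 2))
  obtain ⟨q0, hq0, hmax⟩ := hKc.exists_isMaxOn ⟨(0, 0), (hKm _).2 (by simp; norm_num)⟩ hFc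
  have hqK : ((ζ, v) : ℂ × ℂ) ∈ K := (hKm _).2 ⟨hζ, hv⟩
  refine (hmax hqK : F (ζ, v) ≤ F q0).trans ?_
  by_contra hcon
  push Not at hcon
  obtain ⟨ζ0, w0⟩ := q0
  obtain ⟨h1, h2⟩ := (hKm _).1 hq0
  simp only at h1 h2
  have hwb0 := hwb ζ0 h1
  -- the maximum is not attained over the boundary
  have hζ0 : ‖ζ0‖ < 1 := by
    rcases h1.lt_or_eq with h | h
    · exact h
    · exfalso
      have h3 := hN.convex (hz ζ0 h1) (w := w ζ0) (w' := w0) (by linarith) (by linarith)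
      rw [← hb ζ0 h] at h3
      have h4 : 0 ≤ (1 - δ) * ‖w0 - w ζ0‖ ^ 2 := mul_nonneg (by linarith) (by positivity)
      have h5 : (s ζ0 * (w ζ0 - w0)).re = - (s ζ0 * (w0 - w ζ0)).re := by
        rw [← Complex.neg_re]
        congr 1
        ring
      simp only [hF] at hcon
      rw [h5, h] at hcon
      linarith
  -- the second component is an interior point
  have hw0 : ‖w0‖ < 5 / 2 := by
    rcases h2.lt_or_eq with h | h
    · exact h
    · exfalso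
      set w1 : ℂ := (9 / 10 : ℝ) * w0 with hw1'
      have hw1n : ‖w1‖ = 9 / 4 := by
        rw [hw1', norm_mul, h, Complex.norm_real, Real.norm_eq_abs]
        norm_num
      have h3 := hN.convex (hz ζ0 h1) (w := w1) (w' := w0) (by rw [hw1n]; norm_num) (by linarith)
      have h4 : 0 ≤ (1 - δ) * ‖w0 - w1‖ ^ 2 := mul_nonneg (by linarith) (by positivity)
      have h5 : w0 - w1 = (1 / 10 : ℝ) * w0 := by rw [hw1']; push_cast; ring
      have h6 : ((ζ0, w1) : ℂ × ℂ) ∈ K := (hKm _).2 ⟨h1, by rw [hw1n]; norm_num⟩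
      have h7 : F (ζ0, w1) ≤ F (ζ0, w0) := hmax h6
      simp only [hF] at h7
      have h8 : (s ζ0 * (w ζ0 - w1)).re = (s ζ0 * (w ζ0 - w0)).re + (s ζ0 * (w0 - w1)).re := by
        rw [← Complex.add_re]
        congr 1
        ring
      rw [h8] at h7
      -- so the derivative in radial direction is too small
      have h9 : (G φ (z1 + ζ0, w1) * (w0 - w1)).re ≤ (s ζ0 * (w0 - w1)).re := by linarith
      rw [h5] at h9
      have h10 : ∀ u : ℂ, (u * (((1 / 10 : ℝ) : ℂ) * w0)).re = 1 / 10 * (u * w0).re := by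
        intro u
        have : u * (((1 / 10 : ℝ) : ℂ) * w0) = ((1 / 10 : ℝ) : ℂ) * (u * w0) := by ring
        rw [this, Complex.re_ofReal_mul]
      rw [h10, h10] at h9
      have h11 : (s ζ0 * w0).re ≤ 31 / 20 * (5 / 2) := by
        refine (Complex.re_le_norm _).trans ?_
        rw [norm_mul, h]
        exact mul_le_mul_of_nonneg_right (hsb ζ0 h1) (by norm_num)
      have h12 : ‖pp φ (z1 + ζ0, w1)‖ ≤ 1 / 25 := by
        have h13 : ‖((z1 + ζ0, w1) : ℂ × ℂ)‖ < 4 := norm_pair_lt (hz ζ0 h1) (by rw [hw1n]; norm_num)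
        refine (hN.pp_le h13).trans ?_
        have : δ * ‖((z1 + ζ0, w1) : ℂ × ℂ)‖ ≤ 1 / 100 * 4 :=
          mul_le_mul hδ h13.le (norm_nonneg _) (by norm_num)
        linarith
      have h14 : (G φ (z1 + ζ0, w1) * w0).re = 9 / 10 * (25 / 4) +
          (pp φ (z1 + ζ0, w1) * w0).re := by
        rw [G_eq, add_mul, Complex.add_re]
        congr 1
        show (conj w1 * w0).re = _
        have : conj w1 * w0 = ((9 / 10 : ℝ) : ℂ) * (conj w0 * w0) := by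
          rw [hw1', map_mul, Complex.conj_ofReal]; ring
        rw [this, Complex.conj_mul', h, ← Complex.ofReal_pow, ← Complex.ofReal_mul,
          Complex.ofReal_re]
        norm_num
      have h15 : -(1 / 25 * (5 / 2)) ≤ (pp φ (z1 + ζ0, w1) * w0).re := by
        have h16 := (abs_le.1 (Complex.abs_re_le_norm (pp φ (z1 + ζ0, w1) * w0))).1
        rw [norm_mul, h] at h16
        nlinarith
      linarith
  -- the perturbation in the null direction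
  have hx0 : ‖((z1 + ζ0, w0) : ℂ × ℂ)‖ < 4 := norm_pair_lt (hz ζ0 h1) (by linarith)
  obtain ⟨a, ha⟩ := hN.exists_null (by linarith) hx0
  set ω : ℂ → ℂ := fun ζ => w0 + a * (ζ - ζ0) with hω
  have hω0 : ω ζ0 = w0 := by simp [hω]
  have hωd : ∀ y, HasDerivAt ω a y := by
    intro y
    have := (((hasDerivAt_id y).sub_const ζ0).const_mul a).const_add w0
    simpa [hω] using this
  have hwd : ∀ᶠ y in 𝓝 ζ0, DifferentiableAt ℂ w y := by
    filter_upwards [Metric.isOpen_ball.mem_nhds (mem_ball_zero_iff.2 hζ0)] with y hy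
    exact hw.differentiableAt Metric.isOpen_ball hy
  have hsd : ∀ᶠ y in 𝓝 ζ0, DifferentiableAt ℂ s y := by
    filter_upwards [Metric.isOpen_ball.mem_nhds (mem_ball_zero_iff.2 hζ0)] with y hy
    exact hs.differentiableAt Metric.isOpen_ball hy
  obtain ⟨c1, l1⟩ := hN.lap_graph (z1 := z1) hwd (norm_pair_lt (hz ζ0 h1) (by linarith))
  obtain ⟨c2, l2⟩ := hN.lap_graph (z1 := z1) (w := ω) (ζ := ζ0)
    (Eventually.of_forall fun y => (hωd y).differentiableAt) (by rw [hω0]; exact hx0)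
  rw [(hωd ζ0).deriv, hω0, ha] at l2
  set h : ℂ → ℂ := fun ζ => s ζ * (w ζ - ω ζ) with hh
  have hhd : ∀ᶠ y in 𝓝 ζ0, DifferentiableAt ℂ h y := by
    filter_upwards [hwd, hsd] with y hy hy'
    exact hy'.mul (hy.sub (hωd y).differentiableAt)
  have l3 := lap_re_hol hhd
  have c3 : ContDiffAt ℝ 2 (fun ζ => (h ζ).re) ζ0 :=
    (Complex.reCLM.contDiff.contDiffAt (x := h ζ0)).comp ζ0 (contDiffAt_hol hhd)
  have c4 : ContDiffAt ℝ 2 (fun z : ℂ => ‖z‖ ^ 2) ζ0 := contDiffAt_id.norm_sq ℝ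
  set g : ℂ → ℝ := fun ζ => φ (z1 + ζ, w ζ) - φ (z1 + ζ, ω ζ) - 2 * (h ζ).re + η * ‖ζ‖ ^ 2 with hg
  have hgc : ContDiffAt ℝ 2 g ζ0 :=
    ((c1.sub c2).sub (contDiffAt_const.mul c3)).add (contDiffAt_const.mul c4)
  have hglap : lap g ζ0 = levi φ (z1 + ζ0, w ζ0) (1, deriv w ζ0) + 4 * η := by
    rw [hg, lap_add ((c1.sub c2).sub (contDiffAt_const.mul c3)) (contDiffAt_const.mul c4),
      lap_sub (c1.sub c2) (contDiffAt_const.mul c3), lap_sub c1 c2, lap_const_mul c3,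
      lap_const_mul c4, l1, l2, l3, lap_normSq]
    ring
  have hgmax : IsLocalMax g ζ0 := by
    have hωc : Tendsto ω (𝓝 ζ0) (𝓝 w0) := by
      have := (hωd ζ0).continuousAt.tendsto
      rwa [hω0] at this
    have e1 : ∀ᶠ y in 𝓝 ζ0, ‖y‖ ≤ 1 := by
      filter_upwards [Metric.isOpen_ball.mem_nhds (mem_ball_zero_iff.2 hζ0)] with y hy
      exact (mem_ball_zero_iff.1 hy).le
    have e2 : ∀ᶠ y in 𝓝 ζ0, ‖ω y‖ ≤ 5 / 2 := by
      filter_upwards [hωc.eventually (Metric.isOpen_ball.mem_nhds (mem_ball_zero_iff.2 hw0))]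
        with y hy
      exact (mem_ball_zero_iff.1 hy).le
    filter_upwards [e1, e2] with y hy hy'
    have h3 : ((y, ω y) : ℂ × ℂ) ∈ K := (hKm _).2 ⟨hy, hy'⟩
    have h4 : F (y, ω y) ≤ F (ζ0, w0) := hmax h3
    have h5 : F (ζ0, w0) = g ζ0 := by
      simp only [hF, hg, hh, hω0]
    rw [← h5]
    exact h4
  have h3 := lap_nonpos_of_isLocalMax hgc hgmax
  have h4 := hN.nonneg (z1 + ζ0, w ζ0) (norm_pair_lt (hz ζ0 h1) (by linarith)) (1, deriv w ζ0)
  linarith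

/-- Discs attached to the graph of the vertical derivative are contained in it. -/
theorem Normal.interior (hN : Normal φ δ) (hδ0 : 0 ≤ δ) (hδ : δ ≤ 1 / 100) {z1 : ℂ}
    (hz1 : ‖z1‖ ≤ 1) {w s : ℂ → ℂ} (hw : DiffContOnCl ℂ w (Metric.ball 0 1))
    (hs : DiffContOnCl ℂ s (Metric.ball 0 1)) (hwb : ∀ ζ, ‖ζ‖ ≤ 1 → ‖w ζ‖ ≤ 3 / 2)
    (hb : ∀ ζ, ‖ζ‖ = 1 → s ζ = G φ (z1 + ζ, w ζ)) (ζ : ℂ) (hζ : ‖ζ‖ ≤ 1) :
    s ζ = G φ (z1 + ζ, w ζ) := by
  have hle : ∀ v : ℂ, ‖v‖ ≤ 5 / 2 →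
      φ (z1 + ζ, w ζ) - φ (z1 + ζ, v) - 2 * (s ζ * (w ζ - v)).re ≤ 0 := by
    intro v hv
    refine le_of_forall_pos_le_add fun η hη => ?_
    have h1 := hN.interior_le hδ0 hδ hz1 hw hs hwb hb hη ζ v hζ hv
    have h2 : 0 ≤ η * ‖ζ‖ ^ 2 := by positivity
    linarith
  have hz : ‖z1 + ζ‖ < 4 := by
    have := norm_add_le z1 ζ
    linarith
  have hwζ := hwb ζ hζ
  -- the vertical derivative in the direction `k`
  have hk : ∀ k : ℂ, 2 * (s ζ * k).re ≤ fderiv ℝ φ (z1 + ζ, w ζ) (0, k) := by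
    intro k
    have hl : HasDerivAt (fun t : ℝ => ((z1 + ζ, w ζ) : ℂ × ℂ) + t • ((0 : ℂ), k)) ((0 : ℂ), k) 0 := by
      have := ((hasDerivAt_id (0 : ℝ)).smul_const ((0 : ℂ), k)).const_add ((z1 + ζ, w ζ) : ℂ × ℂ)
      simpa using this
    have hd := ((hN.smooth (z1 + ζ, w ζ) (norm_pair_lt hz (by linarith))).differentiableAt
      (by norm_num)).hasFDerivAt
    have hd' : HasFDerivAt φ (fderiv ℝ φ (z1 + ζ, w ζ))
      (((z1 + ζ, w ζ) : ℂ × ℂ) + (0 : ℝ) • ((0 : ℂ), k)) := by simpa using hd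
    have h1 : HasDerivAt (fun t : ℝ => φ (((z1 + ζ, w ζ) : ℂ × ℂ) + t • ((0 : ℂ), k)))
        (fderiv ℝ φ (z1 + ζ, w ζ) (0, k)) 0 :=
      HasFDerivAt.comp_hasDerivAt (f := fun t : ℝ => ((z1 + ζ, w ζ) : ℂ × ℂ) + t • ((0 : ℂ), k))
        (0 : ℝ) hd' hl
    rw [hasDerivAt_iff_tendsto_slope] at h1
    refine ge_of_tendsto (h1.mono_left (nhdsGT_le_nhdsNE 0)) ?_
    have hev : ∀ᶠ t : ℝ in 𝓝 0, ‖w ζ + t * k‖ ≤ 5 / 2 := by
      have hc : Continuous fun t : ℝ => w ζ + (t : ℂ) * k := by fun_prop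
      have ht : Tendsto (fun t : ℝ => w ζ + (t : ℂ) * k) (𝓝 0) (𝓝 (w ζ)) := by
        simpa using hc.tendsto 0
      filter_upwards [ht.eventually (Metric.isOpen_ball.mem_nhds
        (mem_ball_zero_iff.2 (by linarith : ‖w ζ‖ < 5 / 2)))] with t ht
      exact (mem_ball_zero_iff.1 ht).le
    filter_upwards [nhdsWithin_le_nhds hev, self_mem_nhdsWithin] with t ht htpos
    have htpos' : 0 < t := htpos
    have h2 := hle _ ht
    have e1 : w ζ - (w ζ + (t : ℂ) * k) = -((t : ℂ) * k) := by ring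
    have e2 : (s ζ * -((t : ℂ) * k)).re = -(t * (s ζ * k).re) := by
      have : s ζ * -((t : ℂ) * k) = -((t : ℂ) * (s ζ * k)) := by ring
      rw [this, Complex.neg_re, Complex.re_ofReal_mul]
    rw [e1, e2] at h2
    rw [slope_def_field, sub_zero]
    have e3 : ((z1 + ζ, w ζ) : ℂ × ℂ) + t • ((0 : ℂ), k) = (z1 + ζ, w ζ + t * k) := by
      ext <;> simp
    have e4 : ((z1 + ζ, w ζ) : ℂ × ℂ) + (0 : ℝ) • ((0 : ℂ), k) = (z1 + ζ, w ζ) := by simp
    rw [e3, e4, le_div_iff₀ htpos']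
    linarith
  have hk' : ∀ k : ℂ, ((s ζ - G φ (z1 + ζ, w ζ)) * k).re ≤ 0 := by
    intro k
    have h1 := hk k
    rw [fderiv_eq_G] at h1
    rw [sub_mul, Complex.sub_re]
    linarith
  have h1 := hk' (conj (s ζ - G φ (z1 + ζ, w ζ)))
  rw [Complex.mul_conj, Complex.ofReal_re] at h1
  have h2 : Complex.normSq (s ζ - G φ (z1 + ζ, w ζ)) = 0 :=
    le_antisymm h1 (Complex.normSq_nonneg _)
  exact sub_eq_zero.1 (Complex.normSq_eq_zero.1 h2)

end

end Pool.Agent.H90.Fol
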