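import Pool.Agent.H90.Fol.Defs
import Pool.Agent.H90.Fol.Interior

set_option autoImplicit false

open Metric Filter Topology InnerProductSpace

namespace Pool.Agent.H90.Fol

theorem leviForm_eq (φ : ℂ × ℂ → ℝ) (x ξ : ℂ × ℂ) : leviForm φ x ξ = levi φ x ξ := rfl

/-! ### Laplacian -/

theorem laplacian_eq_lap (f : ℂ → ℝ) (x : ℂ) : Laplacian.laplacian f x = lap f x := by
  rw [laplacian_eq_iteratedFDeriv_complexPlane]
  unfold lap levi D2
  show iteratedFDeriv ℝ 2 f x ![1, 1] + iteratedFDeriv ℝ 2 f x ![Complex.I, Complex.I] = _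
  rw [iteratedFDeriv_two_apply, iteratedFDeriv_two_apply]
  simp

theorem harmonicAt_iff_lap {f : ℂ → ℝ} {x : ℂ} (hf : ContDiffAt ℝ 2 f x) :
    HarmonicAt f x ↔ ∀ᶠ y in 𝓝 x, lap f y = 0 := by
  constructor
  · rintro ⟨_, h⟩
    filter_upwards [h] with y hy
    rw [← laplacian_eq_lap]
    exact hy
  · intro h
    refine ⟨hf, ?_⟩
    filter_upwards [h] with y hy
    rw [laplacian_eq_lap]
    exact hy

/-- Maximum principle on the closed unit disc. -/
theorem max_principle {f : ℂ → ℝ} {M : ℝ} (hc : ContinuousOn f (closedBall 0 1))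
    (h2 : ∀ ζ ∈ ball (0 : ℂ) 1, ContDiffAt ℝ 2 f ζ) (hl : ∀ ζ ∈ ball (0 : ℂ) 1, 0 ≤ lap f ζ)
    (hb : ∀ ζ : ℂ, ‖ζ‖ = 1 → f ζ ≤ M) {ζ : ℂ} (hζ : ‖ζ‖ ≤ 1) : f ζ ≤ M := by
  refine le_of_forall_pos_le_add fun η hη => ?_
  have hc' : ContinuousOn (fun z : ℂ => f z + η * ‖z‖ ^ 2) (closedBall 0 1) :=
    hc.add (continuous_const.mul (continuous_norm.pow 2)).continuousOn
  obtain ⟨z0, hz0, hmax⟩ := (isCompact_closedBall (0 : ℂ) 1).exists_isMaxOn ⟨0, by simp⟩ hc'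
  have h1 : f ζ + η * ‖ζ‖ ^ 2 ≤ f z0 + η * ‖z0‖ ^ 2 := hmax (mem_closedBall_zero_iff.2 hζ)
  have h0 : 0 ≤ η * ‖ζ‖ ^ 2 := by positivity
  rcases (mem_closedBall_zero_iff.1 hz0).lt_or_eq with h | h
  · exfalso
    have hz0' : z0 ∈ ball (0 : ℂ) 1 := mem_ball_zero_iff.2 h
    have c4 : ContDiffAt ℝ 2 (fun z : ℂ => ‖z‖ ^ 2) z0 := contDiffAt_id.norm_sq ℝ
    have hmax' : IsLocalMax (fun z : ℂ => f z + η * ‖z‖ ^ 2) z0 := by
      filter_upwards [isOpen_ball.mem_nhds hz0'] with y hy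
      exact hmax (ball_subset_closedBall hy)
    have h3 := lap_nonpos_of_isLocalMax ((h2 z0 hz0').add (contDiffAt_const.mul c4)) hmax'
    rw [lap_add (h2 z0 hz0') (contDiffAt_const.mul c4), lap_const_mul c4, lap_normSq] at h3
    have := hl z0 hz0'
    linarith
  · have h3 := hb z0 h
    rw [h] at h1
    linarith

/-- Functions with nonnegative Levi form are plurisubharmonic. -/
theorem isPSH_of_levi {Ω : Set (ℂ × ℂ)} (hΩ : IsOpen Ω) {u : ℂ × ℂ → ℝ}
    (hu : ∀ x ∈ Ω, ContDiffAt ℝ 2 u x) (hl : ∀ x ∈ Ω, ∀ ξ, 0 ≤ levi u x ξ) :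
    IsPSH Ω (fun x => (u x : EReal)) := by
  have hc : ContinuousOn u Ω := fun x hx => (hu x hx).continuousAt.continuousWithinAt
  refine ⟨?_, fun x _ => EReal.coe_lt_top _, ?_⟩
  · exact (continuous_coe_real_ereal.comp_continuousOn hc).upperSemicontinuousOn
  · intro a b hab h hhc hh hle
    rw [EReal.coe_le_coe_iff]
    have hle' : ∀ ζ : ℂ, ‖ζ‖ = 1 → u (a + ζ • b) - h ζ ≤ 0 := by
      intro ζ hζ
      have := EReal.coe_le_coe_iff.1 (hle ζ hζ)
      linarith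
    have hline : ∀ y : ℂ, HasDerivAt (fun ζ : ℂ => a + ζ • b) b y := by
      intro y
      have := ((hasDerivAt_id y).smul_const b).const_add a
      simpa using this
    have hev : ∀ y : ℂ, ∀ᶠ z in 𝓝 y, DifferentiableAt ℂ (fun ζ : ℂ => a + ζ • b) z := fun y =>
      Eventually.of_forall fun z => (hline z).differentiableAt
    have hmem : ∀ ζ ∈ ball (0 : ℂ) 1, a + ζ • b ∈ Ω := fun ζ hζ =>
      hab ζ (mem_ball_zero_iff.1 hζ).le
    have c1 : ∀ ζ ∈ ball (0 : ℂ) 1, ContDiffAt ℝ 2 (fun ζ : ℂ => u (a + ζ • b)) ζ := fun ζ hζ =>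
      ContDiffAt.comp (g := u) ζ (hu _ (hmem ζ hζ)) (contDiffAt_hol (hev ζ))
    have c2 : ∀ ζ ∈ ball (0 : ℂ) 1, ContDiffAt ℝ 2 h ζ := fun ζ hζ => (hh ζ hζ).1
    have h3 := max_principle (f := fun ζ => u (a + ζ • b) - h ζ) (M := 0) ?_ (fun ζ hζ =>
      (c1 ζ hζ).sub (c2 ζ hζ)) ?_ hle' (ζ := 0) (by simp)
    · simpa using h3
    · refine ContinuousOn.sub ?_ hhc
      refine hc.comp ?_ fun ζ hζ => hab ζ (mem_closedBall_zero_iff.1 hζ)
      exact fun ζ _ => (hline ζ).continuousAt.continuousWithinAt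
    · intro ζ hζ
      have h4 := lap_comp_hol (φ := u) (γ := fun ζ : ℂ => a + ζ • b) (x := ζ) (hu _ (hmem ζ hζ))
        (hev ζ)
      rw [lap_sub (c1 ζ hζ) (c2 ζ hζ), h4, (hline ζ).deriv,
        ((harmonicAt_iff_lap (c2 ζ hζ)).1 (hh ζ hζ)).self_of_nhds, sub_zero]
      exact hl _ (hmem ζ hζ) b

/-! ### Plurisubharmonic functions have nonnegative Levi form -/

/-- Second order Taylor estimate. -/
theorem taylor_two {g : ℂ → ℝ} (hg : ContDiffAt ℝ 2 g 0) (h0 : g 0 = 0)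
    (h1 : fderiv ℝ g 0 = 0) (h2 : fderiv ℝ (fderiv ℝ g) 0 = 0) {ε : ℝ} (hε : 0 < ε) :
    ∃ ρ > 0, ∀ ζ : ℂ, ‖ζ‖ ≤ ρ → |g ζ| ≤ ε * ‖ζ‖ ^ 2 := by
  have hd : HasFDerivAt (fderiv ℝ g) (0 : ℂ →L[ℝ] ℂ →L[ℝ] ℝ) 0 := by
    rw [← h2]; exact (fderiv_diff hg).hasFDerivAt
  rw [hasFDerivAt_iff_isLittleO_nhds_zero] at hd
  have h3 := hd.def hε
  have h4 : ∀ᶠ y in 𝓝 (0 : ℂ), ContDiffAt ℝ 2 g y := hg.eventually (by simp)
  obtain ⟨ρ, hρ, hρ'⟩ := Metric.eventually_nhds_iff_ball.1 (h3.and h4)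
  refine ⟨ρ / 2, by positivity, fun ζ hζ => ?_⟩
  have hb : ∀ y ∈ closedBall (0 : ℂ) ‖ζ‖, ‖fderiv ℝ g y‖ ≤ ε * ‖ζ‖ := by
    intro y hy
    have hy' := mem_closedBall_zero_iff.1 hy
    have h5 := (hρ' y (mem_ball_zero_iff.2 (by linarith))).1
    simp only [zero_add, h1, sub_zero, zero_apply] at h5
    exact h5.trans (mul_le_mul_of_nonneg_left hy' hε.le)
  have h5 := (convex_closedBall (0 : ℂ) ‖ζ‖).norm_image_sub_le_of_norm_fderiv_le (𝕜 := ℝ)
    (f := g) (x := 0) (y := ζ) (fun y hy => ((hρ' y (mem_ball_zero_iff.2 (by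
      have := mem_closedBall_zero_iff.1 hy
      linarith))).2).differentiableAt (by norm_num)) hb
    (by simp) (by simp)
  rw [h0, sub_zero, sub_zero, Real.norm_eq_abs] at h5
  calc |g ζ| ≤ ε * ‖ζ‖ * ‖ζ‖ := h5
    _ = ε * ‖ζ‖ ^ 2 := by ring

/-! ### Quadratic functions -/

section
variable {V : Type*} [NormedAddCommGroup V] [NormedSpace ℝ V]

theorem D2_quad {B : V →L[ℝ] V →L[ℝ] ℝ} (hB : ∀ v w, B v w = B w v) (x v w : V) :
    D2 (fun z => B z z) x v w = 2 * B v w := by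
  have hd : ∀ y, HasFDerivAt (fun z => B z z) ((B y) + B.flip y) y := by
    intro y
    have h1 := (B.hasFDerivAt (x := y)).clm_apply (hasFDerivAt_id y)
    refine h1.congr_fderiv ?_
    ext u
    simp
  have hc : ContDiffAt ℝ 2 (fun z => B z z) x := by
    have h1 : ContDiff ℝ 2 (fun z => B z z) := B.contDiff.clm_apply contDiff_id
    exact h1.contDiffAt
  have h1 : (fun y => fderiv ℝ (fun z => B z z) y w) = fun y => 2 * B y w := by
    funext y
    rw [(hd y).fderiv]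
    simp only [ContinuousLinearMap.add_apply, ContinuousLinearMap.flip_apply]
    rw [hB w y]
    ring
  have h2 : HasFDerivAt (fun y => 2 * B y w) ((2 : ℝ) • (B.flip w)) x := by
    have := (B.flip w).hasFDerivAt (x := x)
    exact this.const_mul 2
  rw [← h1] at h2
  rw [D2_eq_of_hasFDerivAt hc v w h2]
  simp

theorem contDiff_quad (B : V →L[ℝ] V →L[ℝ] ℝ) : ContDiff ℝ 2 (fun z => B z z) :=
  B.contDiff.clm_apply contDiff_id

theorem D2_linear' (L : V →L[ℝ] ℝ) (x v w : V) : D2 (fun z => L z) x v w = 0 := by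
  have h1 : fderiv ℝ (fun z => L z) = fun _ => L := by
    funext y
    exact L.fderiv
  unfold D2
  rw [h1]
  simp

theorem D2_const (c : ℝ) (x v w : V) : D2 (fun _ : V => c) x v w = 0 := by
  unfold D2
  simp

end

section
variable {V : Type*} [NormedAddCommGroup V] [NormedSpace ℝ V] [NormedSpace ℂ V]
  [IsScalarTower ℝ ℂ V]

variable (V) in
/-- Multiplication by the imaginary unit. -/
noncomputable def JJ : V →L[ℝ] V := (Complex.I • (ContinuousLinearMap.id ℂ V)).restrictScalars ℝ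

theorem JJ_apply (v : V) : JJ V v = Complex.I • v := rfl

/-- The pluriharmonic part of a quadratic form. -/
noncomputable def phPart (B : V →L[ℝ] V →L[ℝ] ℝ) : V →L[ℝ] V →L[ℝ] ℝ :=
  (1 / 2 : ℝ) • (B - B.bilinearComp (JJ V) (JJ V))

theorem phPart_apply (B : V →L[ℝ] V →L[ℝ] ℝ) (v w : V) :
    phPart B v w = (B v w - B (Complex.I • v) (Complex.I • w)) / 2 := by
  unfold phPart
  simp only [ContinuousLinearMap.smul_apply, ContinuousLinearMap.sub_apply,
    ContinuousLinearMap.bilinearComp_apply, JJ_apply, smul_eq_mul]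
  ring

theorem phPart_symm {B : V →L[ℝ] V →L[ℝ] ℝ} (hB : ∀ v w, B v w = B w v) (v w : V) :
    phPart B v w = phPart B w v := by
  rw [phPart_apply, phPart_apply, hB, hB (Complex.I • v)]

/-- The pluriharmonic polynomial with given linear and quadratic part. -/
noncomputable def phPoly (c : ℝ) (L : V →L[ℝ] ℝ) (B : V →L[ℝ] V →L[ℝ] ℝ) (x : V) : ℝ :=
  c + L x + 1 / 2 * phPart B x x

theorem contDiff_phPoly (c : ℝ) (L : V →L[ℝ] ℝ) (B : V →L[ℝ] V →L[ℝ] ℝ) :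
    ContDiff ℝ 2 (phPoly c L B) := by
  unfold phPoly
  exact (contDiff_const.add L.contDiff).add (contDiff_const.mul (contDiff_quad _))

theorem D2_phPoly (c : ℝ) (L : V →L[ℝ] ℝ) {B : V →L[ℝ] V →L[ℝ] ℝ} (hB : ∀ v w, B v w = B w v)
    (x v w : V) : D2 (phPoly c L B) x v w = (B v w - B (Complex.I • v) (Complex.I • w)) / 2 := by
  unfold phPoly
  have c1 : ContDiffAt ℝ 2 (fun _ : V => c) x := contDiffAt_const
  have c2 : ContDiffAt ℝ 2 (fun x : V => L x) x := L.contDiff.contDiffAt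
  have c3 : ContDiffAt ℝ 2 (fun x : V => phPart B x x) x := (contDiff_quad _).contDiffAt
  rw [D2_add (c1.add c2) (contDiffAt_const.mul c3), D2_add c1 c2, D2_const, D2_linear',
    D2_const_mul c3, D2_quad (phPart_symm hB), phPart_apply]
  ring

theorem levi_phPoly (c : ℝ) (L : V →L[ℝ] ℝ) {B : V →L[ℝ] V →L[ℝ] ℝ} (hB : ∀ v w, B v w = B w v)
    (x ξ : V) : levi (phPoly c L B) x ξ = 0 := by
  unfold levi
  rw [D2_phPoly c L hB, D2_phPoly c L hB]
  simp only [smul_smul, Complex.I_mul_I, neg_smul, one_smul, map_neg,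
    ContinuousLinearMap.neg_apply]
  ring

theorem fderiv_phPoly (c : ℝ) (L : V →L[ℝ] ℝ) {B : V →L[ℝ] V →L[ℝ] ℝ} (hB : ∀ v w, B v w = B w v)
    (x : V) : fderiv ℝ (phPoly c L B) x = L + phPart B x := by
  have hd : HasFDerivAt (fun z => phPart B z z) ((phPart B x) + (phPart B).flip x) x := by
    have h1 := ((phPart B).hasFDerivAt (x := x)).clm_apply (hasFDerivAt_id x)
    refine h1.congr_fderiv ?_
    ext u
    simp
  have h1 : HasFDerivAt (phPoly c L B) (L + (1 / 2 : ℝ) • ((phPart B x) + (phPart B).flip x)) x :=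
    (L.hasFDerivAt.const_add c).add (hd.const_mul (1 / 2))
  rw [h1.fderiv]
  ext u
  simp only [ContinuousLinearMap.add_apply, ContinuousLinearMap.smul_apply,
    ContinuousLinearMap.flip_apply, smul_eq_mul]
  rw [phPart_symm hB u x]
  ring

end

theorem lev2_complex {f : ℂ → ℝ} {x : ℂ} (hf : ContDiffAt ℝ 2 f x) (v w : ℂ) :
    lev2 f x v w = (v * (starRingEnd ℂ) w).re * lap f x := by
  have hv := complex_smul_eq v (1 : ℂ)
  have hw := complex_smul_eq w (1 : ℂ)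
  have e1 : v • (1 : ℂ) = v := by simp
  have e2 : w • (1 : ℂ) = w := by simp
  rw [e1] at hv
  rw [e2] at hw
  have a1 := lev2_I_self hf (1 : ℂ)
  have a2 : lev2 f x 1 (Complex.I • (1 : ℂ)) = 0 := by rw [lev2_symm hf]; exact a1
  conv_lhs => rw [hv, hw]
  rw [lev2_add_left, lev2_add_right, lev2_add_right]
  simp only [lev2_smul_left, lev2_smul_right]
  rw [lev2_I, a1, a2, lev2_self]
  simp only [Complex.mul_re, Complex.conj_re, Complex.conj_im, lap]
  ring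

/-- Plurisubharmonic functions have nonnegative Levi form. -/
theorem levi_nonneg_of_isPSH {Ω : Set (ℂ × ℂ)} (hΩ : IsOpen Ω) {φ : ℂ × ℂ → ℝ}
    (hφ : ∀ x ∈ Ω, ContDiffAt ℝ 2 φ x) (h : IsPSH Ω (fun x => (φ x : EReal))) {x : ℂ × ℂ}
    (hx : x ∈ Ω) (ξ : ℂ × ℂ) : 0 ≤ levi φ x ξ := by
  by_contra hcon
  push Not at hcon
  set f : ℂ → ℝ := fun ζ => φ (x + ζ • ξ) with hf
  have hline : ∀ y : ℂ, HasDerivAt (fun ζ : ℂ => x + ζ • ξ) ξ y := by
    intro y
    have := ((hasDerivAt_id y).smul_const ξ).const_add x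
    simpa using this
  have hev : ∀ y : ℂ, ∀ᶠ z in 𝓝 y, DifferentiableAt ℂ (fun ζ : ℂ => x + ζ • ξ) z := fun y =>
    Eventually.of_forall fun z => (hline z).differentiableAt
  have hx0 : x + (0 : ℂ) • ξ = x := by simp
  have hfc : ContDiffAt ℝ 2 f 0 :=
    ContDiffAt.comp (g := φ) 0 (by rw [hx0]; exact hφ x hx) (contDiffAt_hol (hev 0))
  have hlap : lap f 0 = levi φ x ξ := by
    have h4 := lap_comp_hol (φ := φ) (γ := fun ζ : ℂ => x + ζ • ξ) (x := 0)
      (by rw [hx0]; exact hφ x hx) (hev 0)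
    rw [(hline 0).deriv, hx0] at h4
    exact h4
  set L := lap f 0 with hL
  have hLneg : L < 0 := by rw [hlap]; exact hcon
  set B : ℂ →L[ℝ] ℂ →L[ℝ] ℝ := fderiv ℝ (fderiv ℝ f) 0 with hB
  have hBs : ∀ v w, B v w = B w v := fun v w => D2_symm hfc v w
  set P : ℂ → ℝ := phPoly (f 0) (fderiv ℝ f 0) B with hP
  have hPc : ContDiff ℝ 2 P := contDiff_phPoly _ _ _
  have hP0 : P 0 = f 0 := by simp [hP, phPoly]
  set g : ℂ → ℝ := fun ζ => f ζ - P ζ - L / 4 * ‖ζ‖ ^ 2 with hg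
  have c4 : ∀ z : ℂ, ContDiffAt ℝ 2 (fun z : ℂ => ‖z‖ ^ 2) z := fun z => contDiffAt_id.norm_sq ℝ
  have hgc : ContDiffAt ℝ 2 g 0 := (hfc.sub hPc.contDiffAt).sub (contDiffAt_const.mul (c4 0))
  have hg0 : g 0 = 0 := by simp [hg, hP0]
  have hg1 : fderiv ℝ g 0 = 0 := by
    have d1 : HasFDerivAt f (fderiv ℝ f 0) 0 := (hfc.differentiableAt (by norm_num)).hasFDerivAt
    have d2 : HasFDerivAt P (fderiv ℝ f 0 + phPart B 0) 0 := by
      rw [← fderiv_phPoly (f 0) (fderiv ℝ f 0) hBs 0]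
      exact (hPc.contDiffAt.differentiableAt (by norm_num)).hasFDerivAt
    have d3 : HasFDerivAt (fun z : ℂ => ‖z‖ ^ 2) (0 : ℂ →L[ℝ] ℝ) 0 := by
      have := (hasStrictFDerivAt_norm_sq (0 : ℂ)).hasFDerivAt
      simpa using this
    have d4 := ((d1.sub d2).sub (d3.const_mul (L / 4))).fderiv
    have e : (f - P - fun y : ℂ => L / 4 * ‖y‖ ^ 2) = g := rfl
    rw [e] at d4
    rw [d4]
    simp
  have hg2 : fderiv ℝ (fderiv ℝ g) 0 = 0 := by
    ext1 v
    ext1 w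
    show D2 g 0 v w = 0
    have e1 := D2_sub (f := fun ζ => f ζ - P ζ) (g := fun ζ => L / 4 * ‖ζ‖ ^ 2) (x := (0 : ℂ))
      (hfc.sub hPc.contDiffAt) (contDiffAt_const.mul (c4 0)) v w
    have e2 := D2_sub (f := f) (g := P) (x := (0 : ℂ)) hfc hPc.contDiffAt v w
    rw [hg, e1, e2, D2_const_mul (c4 0), D2_normSq, hP, D2_phPoly _ _ hBs]
    have e3 := lev2_complex hfc v w
    unfold lev2 at e3
    have e4 : B v w = D2 f 0 v w := rfl
    have e5 : B (Complex.I • v) (Complex.I • w) = D2 f 0 (Complex.I • v) (Complex.I • w) := rfl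
    rw [e4, e5]
    have e6 : D2 f 0 v w + D2 f 0 (Complex.I • v) (Complex.I • w) =
        (v * (starRingEnd ℂ) w).re * L := e3
    linarith
  obtain ⟨ρ, hρ, htay⟩ := taylor_two hgc hg0 hg1 hg2 (show 0 < -L / 8 by linarith)
  -- a small disc
  have hcont : Tendsto (fun ζ : ℂ => x + ζ • ξ) (𝓝 0) (𝓝 x) := by
    have := (hline 0).continuousAt.tendsto
    rwa [hx0] at this
  obtain ⟨r, hr, hrΩ⟩ := Metric.eventually_nhds_iff_ball.1 (hcont.eventually (hΩ.mem_nhds hx))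
  set s : ℝ := min ρ (r / 2) with hs
  have hs0 : 0 < s := lt_min hρ (by positivity)
  have hsρ : s ≤ ρ := min_le_left _ _
  have hsr : s < r := lt_of_le_of_lt (min_le_right _ _) (by linarith)
  set H : ℂ → ℝ := fun ζ => P ((s : ℂ) * ζ) + L / 8 * s ^ 2 with hH
  have hmul : ∀ y : ℂ, HasDerivAt (fun ζ : ℂ => (s : ℂ) * ζ) (s : ℂ) y := by
    intro y
    simpa using (hasDerivAt_id y).const_mul (s : ℂ)
  have hHc1 : ∀ y : ℂ, ContDiffAt ℝ 2 (fun ζ => P ((s : ℂ) * ζ)) y := fun y =>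
    ContDiffAt.comp (g := P) y hPc.contDiffAt
      (contDiffAt_hol (Eventually.of_forall fun z => (hmul z).differentiableAt))
  have hHc : ∀ y : ℂ, ContDiffAt ℝ 2 H y := fun y => (hHc1 y).add contDiffAt_const
  have hHlap : ∀ y : ℂ, lap H y = 0 := by
    intro y
    have h4 := lap_comp_hol (φ := P) (γ := fun ζ : ℂ => (s : ℂ) * ζ) (x := y) hPc.contDiffAt
      (Eventually.of_forall fun z => (hmul z).differentiableAt)
    rw [hH, lap_add (hHc1 y) contDiffAt_const, h4, hP, levi_phPoly _ _ hBs]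
    unfold lap levi
    rw [D2_const, D2_const]
    ring
  have hkey := h.2.2 x ((s : ℂ) • ξ) ?_ H ?_ ?_ ?_
  · rw [EReal.coe_le_coe_iff] at hkey
    have e1 : H 0 = f 0 + L / 8 * s ^ 2 := by simp [hH, hP0]
    have e2 : f 0 = φ x := by simp [hf]
    rw [e1, e2] at hkey
    have : L / 8 * s ^ 2 < 0 := mul_neg_of_neg_of_pos (by linarith) (by positivity)
    linarith
  · intro ζ hζ
    have e : ζ • ((s : ℂ) • ξ) = ((s : ℂ) * ζ) • ξ := by rw [smul_smul, mul_comm]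
    rw [e]
    refine hrΩ _ (mem_ball_zero_iff.2 ?_)
    rw [norm_mul, Complex.norm_real, Real.norm_eq_abs, abs_of_pos hs0]
    exact lt_of_le_of_lt (mul_le_of_le_one_right hs0.le hζ) hsr
  · exact fun y _ => (hHc y).continuousAt.continuousWithinAt
  · exact fun y _ => (harmonicAt_iff_lap (hHc y)).2 (Eventually.of_forall hHlap)
  · intro ζ hζ
    rw [EReal.coe_le_coe_iff]
    have e : ζ • ((s : ℂ) • ξ) = ((s : ℂ) * ζ) • ξ := by rw [smul_smul, mul_comm]
    have hn : ‖(s : ℂ) * ζ‖ = s := by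
      rw [norm_mul, Complex.norm_real, Real.norm_eq_abs, abs_of_pos hs0, hζ, mul_one]
    rw [e]
    show f ((s : ℂ) * ζ) ≤ P ((s : ℂ) * ζ) + L / 8 * s ^ 2
    have h5 := (abs_le.1 (htay ((s : ℂ) * ζ) (by rw [hn]; exact hsρ))).2
    rw [hn] at h5
    simp only [hg, hn] at h5
    linarith

end Pool.Agent.H90.Fol
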