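import Mathlib

set_option autoImplicit false

open Filter Topology

namespace Pool.Agent.H90.Fol

/-! ### Second derivatives -/

section
variable {V W : Type*} [NormedAddCommGroup V] [NormedSpace ℝ V] [NormedAddCommGroup W]
  [NormedSpace ℝ W]

/-- The second derivative of `f` at `x` in the directions `v`, `w`. -/
noncomputable def D2 (f : V → ℝ) (x v w : V) : ℝ := fderiv ℝ (fderiv ℝ f) x v w

theorem fderiv_diff {f : V → ℝ} {x : V} (hf : ContDiffAt ℝ 2 f x) :
    DifferentiableAt ℝ (fderiv ℝ f) x :=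
  (hf.fderiv_right (m := 1) (by norm_num)).differentiableAt (by norm_num)

theorem D2_symm {f : V → ℝ} {x : V} (hf : ContDiffAt ℝ 2 f x) (v w : V) :
    D2 f x v w = D2 f x w v :=
  hf.isSymmSndFDerivAt (by simp) v w

theorem D2_eq_of_hasFDerivAt {f : V → ℝ} {x : V} (hf : ContDiffAt ℝ 2 f x) (v w : V)
    {L : V →L[ℝ] ℝ} (h : HasFDerivAt (fun y => fderiv ℝ f y w) L x) : D2 f x v w = L v := by
  have h1 : HasFDerivAt (fun y => fderiv ℝ f y w) ((fderiv ℝ (fderiv ℝ f) x).flip w) x :=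
    (fderiv_diff hf).hasFDerivAt.clm_apply (hasFDerivAt_const w x) |>.congr_fderiv (by
      ext u
      simp)
  rw [h.unique h1]
  rfl

theorem D2_congr {f g : V → ℝ} {x : V} (h : f =ᶠ[𝓝 x] g) (v w : V) : D2 f x v w = D2 g x v w := by
  unfold D2
  rw [h.fderiv.fderiv_eq]

theorem D2_add {f g : V → ℝ} {x : V} (hf : ContDiffAt ℝ 2 f x) (hg : ContDiffAt ℝ 2 g x)
    (v w : V) : D2 (fun y => f y + g y) x v w = D2 f x v w + D2 g x v w := by
  have h1 : fderiv ℝ (fun y => f y + g y) =ᶠ[𝓝 x] fun y => fderiv ℝ f y + fderiv ℝ g y := by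
    filter_upwards [hf.eventually (by simp), hg.eventually (by simp)] with y hy hy'
    exact fderiv_fun_add (hy.differentiableAt (by norm_num)) (hy'.differentiableAt (by norm_num))
  unfold D2
  rw [h1.fderiv_eq, fderiv_fun_add (fderiv_diff hf) (fderiv_diff hg)]
  rfl

theorem D2_neg {f : V → ℝ} {x : V} (v w : V) : D2 (fun y => - f y) x v w = - D2 f x v w := by
  have h1 : fderiv ℝ (fun y => - f y) = fun y => - fderiv ℝ f y := by
    funext y
    exact fderiv_fun_neg
  unfold D2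
  rw [h1, fderiv_fun_neg]
  rfl

theorem D2_sub {f g : V → ℝ} {x : V} (hf : ContDiffAt ℝ 2 f x) (hg : ContDiffAt ℝ 2 g x)
    (v w : V) : D2 (fun y => f y - g y) x v w = D2 f x v w - D2 g x v w := by
  simp only [sub_eq_add_neg]
  rw [D2_add hf hg.neg, D2_neg]

theorem D2_const_mul {f : V → ℝ} {x : V} (hf : ContDiffAt ℝ 2 f x) (c : ℝ)
    (v w : V) : D2 (fun y => c * f y) x v w = c * D2 f x v w := by
  have h1 : fderiv ℝ (fun y => c * f y) =ᶠ[𝓝 x] fun y => c • fderiv ℝ f y := by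
    filter_upwards [hf.eventually (by simp)] with y hy
    exact fderiv_const_mul (hy.differentiableAt (by norm_num)) c
  unfold D2
  rw [h1.fderiv_eq, fderiv_fun_const_smul (fderiv_diff hf)]
  rfl

theorem D2_comp_affine {f : W → ℝ} {q : W} {L : V →L[ℝ] W} {x : V}
    (hf : ContDiffAt ℝ 2 f (q + L x)) (v w : V) :
    D2 (fun y => f (q + L y)) x v w = D2 f (q + L x) (L v) (L w) := by
  have hc : ContDiffAt ℝ 2 (fun y => f (q + L y)) x :=
    ContDiffAt.comp (g := f) (f := fun y => q + L y) x hf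
      (contDiffAt_const.add L.contDiff.contDiffAt)
  have hL : ∀ y, HasFDerivAt (fun y => q + L y) L y := fun y => L.hasFDerivAt.const_add q
  have hcont : Tendsto (fun y => q + L y) (𝓝 x) (𝓝 (q + L x)) :=
    (hL x).continuousAt
  refine D2_eq_of_hasFDerivAt hc v w (L := ((fderiv ℝ (fderiv ℝ f) (q + L x)).flip (L w)).comp L) ?_
  have h1 : (fun y => fderiv ℝ (fun y => f (q + L y)) y w) =ᶠ[𝓝 x]
      fun y => fderiv ℝ f (q + L y) (L w) := by
    filter_upwards [hcont.eventually (hf.eventually (by simp))] with y hy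
    have := ((hy.differentiableAt (by norm_num)).hasFDerivAt.comp y (hL y)).fderiv
    have e : (fun y => f (q + L y)) = f ∘ fun y => q + L y := rfl
    rw [e, this]
    rfl
  refine HasFDerivAt.congr_of_eventuallyEq ?_ h1
  have h2 : HasFDerivAt (fun y => fderiv ℝ f (q + L y)) ((fderiv ℝ (fderiv ℝ f) (q + L x)).comp L) x :=
    (fderiv_diff hf).hasFDerivAt.comp x (hL x)
  refine (h2.clm_apply (hasFDerivAt_const (L w) x)).congr_fderiv ?_
  ext u
  simp

end

/-! ### Compositions with holomorphic maps -/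

section
variable {V : Type*} [NormedAddCommGroup V] [NormedSpace ℝ V] [NormedSpace ℂ V]
  [IsScalarTower ℝ ℂ V]

/-- The Levi form of `f` at `x` (four times the complex Hessian). -/
noncomputable def levi (f : V → ℝ) (x ξ : V) : ℝ :=
  D2 f x ξ ξ + D2 f x (Complex.I • ξ) (Complex.I • ξ)

theorem hasFDerivAt_hol {γ : ℂ → V} {y : ℂ} (h : DifferentiableAt ℂ γ y) :
    HasFDerivAt γ ((((1 : ℂ →L[ℂ] ℂ).smulRight (deriv γ y)).restrictScalars ℝ)) y :=
  h.hasDerivAt.hasFDerivAt.restrictScalars ℝ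

theorem contDiffAt_hol [CompleteSpace V] {γ : ℂ → V} {x : ℂ}
    (hγ : ∀ᶠ y in 𝓝 x, DifferentiableAt ℂ γ y) : ContDiffAt ℝ 2 γ x := by
  have h1 : AnalyticAt ℂ γ x := by
    obtain ⟨s, hs, hso, hx⟩ := eventually_nhds_iff.1 hγ
    exact (DifferentiableOn.analyticOnNhd (fun y hy => (hs y hy).differentiableWithinAt) hso) x hx
  exact h1.contDiffAt.restrict_scalars ℝ

theorem fderiv_comp_hol {φ : V → ℝ} {γ : ℂ → V} {y : ℂ} (hφ : DifferentiableAt ℝ φ (γ y))
    (hγ : DifferentiableAt ℂ γ y) (u : ℂ) :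
    fderiv ℝ (fun z => φ (γ z)) y u = fderiv ℝ φ (γ y) (u • deriv γ y) := by
  have h := (hφ.hasFDerivAt.comp y (hasFDerivAt_hol hγ)).fderiv
  have e : (fun z => φ (γ z)) = φ ∘ γ := rfl
  rw [e, h]
  rfl

theorem D2_comp_hol [CompleteSpace V] {φ : V → ℝ} {γ : ℂ → V} {x : ℂ}
    (hφ : ContDiffAt ℝ 2 φ (γ x))
    (hγ : ∀ᶠ y in 𝓝 x, DifferentiableAt ℂ γ y) (v w : ℂ) :
    D2 (fun z => φ (γ z)) x v w = D2 φ (γ x) (v • deriv γ x) (w • deriv γ x) +
      fderiv ℝ φ (γ x) ((v * w) • deriv (deriv γ) x) := by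
  have hγx : DifferentiableAt ℂ γ x := hγ.self_of_nhds
  have hcd : ContDiffAt ℝ 2 (fun z => φ (γ z)) x := ContDiffAt.comp x hφ (contDiffAt_hol hγ)
  have hγ2 : ∀ᶠ y in 𝓝 x, DifferentiableAt ℂ (deriv γ) y := by
    obtain ⟨s, hs, hso, hx⟩ := eventually_nhds_iff.1 hγ
    have h2 : DifferentiableOn ℂ (deriv γ) s :=
      DifferentiableOn.deriv (fun y hy => (hs y hy).differentiableWithinAt) hso
    filter_upwards [hso.mem_nhds hx] with y hy
    exact (h2 y hy).differentiableAt (hso.mem_nhds hy)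
  have hev : (fun y => fderiv ℝ (fun z => φ (γ z)) y w) =ᶠ[𝓝 x]
      fun y => fderiv ℝ φ (γ y) (w • deriv γ y) := by
    have h1 : ∀ᶠ y in 𝓝 x, ContDiffAt ℝ 2 φ (γ y) :=
      (hγx.continuousAt.tendsto).eventually (hφ.eventually (by simp))
    filter_upwards [hγ, h1] with y hy hy'
    exact fderiv_comp_hol (hy'.differentiableAt (by norm_num)) hy w
  have hc : HasFDerivAt (fun y => fderiv ℝ φ (γ y)) ((fderiv ℝ (fderiv ℝ φ) (γ x)).comp
      ((((1 : ℂ →L[ℂ] ℂ).smulRight (deriv γ x)).restrictScalars ℝ))) x :=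
    (fderiv_diff hφ).hasFDerivAt.comp x (hasFDerivAt_hol hγx)
  have hu : HasFDerivAt (fun y => w • deriv γ y)
      (w • ((((1 : ℂ →L[ℂ] ℂ).smulRight (deriv (deriv γ) x)).restrictScalars ℝ))) x := by
    have h2 := (hγ2.self_of_nhds).hasDerivAt.const_smul w
    refine (h2.hasFDerivAt.restrictScalars ℝ).congr_fderiv ?_
    ext u
    simp [smul_smul, mul_comm]
  rw [D2_eq_of_hasFDerivAt hcd v w ((hc.clm_apply hu).congr_of_eventuallyEq hev)]
  simp only [D2, ContinuousLinearMap.add_apply, ContinuousLinearMap.comp_apply,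
    ContinuousLinearMap.flip_apply, ContinuousLinearMap.smul_apply,
    ContinuousLinearMap.coe_restrictScalars', ContinuousLinearMap.smulRight_apply,
    one_apply_eq_self]
  rw [add_comm, smul_smul, mul_comm w v]

/-- The Laplacian of a function of one complex variable. -/
noncomputable def lap (f : ℂ → ℝ) (x : ℂ) : ℝ := levi f x 1

theorem lap_comp_hol [CompleteSpace V] {φ : V → ℝ} {γ : ℂ → V} {x : ℂ}
    (hφ : ContDiffAt ℝ 2 φ (γ x)) (hγ : ∀ᶠ y in 𝓝 x, DifferentiableAt ℂ γ y) :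
    lap (fun z => φ (γ z)) x = levi φ (γ x) (deriv γ x) := by
  unfold lap levi
  rw [D2_comp_hol hφ hγ, D2_comp_hol hφ hγ]
  simp only [one_smul, smul_eq_mul, mul_one, Complex.I_mul_I, neg_smul, map_neg]
  ring

end

/-! ### Local maxima -/

theorem D2_line {f : ℂ → ℝ} {x v : ℂ} (hf : ContDiffAt ℝ 2 f x) :
    deriv (deriv fun t : ℝ => f (x + t * v)) 0 = D2 f x v v ∧
      deriv (fun t : ℝ => f (x + t * v)) 0 = fderiv ℝ f x v := by
  have hl : ∀ t : ℝ, HasDerivAt (fun t : ℝ => x + (t : ℂ) * v) v t := by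
    intro t
    have h1 : HasDerivAt (fun t : ℝ => (t : ℂ)) 1 t := Complex.ofRealCLM.hasDerivAt
    simpa using (h1.mul_const v).const_add x
  have hcont : Tendsto (fun t : ℝ => x + (t : ℂ) * v) (𝓝 0) (𝓝 x) := by
    have := (hl 0).continuousAt.tendsto
    simpa using this
  have h1 : deriv (fun t : ℝ => f (x + t * v)) =ᶠ[𝓝 0] fun t => fderiv ℝ f (x + t * v) v := by
    filter_upwards [hcont.eventually (hf.eventually (by simp))] with t ht
    exact ((ht.differentiableAt (by norm_num)).hasFDerivAt.comp_hasDerivAt t (hl t)).deriv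
  constructor
  · rw [h1.deriv_eq]
    have hd : HasFDerivAt (fun y => fderiv ℝ f y v) ((fderiv ℝ (fderiv ℝ f) x).flip v) x :=
      (fderiv_diff hf).hasFDerivAt.clm_apply (hasFDerivAt_const v x) |>.congr_fderiv (by
        ext u
        simp)
    have hd' : HasFDerivAt (fun y => fderiv ℝ f y v) ((fderiv ℝ (fderiv ℝ f) x).flip v)
        (x + ((0 : ℝ) : ℂ) * v) := by simpa using hd
    exact (hd'.comp_hasDerivAt (0 : ℝ) (hl 0)).deriv
  · have := h1.self_of_nhds
    simpa using this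

theorem D2_nonpos_of_isLocalMax {f : ℂ → ℝ} {x : ℂ} (hf : ContDiffAt ℝ 2 f x)
    (hmax : IsLocalMax f x) (v : ℂ) : D2 f x v v ≤ 0 := by
  by_contra hcon
  push Not at hcon
  obtain ⟨h1, h2⟩ := D2_line (v := v) hf
  have hcont : Tendsto (fun t : ℝ => x + (t : ℂ) * v) (𝓝 0) (𝓝 x) := by
    have : Continuous fun t : ℝ => x + (t : ℂ) * v := by fun_prop
    simpa using this.tendsto 0
  have hd0 : deriv (fun t : ℝ => f (x + t * v)) 0 = 0 := by
    rw [h2, hmax.fderiv_eq_zero]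
    rfl
  have hmax' : IsLocalMax (fun t : ℝ => f (x + t * v)) 0 := by
    have := hcont.eventually hmax
    simpa [IsLocalMax, IsMaxFilter] using this
  have hcontf : ContinuousAt (fun t : ℝ => f (x + t * v)) 0 := by
    have h3 : ContinuousAt f (x + ((0 : ℝ) : ℂ) * v) := by simpa using hf.continuousAt
    exact ContinuousAt.comp (f := fun t : ℝ => x + (t : ℂ) * v) h3 (by fun_prop)
  have hmin := isLocalMin_of_deriv_deriv_pos (by rw [h1]; exact hcon) hd0 hcontf
  have hconst : (fun t : ℝ => f (x + t * v)) =ᶠ[𝓝 0] fun _ => f x := by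
    have hmin' : ∀ᶠ t : ℝ in 𝓝 0, f x ≤ f (x + t * v) := by simpa [IsLocalMin, IsMinFilter] using hmin
    have hmax'' : ∀ᶠ t : ℝ in 𝓝 0, f (x + t * v) ≤ f x := by
      simpa [IsLocalMax, IsMaxFilter] using hmax'
    filter_upwards [hmin', hmax''] with t a b
    exact le_antisymm b a
  have h3 : deriv (deriv fun t : ℝ => f (x + t * v)) 0 = 0 := by
    rw [hconst.deriv.deriv_eq]
    simp
  rw [h1] at h3
  linarith

theorem lap_nonpos_of_isLocalMax {f : ℂ → ℝ} {x : ℂ} (hf : ContDiffAt ℝ 2 f x)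
    (hmax : IsLocalMax f x) : lap f x ≤ 0 := by
  unfold lap levi
  have h1 := D2_nonpos_of_isLocalMax hf hmax 1
  have h2 := D2_nonpos_of_isLocalMax hf hmax (Complex.I • 1)
  linarith

end Pool.Agent.H90.Fol
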