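import Pool.Agent.H90.Fol.Leaf

set_option autoImplicit false

open Filter Topology Real
open scoped ComplexConjugate

namespace Pool.Agent.H90.Fol

section
variable {φ : ℂ × ℂ → ℝ} {δ : ℝ}

/-- The second derivative in terms of the derivative of `G`. -/
theorem Normal.D2_eq (hN : Normal φ δ) {x : ℂ × ℂ} (hx : ‖x‖ < 4) (v : ℂ × ℂ) (k : ℂ) :
    D2 φ x v (0, k) = 2 * (fderiv ℝ (G φ) x v * k).re := by
  have h1 : (fun y => fderiv ℝ φ y (0, k)) = fun y => 2 * (G φ y * k).re := by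
    funext y
    exact fderiv_eq_G φ y k
  have hG := (hN.G_diff hx).hasFDerivAt
  have h2 : HasFDerivAt (fun y => 2 * (G φ y * k).re)
      ((2 : ℝ) • (Complex.reCLM.comp (((ContinuousLinearMap.mul ℝ ℂ).flip k).comp
        (fderiv ℝ (G φ) x)))) x := by
    have h3 := ((Complex.reCLM.comp ((ContinuousLinearMap.mul ℝ ℂ).flip k)).hasFDerivAt
      (x := G φ x)).comp x hG
    exact h3.const_mul 2
  rw [← h1] at h2
  rw [D2_eq_of_hasFDerivAt (hN.smooth x hx) v (0, k) h2]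
  simp
  ring

theorem Normal.lev2_eq (hN : Normal φ δ) {x : ℂ × ℂ} (hx : ‖x‖ < 4) (v : ℂ × ℂ) (k : ℂ) :
    lev2 φ x v (0, k) = 2 * ((fderiv ℝ (G φ) x v + Complex.I * fderiv ℝ (G φ) x (Complex.I • v)) *
      k).re := by
  unfold lev2
  have e : Complex.I • ((0 : ℂ), k) = (0, Complex.I * k) := by simp
  rw [e, hN.D2_eq hx, hN.D2_eq hx, ← mul_add, ← Complex.add_re]
  congr 2
  ring

/-- If the Levi form vanishes on the tangent, then `G` is holomorphic on the disc. -/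
theorem Normal.G_hol (hN : Normal φ δ) {γ : ℂ → ℂ × ℂ} {y : ℂ} (hγ : DifferentiableAt ℂ γ y)
    (hx : ‖γ y‖ < 4) (h0 : levi φ (γ y) (deriv γ y) = 0) :
    DifferentiableAt ℂ (fun y => G φ (γ y)) y := by
  have hd : HasFDerivAt (fun y => G φ (γ y)) ((fderiv ℝ (G φ) (γ y)).comp
      ((((1 : ℂ →L[ℂ] ℂ).smulRight (deriv γ y)).restrictScalars ℝ))) y :=
    (hN.G_diff hx).hasFDerivAt.comp y (hasFDerivAt_hol hγ)
  rw [differentiableAt_complex_iff_differentiableAt_real]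
  refine ⟨hd.differentiableAt, ?_⟩
  rw [hd.fderiv]
  simp only [ContinuousLinearMap.comp_apply, ContinuousLinearMap.coe_restrictScalars',
    ContinuousLinearMap.smulRight_apply, one_apply_eq_self, one_smul, smul_eq_mul]
  set a := fderiv ℝ (G φ) (γ y) (deriv γ y) with ha
  set b := fderiv ℝ (G φ) (γ y) (Complex.I • deriv γ y) with hb
  have h1 : ∀ k : ℂ, ((a + Complex.I * b) * k).re = 0 := by
    intro k
    have h2 := lev2_eq_zero (hN.smooth _ hx) (hN.nonneg _ hx) h0 (0, k)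
    rw [hN.lev2_eq hx] at h2
    linarith
  have h2 : a + Complex.I * b = 0 := by
    have h3 := h1 (conj (a + Complex.I * b))
    rw [Complex.mul_conj, Complex.ofReal_re] at h3
    exact Complex.normSq_eq_zero.1 h3
  have h3 : Complex.I * (a + Complex.I * b) = 0 := by rw [h2, mul_zero]
  have h4 : Complex.I * (a + Complex.I * b) = Complex.I * a - b := by
    rw [mul_add, ← mul_assoc, Complex.I_mul_I]
    ring
  rw [h4] at h3
  exact (sub_eq_zero.1 h3).symm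

/-- The graphs of the leaves are tangent to the null directions. -/
theorem IsLeaf.null (hN : Normal φ δ) (hδ : δ < 1) {f : ℂ → ℂ} (hf : IsLeaf φ f) {z : ℂ}
    (hz : z ∈ U0) : levi φ (z, f z) (1, deriv f z) = 0 := by
  have hx : ‖((z, f z) : ℂ × ℂ)‖ < 4 := by
    have := mem_ball_zero_iff.1 hz
    exact norm_pair_lt (by linarith) (hf.bound z hz)
  have hfd : DifferentiableAt ℂ f z := hf.diff.differentiableAt (Metric.isOpen_ball.mem_nhds hz)
  have hγ : HasDerivAt (fun z : ℂ => ((z, f z) : ℂ × ℂ)) (1, deriv f z) z :=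
    (hasDerivAt_id z).prodMk hfd.hasDerivAt
  have hd : HasFDerivAt (fun y => G φ (y, f y)) ((fderiv ℝ (G φ) (z, f z)).comp
      ((((1 : ℂ →L[ℂ] ℂ).smulRight ((1 : ℂ), deriv f z)).restrictScalars ℝ))) z :=
    HasFDerivAt.comp (f := fun z : ℂ => ((z, f z) : ℂ × ℂ)) z (hN.G_diff hx).hasFDerivAt
      (hγ.hasFDerivAt.restrictScalars ℝ)
  have h1 := (differentiableAt_complex_iff_differentiableAt_real.1
    (hf.diffG.differentiableAt (Metric.isOpen_ball.mem_nhds hz))).2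
  rw [hd.fderiv] at h1
  simp only [ContinuousLinearMap.comp_apply, ContinuousLinearMap.coe_restrictScalars',
    ContinuousLinearMap.smulRight_apply, one_apply_eq_self, one_smul, smul_eq_mul] at h1
  have h2 : ∀ k : ℂ, lev2 φ (z, f z) (1, deriv f z) (0, k) = 0 := by
    intro k
    rw [hN.lev2_eq hx, h1, ← mul_assoc, Complex.I_mul_I]
    simp
  obtain ⟨a, ha⟩ := hN.exists_null hδ hx
  have h3 : levi φ (z, f z) (0, deriv f z - a) = 0 := by
    have e : ((0 : ℂ), deriv f z - a) = (1, deriv f z) + (-1 : ℝ) • ((1 : ℂ), a) := by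
      ext
      · simp
      · simp [sub_eq_add_neg]
    have e2 : lev2 φ (z, f z) (0, deriv f z - a) (0, deriv f z - a) =
        lev2 φ (z, f z) ((1, deriv f z) + (-1 : ℝ) • ((1 : ℂ), a)) (0, deriv f z - a) := by
      rw [← e]
    rw [← lev2_self, e2, lev2_add_left, lev2_smul_left, h2,
      lev2_eq_zero (hN.smooth _ hx) (hN.nonneg _ hx) ha]
    ring
  have h4 := hN.levi_vert hx (deriv f z - a)
  rw [h3] at h4
  have h5 : ‖deriv f z - a‖ ^ 2 ≤ 0 := by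
    have : 0 ≤ ‖deriv f z - a‖ ^ 2 := by positivity
    nlinarith
  have h6 : deriv f z - a = 0 := by
    have : ‖deriv f z - a‖ = 0 := by
      have h7 := norm_nonneg (deriv f z - a)
      nlinarith
    exact norm_eq_zero.1 this
  rw [sub_eq_zero.1 h6]
  exact ha

end

/-! ### The chart -/

section
variable {φ : ℂ × ℂ → ℝ}

open scoped Classical in
/-- The leaf through a point. -/
noncomputable def lf (hN : Normal φ δ₀) (q : ℂ × ℂ) : ℂ → ℂ :=
  if h : ‖q.1‖ < 1 / 4 ∧ ‖q.2‖ < 1 then Classical.choose (hN.exists_leaf h.1 h.2) else 0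

theorem lf_spec (hN : Normal φ δ₀) {q : ℂ × ℂ} (h1 : ‖q.1‖ < 1 / 4) (h2 : ‖q.2‖ < 1) :
    IsLeaf φ (lf hN q) ∧ lf hN q q.1 = q.2 ∧ ∀ z ∈ U0, ‖lf hN q z - q.2‖ ≤ 1 / 2 := by
  unfold lf
  rw [dif_pos ⟨h1, h2⟩]
  exact Classical.choose_spec (hN.exists_leaf h1 h2)

theorem mem_U0 {z : ℂ} (hz : ‖z‖ < 1 / 4) : z ∈ U0 := by
  rw [mem_ball_zero_iff]; linarith

theorem zero_mem_U0 : (0 : ℂ) ∈ U0 := mem_U0 (by simp)

/-- The transversal coordinate. -/
noncomputable def tc (hN : Normal φ δ₀) (q : ℂ × ℂ) : ℂ := lf hN q 0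

theorem tc_continuousAt (hN : Normal φ δ₀) {q : ℂ × ℂ} (h1 : ‖q.1‖ < 1 / 4) (h2 : ‖q.2‖ < 1) :
    ContinuousAt (tc hN) q := by
  obtain ⟨hl, hv, _⟩ := lf_spec hN h1 h2
  have hc : ContinuousAt (lf hN q) q.1 :=
    (hl.diff.differentiableAt (Metric.isOpen_ball.mem_nhds (mem_U0 h1))).continuousAt
  have hc' : Tendsto (fun q' : ℂ × ℂ => 2 * ‖q'.2 - lf hN q q'.1‖) (𝓝 q) (𝓝 0) := by
    have h3 : Tendsto (fun q' : ℂ × ℂ => lf hN q q'.1) (𝓝 q) (𝓝 (lf hN q q.1)) :=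
      ContinuousAt.comp (f := fun q' : ℂ × ℂ => q'.1) hc continuous_fst.continuousAt
    have h4 : Tendsto (fun q' : ℂ × ℂ => 2 * ‖q'.2 - lf hN q q'.1‖) (𝓝 q)
        (𝓝 (2 * ‖q.2 - lf hN q q.1‖)) :=
      ((continuous_snd.tendsto q).sub h3).norm.const_mul 2
    simpa [hv] using h4
  rw [ContinuousAt, tendsto_iff_norm_sub_tendsto_zero]
  have hev : ∀ᶠ q' : ℂ × ℂ in 𝓝 q, ‖q'.1‖ < 1 / 4 ∧ ‖q'.2‖ < 1 :=
    (continuous_fst.norm.tendsto q |>.eventually (gt_mem_nhds h1)).and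
      (continuous_snd.norm.tendsto q |>.eventually (gt_mem_nhds h2))
  refine squeeze_zero' (Eventually.of_forall fun _ => norm_nonneg _) ?_ hc'
  filter_upwards [hev] with q' hq'
  obtain ⟨hl', hv', _⟩ := lf_spec hN hq'.1 hq'.2
  have h3 := hl'.compare hN hl (y0 := q'.1) (y := 0) hq'.1 (by
    rw [zero_sub, norm_neg]; exact hq'.1.le)
  rw [hv'] at h3
  exact h3

/-- The leaf through `(0, t)` as a function of two variables. -/
theorem lf_continuousAt (hN : Normal φ δ₀) {x : ℂ × ℂ} (h1 : ‖x.1‖ < 1 / 4) (h2 : ‖x.2‖ < 1) :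
    ContinuousAt (fun x : ℂ × ℂ => lf hN (0, x.2) x.1) x := by
  have h0 : ‖((0 : ℂ), x.2).1‖ < 1 / 4 := by simp
  obtain ⟨hl, hv, _⟩ := lf_spec hN h0 (q := (0, x.2)) h2
  have hc : ContinuousAt (lf hN (0, x.2)) x.1 :=
    (hl.diff.differentiableAt (Metric.isOpen_ball.mem_nhds (mem_U0 h1))).continuousAt
  have h3 : Tendsto (fun q' : ℂ × ℂ => lf hN (0, x.2) q'.1) (𝓝 x) (𝓝 (lf hN (0, x.2) x.1)) :=
    ContinuousAt.comp (f := fun q' : ℂ × ℂ => q'.1) hc continuous_fst.continuousAt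
  have hc' : Tendsto (fun q' : ℂ × ℂ => 2 * ‖q'.2 - x.2‖ +
      ‖lf hN (0, x.2) q'.1 - lf hN (0, x.2) x.1‖) (𝓝 x) (𝓝 0) := by
    have h4 : Tendsto (fun q' : ℂ × ℂ => 2 * ‖q'.2 - x.2‖ +
        ‖lf hN (0, x.2) q'.1 - lf hN (0, x.2) x.1‖) (𝓝 x)
        (𝓝 (2 * ‖x.2 - x.2‖ + ‖lf hN (0, x.2) x.1 - lf hN (0, x.2) x.1‖)) :=
      (((continuous_snd.tendsto x).sub_const _).norm.const_mul 2).add (h3.sub_const _).norm
    simpa using h4
  rw [ContinuousAt, tendsto_iff_norm_sub_tendsto_zero]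
  have hev : ∀ᶠ q' : ℂ × ℂ in 𝓝 x, ‖q'.1‖ < 1 / 4 ∧ ‖q'.2‖ < 1 :=
    (continuous_fst.norm.tendsto x |>.eventually (gt_mem_nhds h1)).and
      (continuous_snd.norm.tendsto x |>.eventually (gt_mem_nhds h2))
  refine squeeze_zero' (Eventually.of_forall fun _ => norm_nonneg _) ?_ hc'
  filter_upwards [hev] with q' hq'
  obtain ⟨hl', hv', _⟩ := lf_spec hN (q := (0, q'.2)) (by simp) hq'.2
  have h4 := hl'.compare hN hl (y0 := 0) (y := q'.1) (by simp) (by
    rw [sub_zero]; exact hq'.1.le)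
  rw [hv', hv] at h4
  have h5 := norm_add_le (lf hN (0, q'.2) q'.1 - lf hN (0, x.2) q'.1)
    (lf hN (0, x.2) q'.1 - lf hN (0, x.2) x.1)
  rw [sub_add_sub_cancel] at h5
  exact h5.trans (by linarith)

/-- The image of the chart. -/
def tgt (hN : Normal φ δ₀) : Set (ℂ × ℂ) :=
  {q | (‖q.1‖ < 1 / 4 ∧ ‖q.2‖ < 1) ∧ ‖tc hN q‖ < 1 / 2}

theorem isOpen_tgt (hN : Normal φ δ₀) : IsOpen (tgt hN) := by
  rw [isOpen_iff_mem_nhds]
  rintro q ⟨⟨h1, h2⟩, h3⟩
  have hev : ∀ᶠ q' : ℂ × ℂ in 𝓝 q, ‖q'.1‖ < 1 / 4 ∧ ‖q'.2‖ < 1 :=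
    (continuous_fst.norm.tendsto q |>.eventually (gt_mem_nhds h1)).and
      (continuous_snd.norm.tendsto q |>.eventually (gt_mem_nhds h2))
  have hev2 : ∀ᶠ q' : ℂ × ℂ in 𝓝 q, ‖tc hN q'‖ < 1 / 2 :=
    (tc_continuousAt hN h1 h2).norm.tendsto.eventually (gt_mem_nhds h3)
  exact hev.and hev2

theorem lf_mem_tgt (hN : Normal φ δ₀) {z t : ℂ} (hz : ‖z‖ < 1 / 4) (ht : ‖t‖ < 1 / 2) :
    (z, lf hN (0, t) z) ∈ tgt hN ∧ tc hN (z, lf hN (0, t) z) = t := by
  obtain ⟨hl, hv, hb⟩ := lf_spec hN (q := (0, t)) (by simp) (by show ‖t‖ < 1; linarith)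
  simp only at hv hb
  have h1 : ‖lf hN (0, t) z‖ < 1 := by
    have h2 := norm_add_le (lf hN (0, t) z - t) t
    rw [sub_add_cancel] at h2
    have h3 := hb z (mem_U0 hz)
    linarith
  obtain ⟨hl', hv', _⟩ := lf_spec hN (q := (z, lf hN (0, t) z)) hz h1
  have h2 := hl'.unique hN hl (mem_U0 hz) hv' zero_mem_U0
  have h3 : tc hN (z, lf hN (0, t) z) = t := by
    unfold tc
    rw [h2, hv]
  exact ⟨⟨⟨hz, h1⟩, by rw [h3]; exact ht⟩, h3⟩

theorem lf_tc (hN : Normal φ δ₀) {q : ℂ × ℂ} (hq : q ∈ tgt hN) :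
    Set.EqOn (lf hN (0, tc hN q)) (lf hN q) U0 ∧ lf hN (0, tc hN q) q.1 = q.2 := by
  obtain ⟨⟨h1, h2⟩, h3⟩ := hq
  obtain ⟨hl, hv, _⟩ := lf_spec hN h1 h2
  obtain ⟨hl', hv', _⟩ := lf_spec hN (q := (0, tc hN q)) (by simp)
    (by show ‖tc hN q‖ < 1; linarith)
  have h4 := hl'.unique hN hl zero_mem_U0 (by rw [hv']; rfl)
  exact ⟨h4, by rw [h4 (mem_U0 h1), hv]⟩

/-- The chart of a function in normal form. -/
noncomputable def chart (hN : Normal φ δ₀) : OpenPartialHomeomorph (ℂ × ℂ) (ℂ × ℂ) where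
  toFun x := (x.1 / 4, lf hN (0, x.2 / 2) (x.1 / 4))
  invFun q := (4 * q.1, 2 * tc hN q)
  source := Metric.ball 0 1 ×ˢ Metric.ball 0 1
  target := tgt hN
  map_source' x hx := by
    have h1 := mem_ball_zero_iff.1 hx.1
    have h2 := mem_ball_zero_iff.1 hx.2
    exact (lf_mem_tgt hN (by rw [norm_div]; norm_num; linarith)
      (by rw [norm_div]; norm_num; linarith)).1
  map_target' q hq := by
    obtain ⟨⟨h1, h2⟩, h3⟩ := hq
    refine ⟨mem_ball_zero_iff.2 ?_, mem_ball_zero_iff.2 ?_⟩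
    · rw [norm_mul]; norm_num; linarith
    · rw [norm_mul]; norm_num; linarith
  left_inv' x hx := by
    have h1 := mem_ball_zero_iff.1 hx.1
    have h2 := mem_ball_zero_iff.1 hx.2
    have h3 := (lf_mem_tgt hN (z := x.1 / 4) (t := x.2 / 2) (by rw [norm_div]; norm_num; linarith)
      (by rw [norm_div]; norm_num; linarith)).2
    ext
    · show 4 * (x.1 / 4) = x.1
      ring
    · show 2 * tc hN (x.1 / 4, lf hN (0, x.2 / 2) (x.1 / 4)) = x.2
      rw [h3]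
      ring
  right_inv' q hq := by
    have h3 := (lf_tc hN hq).2
    ext
    · show 4 * q.1 / 4 = q.1
      ring
    · show lf hN (0, 2 * tc hN q / 2) (4 * q.1 / 4) = q.2
      rw [show 2 * tc hN q / 2 = tc hN q by ring, show 4 * q.1 / 4 = q.1 by ring]
      exact h3
  open_source := Metric.isOpen_ball.prod Metric.isOpen_ball
  open_target := isOpen_tgt hN
  continuousOn_toFun := by
    intro x hx
    have h1 := mem_ball_zero_iff.1 hx.1
    have h2 := mem_ball_zero_iff.1 hx.2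
    refine ContinuousAt.continuousWithinAt ?_
    have h3 := lf_continuousAt hN (x := (x.1 / 4, x.2 / 2))
      (by show ‖x.1 / 4‖ < 1 / 4; rw [norm_div]; norm_num; linarith)
      (by show ‖x.2 / 2‖ < 1; rw [norm_div]; norm_num; linarith)
    have h4 : ContinuousAt (fun x : ℂ × ℂ => ((x.1 / 4, x.2 / 2) : ℂ × ℂ)) x := by fun_prop
    have h5 : ContinuousAt (fun x : ℂ × ℂ => lf hN (0, x.2 / 2) (x.1 / 4)) x :=
      ContinuousAt.comp (f := fun x : ℂ × ℂ => ((x.1 / 4, x.2 / 2) : ℂ × ℂ)) h3 h4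
    exact (continuous_fst.continuousAt.div_const 4).prodMk h5
  continuousOn_invFun := by
    rintro q ⟨⟨h1, h2⟩, h3⟩
    refine ContinuousAt.continuousWithinAt ?_
    exact (continuous_fst.continuousAt.const_mul 4).prodMk
      ((tc_continuousAt hN h1 h2).const_mul 2)

end

end Pool.Agent.H90.Fol
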