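import Mathlib

set_option autoImplicit false

open Metric Filter Topology

namespace Pool.Agent.H90.Fol

/-- Plurisubharmonic functions on an open set `Ω` of `ℂ²`, with values in `[-∞, ∞)`: upper
semicontinuous functions whose restriction to every closed disc in a complex line contained in `Ω`
lies, at the centre, below every harmonic function that dominates it on the boundary circle. -/
def IsPSH (Ω : Set (ℂ × ℂ)) (u : ℂ × ℂ → EReal) : Prop :=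
  UpperSemicontinuousOn u Ω ∧ (∀ x ∈ Ω, u x < ⊤) ∧
    ∀ a b : ℂ × ℂ, (∀ ζ : ℂ, ‖ζ‖ ≤ 1 → a + ζ • b ∈ Ω) →
      ∀ h : ℂ → ℝ, ContinuousOn h (closedBall 0 1) →
        InnerProductSpace.HarmonicOnNhd h (ball 0 1) →
        (∀ ζ : ℂ, ‖ζ‖ = 1 → u (a + ζ • b) ≤ (h ζ : EReal)) → u a ≤ (h 0 : EReal)

/-- The real function `φ` is a maximal plurisubharmonic function on `Ω`: it is plurisubharmonic, and
every plurisubharmonic `v` on `Ω` with `v ≤ φ` outside some compact subset of `Ω` satisfies `v ≤ φ`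
on `Ω`. -/
def IsMaximalPSH (Ω : Set (ℂ × ℂ)) (φ : ℂ × ℂ → ℝ) : Prop :=
  IsPSH Ω (fun x => (φ x : EReal)) ∧
    ∀ v : ℂ × ℂ → EReal, IsPSH Ω v →
      (∃ K ⊆ Ω, IsCompact K ∧ ∀ x ∈ Ω \ K, v x ≤ (φ x : EReal)) → ∀ x ∈ Ω, v x ≤ (φ x : EReal)

/-- The second real derivative of `φ` at `x` in the directions `v`, `w`. -/
noncomputable def secondDeriv (φ : ℂ × ℂ → ℝ) (x v w : ℂ × ℂ) : ℝ :=
  fderiv ℝ (fderiv ℝ φ) x v w

/-- The complex Hessian of `φ` at `x`, as a real-valued form: the value at `ξ` is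
`4 ∑ (∂²φ/∂z_i∂z̄_j)(x) ξ_i ξ̄_j`, that is, the Laplacian of `ζ ↦ φ (x + ζ ξ)` at `0`. -/
noncomputable def leviForm (φ : ℂ × ℂ → ℝ) (x ξ : ℂ × ℂ) : ℝ :=
  secondDeriv φ x ξ ξ + secondDeriv φ x (Complex.I • ξ) (Complex.I • ξ)

/-- The set of the points of `Ω` at which the complex Hessian of `φ` is nonzero. Its closure in `Ω`
is the support of `dd^c φ`. -/
def nonzeroSet (Ω : Set (ℂ × ℂ)) (φ : ℂ × ℂ → ℝ) : Set (ℂ × ℂ) :=
  {x ∈ Ω | ∃ ξ, leviForm φ x ξ ≠ 0}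

/-- A foliation of the open set `U` of `ℂ²` by holomorphic curves: an atlas of homeomorphisms from the
product of two unit discs onto open subsets of `U` that cover `U`. For every chart `Φ` and every `t`
the plaque `z ↦ Φ (z, t)` is a holomorphic disc with nowhere vanishing derivative, and plaques of two
charts that meet coincide near the common point. -/
structure HolFoliation (U : Set (ℂ × ℂ)) where
  /-- the charts of the foliation -/
  charts : Set (OpenPartialHomeomorph (ℂ × ℂ) (ℂ × ℂ))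
  source_eq : ∀ Φ ∈ charts, Φ.source = ball 0 1 ×ˢ ball 0 1
  target_subset : ∀ Φ ∈ charts, Φ.target ⊆ U
  cover : ∀ q ∈ U, ∃ Φ ∈ charts, q ∈ Φ.target
  holomorphic : ∀ Φ ∈ charts, ∀ z ∈ ball (0 : ℂ) 1, ∀ t ∈ ball (0 : ℂ) 1,
    DifferentiableAt ℂ (fun y => Φ (y, t)) z ∧ deriv (fun y => Φ (y, t)) z ≠ 0
  compatible : ∀ Φ ∈ charts, ∀ Ψ ∈ charts, ∀ z ∈ ball (0 : ℂ) 1, ∀ t ∈ ball (0 : ℂ) 1,
    ∀ z' ∈ ball (0 : ℂ) 1, ∀ t' ∈ ball (0 : ℂ) 1, Φ (z, t) = Ψ (z', t') →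
      ∀ᶠ y in 𝓝 z, ∃ y' ∈ ball (0 : ℂ) 1, Φ (y, t) = Ψ (y', t')

/-- The function `φ` is harmonic along all leaves of the foliation. -/
def HolFoliation.HarmonicAlong {U : Set (ℂ × ℂ)} (F : HolFoliation U) (φ : ℂ × ℂ → ℝ) : Prop :=
  ∀ Φ ∈ F.charts, ∀ t ∈ ball (0 : ℂ) 1,
    InnerProductSpace.HarmonicOnNhd (fun z => φ (Φ (z, t))) (ball 0 1)

/-- The leaves of the foliation contain all holomorphic discs on which `φ` is harmonic: if `γ` is
holomorphic near `y₀`, if `φ ∘ γ` is harmonic near `y₀` and if `γ y₀` lies on the plaque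
`z ↦ Φ (z, t)` of a chart, then `γ y` lies on this plaque for all `y` near `y₀`. -/
def HolFoliation.ContainsHarmonicDiscs {U : Set (ℂ × ℂ)} (F : HolFoliation U) (φ : ℂ × ℂ → ℝ) :
    Prop :=
  ∀ (γ : ℂ → ℂ × ℂ) (y₀ : ℂ), (∀ᶠ y in 𝓝 y₀, DifferentiableAt ℂ γ y) →
    InnerProductSpace.HarmonicAt (fun y => φ (γ y)) y₀ →
    ∀ Φ ∈ F.charts, ∀ z ∈ ball (0 : ℂ) 1, ∀ t ∈ ball (0 : ℂ) 1, γ y₀ = Φ (z, t) →
      ∀ᶠ y in 𝓝 y₀, ∃ z' ∈ ball (0 : ℂ) 1, γ y = Φ (z', t)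

end Pool.Agent.H90.Fol
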