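import Pool.Agent.H90.Fol.RH

set_option autoImplicit false

open MeasureTheory AddCircle Complex
open scoped ComplexConjugate

namespace Pool.Agent.H90.Fol

/-! ### Power series on the closed disc -/

/-- The function with the given Taylor coefficients. -/
noncomputable def pw (b : ℕ → ℂ) (z : ℂ) : ℂ := ∑' n, b n * z ^ n

theorem pw_diffCont {b : ℕ → ℂ} (hb : Summable fun n => ‖b n‖) :
    DiffContOnCl ℂ (pw b) (Metric.ball 0 1) := by
  constructor
  · refine differentiableOn_tsum_of_summable_norm hb (fun n => ?_) Metric.isOpen_ball ?_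
    · exact (differentiable_const _).mul (differentiable_id.pow n) |>.differentiableOn
    · intro n z hz
      rw [norm_mul, norm_pow]
      have : ‖z‖ ^ n ≤ 1 := pow_le_one₀ (norm_nonneg _) (by simpa using (mem_ball_zero_iff.1 hz).le)
      exact mul_le_of_le_one_right (norm_nonneg _) this
  · rw [closure_ball _ one_ne_zero]
    refine continuousOn_tsum (fun n => ?_) hb ?_
    · exact (continuous_const.mul (continuous_id.pow n)).continuousOn
    · intro n z hz
      rw [norm_mul, norm_pow]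
      have : ‖z‖ ^ n ≤ 1 := pow_le_one₀ (norm_nonneg _) (by simpa using hz)
      exact mul_le_of_le_one_right (norm_nonneg _) this

theorem pw_zero (b : ℕ → ℂ) : pw b 0 = b 0 := by
  unfold pw
  rw [tsum_eq_single 0]
  · simp
  · intro n hn
    simp [hn]

theorem pw_norm_le {b : ℕ → ℂ} (hb : Summable fun n => ‖b n‖) {z : ℂ} (hz : ‖z‖ ≤ 1) :
    ‖pw b z‖ ≤ ∑' n, ‖b n‖ := by
  have h1 : ∀ n, ‖b n * z ^ n‖ ≤ ‖b n‖ := by
    intro n
    rw [norm_mul, norm_pow]
    exact mul_le_of_le_one_right (norm_nonneg _) (pow_le_one₀ (norm_nonneg _) hz)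
  have h2 : Summable fun n => ‖b n * z ^ n‖ := Summable.of_nonneg_of_le (fun _ => norm_nonneg _) h1 hb
  exact (norm_tsum_le_tsum_norm h2).trans (h2.tsum_le_tsum h1 hb)

theorem fourier_nat (n : ℕ) (x : TT) : (fourier (n : ℤ) x : ℂ) = (fourier 1 x) ^ n := by
  simp only [fourier_apply, one_smul, natCast_zsmul]
  rw [toCircle_nsmul]
  rfl

/-- A series over the integers without negative frequencies is a power series. -/
theorem pw_fourier {a : ℤ → ℂ} (h0 : ∀ n < 0, a n = 0) {v : ℂ} {x : TT}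
    (h : HasSum (fun n => a n * fourier n x) v) : pw (fun n : ℕ => a n) (fourier 1 x) = v := by
  unfold pw
  have h1 : HasSum (fun n : ℕ => a n * (fourier 1 x) ^ n) v := by
    have h2 := (Function.Injective.hasSum_iff (f := fun n => a n * fourier n x) (a := v)
      (Nat.cast_injective (R := ℤ)) ?_).2 h
    · simpa only [Function.comp_def, fourier_nat] using h2
    · intro n hn
      have : n < 0 := by
        by_contra hcon
        apply hn
        exact ⟨n.toNat, by simpa using hcon⟩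
      simp [h0 n this]
  exact h1.tsum_eq

theorem exists_fourier {ζ : ℂ} (h : ‖ζ‖ = 1) : ∃ x : TT, (fourier 1 x : ℂ) = ζ := by
  refine ⟨((arg ζ / (2 * Real.pi) : ℝ) : TT), ?_⟩
  rw [fourier_coe_apply]
  have e : (2 * Real.pi * I * (1 : ℤ) * ((arg ζ / (2 * Real.pi) : ℝ) : ℂ) / (1 : ℝ) : ℂ) =
      arg ζ * I := by
    push_cast
    have : (Real.pi : ℂ) ≠ 0 := by exact_mod_cast Real.pi_ne_zero
    field_simp
  rw [e]
  have h2 := Complex.norm_mul_exp_arg_mul_I ζ
  rw [h] at h2
  simpa using h2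

/-- The complex conjugate of a continuous function. -/
noncomputable def cj (g : C(TT, ℂ)) : C(TT, ℂ) := ⟨fun x => conj (g x), by fun_prop⟩

theorem fc_cj (g : C(TT, ℂ)) (n : ℤ) : fc (cj g) n = conj (fc g (-n)) := by
  unfold fc fourierCoeff
  rw [← integral_conj]
  congr 1
  funext t
  show fourier (-n) t • conj (g t) = conj (fourier (- -n) t • g t)
  rw [smul_eq_mul, smul_eq_mul, map_mul, ← fourier_neg, neg_neg]

theorem fc_const (c : ℂ) (n : ℤ) : fc (ContinuousMap.const TT c) n = if n = 0 then c else 0 := by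
  have e : (ContinuousMap.const TT c) = c • (fourier 0 : C(TT, ℂ)) := by
    ext x
    simp
  rw [e, fc_smul, fc_fourier]
  split <;> simp

/-- **Existence of discs**. -/
theorem exists_disc : ∃ δ : ℝ, 0 < δ ∧ ∀ (p : ℂ → ℂ → ℂ) (c : ℂ), Lip p c δ →
    ∃ w s : ℂ → ℂ, DiffContOnCl ℂ w (Metric.ball 0 1) ∧ DiffContOnCl ℂ s (Metric.ball 0 1) ∧
      w 0 = c ∧ (∀ z, ‖z‖ ≤ 1 → ‖w z - c‖ ≤ 1 / 2) ∧ ∀ z, ‖z‖ = 1 → s z = conj (w z) + p z (w z) := by
  have hZ := ZZ_nonneg
  set ρ : ℝ := 1 / (1 + ZZ) with hρ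
  have hρ0 : 0 < ρ := by positivity
  have hρ1 : ρ * (1 + ZZ) / 2 ≤ 1 / 2 := by
    rw [hρ]
    have : 1 / (1 + ZZ) * (1 + ZZ) = 1 := by field_simp
    rw [this]
  have hρ2 : ρ ≤ 1 := by
    rw [hρ, div_le_one (by positivity)]
    linarith
  refine ⟨ρ / 20, by positivity, fun p c hp => ?_⟩
  have hδ2 : 2 * (ρ / 20) ^ 2 * (2 * Real.pi) ^ 2 * (1 + ρ ^ 2) ≤ ρ ^ 2 := by
    have hpi : Real.pi ^ 2 ≤ 10 := by
      have := Real.pi_lt_d2
      nlinarith [Real.pi_pos]
    have h1 : 1 + ρ ^ 2 ≤ 2 := by nlinarith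
    have h2 : 2 * (ρ / 20) ^ 2 * (2 * Real.pi) ^ 2 * (1 + ρ ^ 2) =
        ρ ^ 2 * (Real.pi ^ 2 * (1 + ρ ^ 2) / 50) := by ring
    rw [h2]
    have h3 : Real.pi ^ 2 * (1 + ρ ^ 2) / 50 ≤ 1 := by nlinarith [sq_nonneg Real.pi]
    exact mul_le_of_le_one_right (by positivity) h3
  obtain ⟨a, ha, hfix⟩ := exists_fixed hp (by positivity) (by linarith) hρ0 hρ1 hδ2
  obtain ⟨hs, hsup⟩ := XX_ser_le hρ0 hρ1 ha
  obtain ⟨_, hsum⟩ := summable_of_weight hρ0 (ha.1 0 le_rfl) ha.2
  set g := gg p c a with hg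
  -- the boundary values of the second function
  set S : C(TT, ℂ) := cj (ContinuousMap.const TT c + ser a) + g with hS
  have hfcS : ∀ n, fc S n = conj ((if -n = 0 then c else 0) + a (-n)) + fc g n := by
    intro n
    rw [hS, fc_add, fc_cj, fc_add, fc_const, fc_ser hs]
  have hneg : ∀ n < 0, fc S n = 0 := by
    intro n hn
    rw [hfcS, if_neg (by omega), zero_add]
    have h1 : a (-n) = Tseq p c a (-n) := by
      conv_lhs => rw [← hfix]
      rfl
    rw [h1]
    unfold Tseq
    rw [if_pos (by omega), neg_neg, map_neg, Complex.conj_conj]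
    ring
  have hpos : ∀ n > 0, fc S n = fc g n := by
    intro n hn
    rw [hfcS, if_neg (by omega), ha.1 (-n) (by omega)]
    simp
  have hsumS : Summable (fc S) := by
    have h1 : ∀ T : Finset ℤ, ∑ n ∈ T, (n : ℝ) ^ 2 * ‖(if n = 0 then 0 else fc g n)‖ ^ 2 ≤
        ρ ^ 2 := by
      intro T
      refine (Finset.sum_le_sum fun n _ => ?_).trans
        ((gg_coeff_bound hp (by positivity) hsup hs (by positivity) ha.2 T).trans hδ2)
      by_cases h : n = 0
      · subst h; simp
      · rw [if_neg h]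
    have h2 := (summable_of_weight hρ0 (by simp) h1).1
    have h3 : Summable fun n : ℤ => ‖fc S n‖ := by
      have h4 : ∀ n : ℤ, ‖fc S n‖ ≤ ‖(if n = 0 then 0 else fc g n)‖ +
          (if n = 0 then ‖fc S 0‖ else 0) := by
        intro n
        rcases lt_trichotomy n 0 with h | h | h
        · rw [hneg n h, norm_zero]; positivity
        · subst h; simp
        · rw [hpos n h, if_neg (by omega), if_neg (by omega), add_zero]
      refine Summable.of_nonneg_of_le (fun _ => norm_nonneg _) h4 (h2.add ?_)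
      exact (hasSum_ite_eq (0 : ℤ) ‖fc S 0‖).summable
    exact h3.of_norm
  have hsN : Summable fun n : ℕ => ‖a n‖ := hs.comp_injective Nat.cast_injective
  have hSN : Summable fun n : ℕ => ‖fc S n‖ := hsumS.norm.comp_injective Nat.cast_injective
  have hwd := pw_diffCont hsN
  have hsd := pw_diffCont hSN
  refine ⟨fun z => c + pw (fun n : ℕ => a n) z, pw fun n : ℕ => fc S n, ?_, hsd, ?_, ?_, ?_⟩
  · exact diffContOnCl_const.add hwd
  · simp only [pw_zero, Nat.cast_zero, ha.1 0 le_rfl, add_zero]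
  · intro z hz
    rw [add_sub_cancel_left]
    refine (pw_norm_le hsN hz).trans ?_
    have h1 : ∑' n : ℕ, ‖a n‖ ≤ ∑' n : ℤ, ‖a n‖ :=
      tsum_comp_le_tsum_of_inj hs (fun _ => norm_nonneg _) Nat.cast_injective
    exact h1.trans (hsum.trans hρ1)
  · intro z hz
    obtain ⟨x, rfl⟩ := exists_fourier hz
    have h1 := has_pointwise_sum_fourier_series_of_summable (f := S) hsumS x
    simp only [smul_eq_mul] at h1
    rw [pw_fourier (a := fc S) hneg h1]
    have h2 := ser_hasSum_apply hs x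
    have h3 : pw (fun n : ℕ => a n) (fourier 1 x) = ser a x :=
      pw_fourier (fun n hn => ha.1 n hn.le) h2
    show conj (c + ser a x) + g x =
      conj (c + pw (fun n : ℕ => a n) (fourier 1 x)) + p (fourier 1 x)
        (c + pw (fun n : ℕ => a n) (fourier 1 x))
    rw [h3, hg, gg_apply hp hsup]

end Pool.Agent.H90.Fol
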