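import Mathlib

set_option autoImplicit false

open MeasureTheory AddCircle Complex
open scoped ComplexConjugate

namespace Pool.Agent.H90.Fol

/-- The circle. -/
abbrev TT : Type := UnitAddCircle

/-- The mean value of a function on the circle. -/
noncomputable def mean (f : TT → ℝ) : ℝ := ∫ t : TT, f t ∂haarAddCircle

/-- Fourier coefficients of continuous functions. -/
noncomputable def fc (g : C(TT, ℂ)) (n : ℤ) : ℂ := fourierCoeff g n

theorem integrable_cont (f : C(TT, ℝ)) : Integrable f (haarAddCircle (T := 1)) :=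
  f.continuous.integrable_of_hasCompactSupport (HasCompactSupport.of_compactSpace _)

theorem mean_mono {f g : TT → ℝ} (hf : Continuous f) (hg : Continuous g) (h : ∀ x, f x ≤ g x) :
    mean f ≤ mean g :=
  integral_mono (integrable_cont ⟨f, hf⟩) (integrable_cont ⟨g, hg⟩) h

theorem mean_add {f g : TT → ℝ} (hf : Continuous f) (hg : Continuous g) :
    mean (fun x => f x + g x) = mean f + mean g :=
  integral_add (integrable_cont ⟨f, hf⟩) (integrable_cont ⟨g, hg⟩)

theorem mean_const_mul (c : ℝ) (f : TT → ℝ) : mean (fun x => c * f x) = c * mean f :=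
  integral_const_mul _ _

theorem mean_const (c : ℝ) : mean (fun _ => c) = c := by
  simp [mean]

/-- The coefficients as continuous linear functionals. -/
noncomputable def fcL (n : ℤ) : C(TT, ℂ) →L[ℂ] ℂ :=
  (innerSL ℂ (fourierLp (T := 1) 2 n)).comp
    (ContinuousMap.toLp (E := ℂ) 2 (haarAddCircle (T := 1)) ℂ)

theorem fcL_apply (n : ℤ) (g : C(TT, ℂ)) : fcL n g = fc g n := by
  unfold fcL fc
  rw [← fourierCoeff_toLp g n, ← fourierBasis_repr, HilbertBasis.repr_apply_apply, coe_fourierBasis]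
  rfl

theorem fc_sub (f g : C(TT, ℂ)) (n : ℤ) : fc (f - g) n = fc f n - fc g n := by
  rw [← fcL_apply, ← fcL_apply, ← fcL_apply, map_sub]

theorem fc_add (f g : C(TT, ℂ)) (n : ℤ) : fc (f + g) n = fc f n + fc g n := by
  rw [← fcL_apply, ← fcL_apply, ← fcL_apply, map_add]

theorem fc_smul (c : ℂ) (g : C(TT, ℂ)) (n : ℤ) : fc (c • g) n = c * fc g n := by
  rw [← fcL_apply, ← fcL_apply, map_smul, smul_eq_mul]

theorem fc_fourier (n m : ℤ) : fc (fourier n) m = if m = n then 1 else 0 := by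
  unfold fc
  rw [fourierCoeff_fourier, Pi.single_apply]

/-- Parseval. -/
theorem parseval (g : C(TT, ℂ)) : HasSum (fun n : ℤ => ‖fc g n‖ ^ 2) (mean fun x => ‖g x‖ ^ 2) := by
  have h := hasSum_sq_fourierCoeff (T := 1) (ContinuousMap.toLp (E := ℂ) 2 haarAddCircle ℂ g)
  simp_rw [fourierCoeff_toLp] at h
  have e : (∫ t : TT, ‖(ContinuousMap.toLp (E := ℂ) 2 haarAddCircle ℂ g) t‖ ^ 2
      ∂haarAddCircle) = mean fun x => ‖g x‖ ^ 2 := by
    refine integral_congr_ae ?_
    filter_upwards [ContinuousMap.coeFn_toLp (p := 2) (μ := haarAddCircle (T := 1)) (𝕜 := ℂ) g]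
      with t ht
    rw [ht]
  rw [e] at h
  exact h

theorem bessel (g : C(TT, ℂ)) (S : Finset ℤ) :
    ∑ n ∈ S, ‖fc g n‖ ^ 2 ≤ mean fun x => ‖g x‖ ^ 2 :=
  sum_le_hasSum S (fun n _ => by positivity) (parseval g)

/-- The translate of a continuous function. -/
noncomputable def trans (h : TT) (g : C(TT, ℂ)) : C(TT, ℂ) :=
  g.comp ⟨fun x => x + h, by fun_prop⟩

theorem trans_apply (h : TT) (g : C(TT, ℂ)) (x : TT) : trans h g x = g (x + h) := rfl

theorem fc_trans (h : TT) (g : C(TT, ℂ)) (n : ℤ) :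
    fc (trans h g) n = fourier n h * fc g n := by
  unfold fc fourierCoeff
  have e1 : ∀ t : TT, fourier (-n) t • (trans h g) t =
      (fun s : TT => fourier n h * (fourier (-n) s • g s)) (t + h) := by
    intro t
    show fourier (-n) t • g (t + h) = fourier n h * (fourier (-n) (t + h) • g (t + h))
    have e2 : (fourier (-n) (t + h) : ℂ) = fourier (-n) t * fourier (-n) h := by
      simp only [fourier_apply, smul_add, toCircle_add, Circle.coe_mul]
    have e3 : (fourier n h : ℂ) * fourier (-n) h = 1 := by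
      rw [← fourier_add, add_neg_cancel, fourier_zero]
    rw [e2, smul_eq_mul, smul_eq_mul]
    linear_combination (-(fourier (-n) t) * g (t + h)) * e3
  simp_rw [e1]
  rw [integral_add_right_eq_self (fun s : TT => fourier n h * (fourier (-n) s • g s)) h,
    integral_const_mul]

theorem norm_fourier_sub_one_le (n : ℤ) (h : ℝ) :
    ‖(fourier n (h : TT) : ℂ) - 1‖ ≤ 2 * Real.pi * |(n : ℝ)| * |h| := by
  rw [fourier_coe_apply]
  have e : (2 * Real.pi * I * n * h / (1 : ℝ) : ℂ) = ((2 * Real.pi * n * h : ℝ) : ℂ) * I := by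
    push_cast
    ring
  rw [e, mul_comm _ I]
  refine (Real.norm_exp_I_mul_ofReal_sub_one_le (x := 2 * Real.pi * n * h)).trans ?_
  rw [Real.norm_eq_abs, abs_mul, abs_mul, abs_of_pos Real.two_pi_pos]

theorem le_norm_fourier_sub_one (n : ℤ) (h : ℝ) (hn : 2 * Real.pi * |(n : ℝ)| * |h| ≤ Real.pi) :
    4 * |(n : ℝ)| * |h| ≤ ‖(fourier n (h : TT) : ℂ) - 1‖ := by
  rw [fourier_coe_apply]
  have e : (2 * Real.pi * I * n * h / (1 : ℝ) : ℂ) = I * ((2 * Real.pi * n * h : ℝ) : ℂ) := by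
    push_cast
    ring
  rw [e, Complex.norm_exp_I_mul_ofReal_sub_one]
  have hx : 0 ≤ Real.pi * |(n : ℝ)| * |h| := by positivity
  have h1 := Real.mul_le_sin hx (by linarith)
  have h2 : |Real.sin (2 * Real.pi * n * h / 2)| = Real.sin (Real.pi * |(n : ℝ)| * |h|) := by
    have e3 : |2 * Real.pi * n * h / 2| = Real.pi * |(n : ℝ)| * |h| := by
      have : 2 * Real.pi * n * h / 2 = Real.pi * n * h := by ring
      rw [this, abs_mul, abs_mul, abs_of_pos Real.pi_pos]
    rw [Real.abs_sin_eq_sin_abs_of_abs_le_pi (by rw [e3]; linarith [Real.pi_pos]), e3]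
  rw [norm_mul, Real.norm_eq_abs, Real.norm_eq_abs, abs_of_pos (by norm_num : (0 : ℝ) < 2), h2]
  have h3 : 2 / Real.pi * (Real.pi * |(n : ℝ)| * |h|) = 2 * |(n : ℝ)| * |h| := by
    field_simp
  rw [h3] at h1
  linarith

/-- Functions that are Lipschitz in the mean have square summable derivatives. -/
theorem coeff_bound (g : C(TT, ℂ)) (C : ℝ)
    (hC : ∀ h : ℝ, (mean fun x => ‖trans (h : TT) g x - g x‖ ^ 2) ≤ C ^ 2 * h ^ 2)
    (S : Finset ℤ) : ∑ n ∈ S, (n : ℝ) ^ 2 * ‖fc g n‖ ^ 2 ≤ C ^ 2 := by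
  obtain ⟨N, hN0, hN⟩ : ∃ N : ℝ, 0 < N ∧ ∀ n ∈ S, |(n : ℝ)| ≤ N := by
    refine ⟨∑ n ∈ S, |(n : ℝ)| + 1, by positivity, fun n hn => ?_⟩
    have := Finset.single_le_sum (f := fun n : ℤ => |(n : ℝ)|) (fun _ _ => abs_nonneg _) hn
    linarith
  set h : ℝ := 1 / (2 * N) with hh
  have hpos : 0 < h := by positivity
  have h1 : ∀ n ∈ S, 4 * |(n : ℝ)| * |h| ≤ ‖(fourier n (h : TT) : ℂ) - 1‖ := by
    intro n hn
    apply le_norm_fourier_sub_one
    rw [abs_of_pos hpos, hh]
    have := hN n hn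
    have h2 : |(n : ℝ)| * (1 / (2 * N)) ≤ 1 / 2 := by
      rw [mul_one_div, div_le_div_iff₀ (by positivity) (by norm_num)]
      linarith
    nlinarith [Real.pi_pos]
  have h2 := bessel (trans (h : TT) g - g) S
  have h3 : ∀ n ∈ S, (n : ℝ) ^ 2 * ‖fc g n‖ ^ 2 * (16 * h ^ 2) ≤ ‖fc (trans (h : TT) g - g) n‖ ^ 2 := by
    intro n hn
    rw [fc_sub, fc_trans]
    have e : (fourier n (h : TT) : ℂ) * fc g n - fc g n = (fourier n (h : TT) - 1) * fc g n := by ring
    rw [e, norm_mul, mul_pow]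
    have h4 := h1 n hn
    rw [abs_of_pos hpos] at h4
    have h5 : (4 * |(n : ℝ)| * h) ^ 2 ≤ ‖(fourier n (h : TT) : ℂ) - 1‖ ^ 2 :=
      pow_le_pow_left₀ (by positivity) h4 2
    have h6 : (4 * |(n : ℝ)| * h) ^ 2 = 16 * h ^ 2 * (n : ℝ) ^ 2 := by
      rw [mul_pow, mul_pow, sq_abs]
      ring
    rw [h6] at h5
    calc (n : ℝ) ^ 2 * ‖fc g n‖ ^ 2 * (16 * h ^ 2) = (16 * h ^ 2 * (n : ℝ) ^ 2) * ‖fc g n‖ ^ 2 := by
          ring
      _ ≤ _ := mul_le_mul_of_nonneg_right h5 (by positivity)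
  have h4 : (∑ n ∈ S, (n : ℝ) ^ 2 * ‖fc g n‖ ^ 2) * (16 * h ^ 2) ≤ C ^ 2 * h ^ 2 := by
    rw [Finset.sum_mul]
    refine (Finset.sum_le_sum h3).trans (h2.trans ?_)
    exact hC h
  have h5 : 0 ≤ ∑ n ∈ S, (n : ℝ) ^ 2 * ‖fc g n‖ ^ 2 := Finset.sum_nonneg fun n _ => by positivity
  have h6 : 0 < h ^ 2 := by positivity
  nlinarith

/-! ### Absolutely convergent series -/

/-- The continuous function with given summable coefficients. -/
noncomputable def ser (a : ℤ → ℂ) : C(TT, ℂ) := ∑' n, a n • fourier n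

theorem ser_summable {a : ℤ → ℂ} (ha : Summable fun n => ‖a n‖) :
    Summable fun n => a n • (fourier n : C(TT, ℂ)) := by
  refine Summable.of_norm ?_
  simpa [norm_smul, fourier_norm] using ha

theorem ser_hasSum {a : ℤ → ℂ} (ha : Summable fun n => ‖a n‖) :
    HasSum (fun n => a n • (fourier n : C(TT, ℂ))) (ser a) := (ser_summable ha).hasSum

theorem ser_hasSum_apply {a : ℤ → ℂ} (ha : Summable fun n => ‖a n‖) (x : TT) :
    HasSum (fun n => a n * fourier n x) (ser a x) := by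
  have h := (ContinuousMap.evalCLM ℂ x).hasSum (ser_hasSum ha)
  exact h

theorem fc_ser {a : ℤ → ℂ} (ha : Summable fun n => ‖a n‖) (m : ℤ) : fc (ser a) m = a m := by
  have h := (fcL m).hasSum (ser_hasSum ha)
  have h2 : (fun n => fcL m (a n • (fourier n : C(TT, ℂ)))) = fun n => if n = m then a m else 0 := by
    funext n
    rw [map_smul, fcL_apply, fc_fourier, smul_eq_mul]
    by_cases h : n = m
    · subst h; simp
    · simp [h, Ne.symm h]
  have h3 : HasSum (fun n => if n = m then a m else 0) (fcL m (ser a)) := by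
    rw [← h2]; exact h
  rw [← fcL_apply]
  exact (h3.unique (hasSum_ite_eq m (a m)))

theorem ser_norm_le {a : ℤ → ℂ} (ha : Summable fun n => ‖a n‖) (x : TT) :
    ‖ser a x‖ ≤ ∑' n, ‖a n‖ := by
  have h := ser_hasSum_apply ha x
  rw [← h.tsum_eq]
  have h2 : ∀ n : ℤ, ‖a n * fourier n x‖ = ‖a n‖ := by
    intro n
    rw [norm_mul, fourier_apply, Circle.norm_coe, mul_one]
  have h3 : Summable fun n => ‖a n * fourier n x‖ := by simpa only [h2] using ha
  refine (norm_tsum_le_tsum_norm h3).trans ?_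
  simp only [h2, le_refl]

theorem ser_sub {a b : ℤ → ℂ} (ha : Summable fun n => ‖a n‖) (hb : Summable fun n => ‖b n‖) :
    ser (fun n => a n - b n) = ser a - ser b := by
  have h := (ser_hasSum ha).sub (ser_hasSum hb)
  have h2 : Summable fun n => ‖a n - b n‖ :=
    Summable.of_nonneg_of_le (fun _ => norm_nonneg _) (fun n => norm_sub_le _ _) (ha.add hb)
  refine (ser_hasSum h2).unique ?_
  have e : (fun n => (a n - b n) • (fourier n : C(TT, ℂ))) =
      fun n => a n • (fourier n : C(TT, ℂ)) - b n • (fourier n : C(TT, ℂ)) := by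
    funext n
    ext x
    exact sub_mul _ _ _
  rw [e]
  exact h

theorem mean_ser {a : ℤ → ℂ} (ha : Summable fun n => ‖a n‖) :
    HasSum (fun n => ‖a n‖ ^ 2) (mean fun x => ‖ser a x‖ ^ 2) := by
  have h := parseval (ser a)
  simpa only [fc_ser ha] using h

end Pool.Agent.H90.Fol
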