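import Pool.Agent.H90.Fol.Interior

set_option autoImplicit false

open Filter Topology Real
open scoped ComplexConjugate

namespace Pool.Agent.H90.Fol

theorem norm_circleAverage_le {f : ℂ → ℂ} {c : ℂ} {R : ℝ} :
    ‖circleAverage f c R‖ ≤ circleAverage (fun z => ‖f z‖) c R := by
  rw [circleAverage_def, circleAverage_def, norm_smul, Real.norm_eq_abs,
    abs_of_pos (by positivity), smul_eq_mul]
  refine mul_le_mul_of_nonneg_left ?_ (by positivity)
  exact intervalIntegral.norm_integral_le_integral_norm (by positivity)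

/-- Comparison of a holomorphic function with a harmonic function that dominates it. -/
theorem compare {y0 : ℂ} {R r κ : ℝ} (hr : 0 < r) (hrR : r < R) (hκ : 0 < κ) {F H : ℂ → ℂ}
    (hF : DifferentiableOn ℂ F (Metric.ball y0 R)) (hH : DifferentiableOn ℂ H (Metric.ball y0 R))
    (hFH : ∀ y ∈ Metric.ball y0 R, κ * ‖F y‖ ^ 2 ≤ (H y).re) {y : ℂ} (hy : ‖y - y0‖ ≤ r / 2) :
    κ * ‖F y‖ ^ 2 ≤ 2 * (H y0).re := by
  have hsub : Metric.closedBall y0 |r| ⊆ Metric.ball y0 R := by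
    rw [abs_of_pos hr]
    exact Metric.closedBall_subset_ball hrR
  have hsph : Metric.sphere y0 |r| ⊆ Metric.ball y0 R := Metric.sphere_subset_closedBall.trans hsub
  have hyb : y ∈ Metric.ball y0 |r| := by
    rw [abs_of_pos hr, Metric.mem_ball, dist_eq_norm]
    linarith
  have hF2 : DifferentiableOn ℂ (fun z => F z ^ 2) (Metric.ball y0 R) := hF.pow 2
  have h1 := circleAverage_sub_sub_inv_smul_of_differentiable_on_off_countable
    (f := fun z => F z ^ 2) (c := y0) (R := r) (w := y) Set.countable_empty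
    (hF2.continuousOn.mono hsub) (fun z hz => (hF2 z (hsub (Metric.ball_subset_closedBall hz.1))).differentiableAt
      (Metric.isOpen_ball.mem_nhds (hsub (Metric.ball_subset_closedBall hz.1)))) hyb
  have h2 := circleAverage_of_differentiable_on_off_countable
    (f := H) (c := y0) (R := r) Set.countable_empty
    (hH.continuousOn.mono hsub) (fun z hz => (hH z (hsub (Metric.ball_subset_closedBall hz.1))).differentiableAt
      (Metric.isOpen_ball.mem_nhds (hsub (Metric.ball_subset_closedBall hz.1))))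
  have hHc : ContinuousOn H (Metric.sphere y0 |r|) := hH.continuousOn.mono hsph
  have hFc : ContinuousOn F (Metric.sphere y0 |r|) := hF.continuousOn.mono hsph
  have h3 : circleAverage (fun z => (H z).re) y0 r = (H y0).re := by
    have h4 := Complex.reCLM.circleAverage_comp_comm (f := H) (c := y0) (R := r)
      hHc.circleIntegrable'
    have e : (fun z => (H z).re) = (Complex.reCLM ∘ H) := rfl
    rw [e, h4, h2]
    rfl
  have hne : ∀ z ∈ Metric.sphere y0 |r|, z - y ≠ 0 := by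
    intro z hz h
    rw [sub_eq_zero] at h
    subst h
    rw [abs_of_pos hr, Metric.mem_sphere, dist_eq_norm] at hz
    linarith
  have hci1 : CircleIntegrable (fun z => ‖((z - y0) / (z - y)) • F z ^ 2‖) y0 r := by
    refine ContinuousOn.circleIntegrable' ?_
    have hq : ContinuousOn (fun z : ℂ => (z - y0) / (z - y)) (Metric.sphere y0 |r|) :=
      (continuousOn_id.sub continuousOn_const).div (continuousOn_id.sub continuousOn_const) hne
    exact (hq.smul (hFc.pow 2)).norm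
  have hci2 : CircleIntegrable (fun z => 2 / κ * (H z).re) y0 r := by
    refine ContinuousOn.circleIntegrable' ?_
    exact continuousOn_const.mul (Complex.continuous_re.comp_continuousOn hHc)
  have h4 : circleAverage (fun z => ‖((z - y0) / (z - y)) • F z ^ 2‖) y0 r ≤
      circleAverage (fun z => 2 / κ * (H z).re) y0 r := by
    refine circleAverage_mono hci1 hci2 fun z hz => ?_
    have hz' := hFH z (hsph hz)
    have hzn : ‖z - y0‖ = r := by
      rw [abs_of_pos hr, Metric.mem_sphere, dist_eq_norm] at hz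
      exact hz
    have h5 : r / 2 ≤ ‖z - y‖ := by
      have : ‖z - y0‖ ≤ ‖z - y‖ + ‖y - y0‖ := by
        have := norm_add_le (z - y) (y - y0)
        simpa using this
      linarith
    rw [norm_smul, norm_div, hzn, norm_pow]
    have h6 : r / ‖z - y‖ ≤ 2 := by
      rw [div_le_iff₀ (by linarith)]
      linarith
    calc r / ‖z - y‖ * ‖F z‖ ^ 2 ≤ 2 * ‖F z‖ ^ 2 := mul_le_mul_of_nonneg_right h6 (by positivity)
      _ = 2 / κ * (κ * ‖F z‖ ^ 2) := by field_simp
      _ ≤ 2 / κ * (H z).re := mul_le_mul_of_nonneg_left hz' (by positivity)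
  have h5 : circleAverage (fun z => 2 / κ * (H z).re) y0 r = 2 / κ * (H y0).re := by
    rw [← h3]
    have := circleAverage_fun_smul (𝕜 := ℝ) (a := 2 / κ) (f := fun z => (H z).re) (c := y0) (R := r)
    simpa using this
  have h6 : ‖F y ^ 2‖ ≤ 2 / κ * (H y0).re := by
    rw [← h1, ← h5]
    exact norm_circleAverage_le.trans h4
  rw [norm_pow] at h6
  calc κ * ‖F y‖ ^ 2 ≤ κ * (2 / κ * (H y0).re) := mul_le_mul_of_nonneg_left h6 hκ.le
    _ = 2 * (H y0).re := by field_simp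

section
variable {φ : ℂ × ℂ → ℝ} {δ : ℝ}

/-- Monotonicity of the vertical derivative. -/
theorem Normal.mono (hN : Normal φ δ) {z w w' : ℂ} (hz : ‖z‖ < 4) (hw : ‖w‖ < 4)
    (hw' : ‖w'‖ < 4) :
    (1 - δ) * ‖w - w'‖ ^ 2 ≤ ((G φ (z, w) - G φ (z, w')) * (w - w')).re := by
  have h1 := hN.pp_lip (norm_pair_lt hz hw) (norm_pair_lt hz hw')
  have e1 : ((z, w) : ℂ × ℂ) - (z, w') = (0, w - w') := by
    ext <;> simp
  have e2 : ‖((0 : ℂ), w - w')‖ = ‖w - w'‖ := by
    rw [Prod.norm_def, norm_zero]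
    exact max_eq_right (norm_nonneg _)
  rw [e1, e2] at h1
  have e3 : (G φ (z, w) - G φ (z, w')) * (w - w') = conj (w - w') * (w - w') +
      (pp φ (z, w) - pp φ (z, w')) * (w - w') := by
    rw [G_eq, G_eq, map_sub]
    ring
  rw [e3, Complex.add_re, Complex.conj_mul', ← Complex.ofReal_pow, Complex.ofReal_re]
  have h2 := (abs_le.1 (Complex.abs_re_le_norm ((pp φ (z, w) - pp φ (z, w')) * (w - w')))).1
  rw [norm_mul] at h2
  have h3 : ‖pp φ (z, w) - pp φ (z, w')‖ * ‖w - w'‖ ≤ δ * ‖w - w'‖ * ‖w - w'‖ :=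
    mul_le_mul_of_nonneg_right h1 (norm_nonneg _)
  nlinarith

theorem Normal.G_sub_le (hN : Normal φ δ) {z w w' : ℂ} (hz : ‖z‖ < 4) (hw : ‖w‖ < 4)
    (hw' : ‖w'‖ < 4) : ‖G φ (z, w) - G φ (z, w')‖ ≤ (1 + δ) * ‖w - w'‖ := by
  have h1 := hN.pp_lip (norm_pair_lt hz hw) (norm_pair_lt hz hw')
  have e1 : ((z, w) : ℂ × ℂ) - (z, w') = (0, w - w') := by
    ext <;> simp
  have e2 : ‖((0 : ℂ), w - w')‖ = ‖w - w'‖ := by
    rw [Prod.norm_def, norm_zero]
    exact max_eq_right (norm_nonneg _)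
  rw [e1, e2] at h1
  have e3 : G φ (z, w) - G φ (z, w') = conj (w - w') + (pp φ (z, w) - pp φ (z, w')) := by
    rw [G_eq, G_eq, map_sub]
    ring
  rw [e3]
  refine (norm_add_le _ _).trans ?_
  rw [RCLike.norm_conj]
  linarith

/-- Comparison of two discs with the same first component. -/
theorem Normal.compare (hN : Normal φ δ) (hδ0 : 0 ≤ δ) (hδ : δ ≤ 1 / 100) {y0 : ℂ} {R r : ℝ}
    (hr : 0 < r) (hrR : r < R) {u a b : ℂ → ℂ} (hu : ∀ y ∈ Metric.ball y0 R, ‖u y‖ < 4)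
    (ha : ∀ y ∈ Metric.ball y0 R, ‖a y‖ < 4) (hb : ∀ y ∈ Metric.ball y0 R, ‖b y‖ < 4)
    (had : DifferentiableOn ℂ a (Metric.ball y0 R)) (hbd : DifferentiableOn ℂ b (Metric.ball y0 R))
    (hGa : DifferentiableOn ℂ (fun y => G φ (u y, a y)) (Metric.ball y0 R))
    (hGb : DifferentiableOn ℂ (fun y => G φ (u y, b y)) (Metric.ball y0 R))
    {y : ℂ} (hy : ‖y - y0‖ ≤ r / 2) : ‖a y - b y‖ ≤ 2 * ‖a y0 - b y0‖ := by
  have hy0 : y0 ∈ Metric.ball y0 R := Metric.mem_ball_self (by linarith)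
  have h1 := Fol.compare (κ := 1 - δ) (F := fun y => a y - b y)
    (H := fun y => (G φ (u y, a y) - G φ (u y, b y)) * (a y - b y)) hr hrR (by linarith)
    (had.sub hbd) ((hGa.sub hGb).mul (had.sub hbd))
    (fun y hy => hN.mono (hu y hy) (ha y hy) (hb y hy)) hy
  have h2 := Complex.re_le_norm ((G φ (u y0, a y0) - G φ (u y0, b y0)) * (a y0 - b y0))
  rw [norm_mul] at h2
  have h3 := mul_le_mul_of_nonneg_right (hN.G_sub_le (hu y0 hy0) (ha y0 hy0) (hb y0 hy0))
    (norm_nonneg (a y0 - b y0))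
  have h4 : (1 - δ) * ‖a y - b y‖ ^ 2 ≤ 2 * (1 + δ) * ‖a y0 - b y0‖ ^ 2 := by
    nlinarith
  have h5 : ‖a y - b y‖ ^ 2 ≤ (2 * ‖a y0 - b y0‖) ^ 2 := by
    have h6 : 0 ≤ ‖a y - b y‖ ^ 2 := by positivity
    have h7 : 0 ≤ ‖a y0 - b y0‖ ^ 2 := by positivity
    nlinarith
  exact (abs_le_of_sq_le_sq' h5 (by positivity)).2

/-- The base domain. -/
abbrev U0 : Set ℂ := Metric.ball 0 (3 / 4)

/-- The functions whose graphs are the leaves. -/
structure IsLeaf (φ : ℂ × ℂ → ℝ) (f : ℂ → ℂ) : Prop where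
  diff : DifferentiableOn ℂ f U0
  diffG : DifferentiableOn ℂ (fun z => G φ (z, f z)) U0
  bound : ∀ z ∈ U0, ‖f z‖ < 4

/-- The constant that is good for the existence of discs. -/
noncomputable def δ₀ : ℝ := min (Classical.choose exists_disc) (1 / 100)

theorem δ₀_pos : 0 < δ₀ := lt_min (Classical.choose_spec exists_disc).1 (by norm_num)

theorem δ₀_le : δ₀ ≤ 1 / 100 := min_le_right _ _

theorem exists_disc₀ (p : ℂ → ℂ → ℂ) (c : ℂ) (hp : Lip p c δ₀) :
    ∃ w s : ℂ → ℂ, DiffContOnCl ℂ w (Metric.ball 0 1) ∧ DiffContOnCl ℂ s (Metric.ball 0 1) ∧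
      w 0 = c ∧ (∀ z, ‖z‖ ≤ 1 → ‖w z - c‖ ≤ 1 / 2) ∧
        ∀ z, ‖z‖ = 1 → s z = conj (w z) + p z (w z) := by
  refine (Classical.choose_spec exists_disc).2 p c ?_
  intro ζ ζ' w w' h1 h2 h3 h4
  refine (hp ζ ζ' w w' h1 h2 h3 h4).trans ?_
  exact mul_le_mul_of_nonneg_right (min_le_left _ _) (by positivity)

theorem Normal.exists_leaf (hN : Normal φ δ₀) {z1 c : ℂ} (hz1 : ‖z1‖ < 1 / 4) (hc : ‖c‖ < 1) :
    ∃ f : ℂ → ℂ, IsLeaf φ f ∧ f z1 = c ∧ ∀ z ∈ U0, ‖f z - c‖ ≤ 1 / 2 := by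
  have hδ := δ₀_le
  have hδ0 := δ₀_pos
  have hlip : Lip (fun ζ w => pp φ (z1 + ζ, w)) c δ₀ := by
    intro ζ ζ' w w' h1 h2 h3 h4
    have b1 : ∀ ζ : ℂ, ‖ζ‖ = 1 → ‖z1 + ζ‖ < 4 := fun ζ h => by
      have := norm_add_le z1 ζ
      linarith
    have b2 : ∀ w : ℂ, ‖w - c‖ ≤ 1 / 2 → ‖w‖ < 4 := fun w h => by
      have := norm_add_le (w - c) c
      rw [sub_add_cancel] at this
      linarith
    refine (hN.pp_lip (norm_pair_lt (b1 ζ h1) (b2 w h3))
      (norm_pair_lt (b1 ζ' h2) (b2 w' h4))).trans ?_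
    refine mul_le_mul_of_nonneg_left ?_ hδ0.le
    rw [Prod.norm_def]
    refine max_le ?_ ?_
    · show ‖z1 + ζ - (z1 + ζ')‖ ≤ _
      rw [add_sub_add_left_eq_sub]
      linarith [norm_nonneg (w - w')]
    · show ‖w - w'‖ ≤ _
      linarith [norm_nonneg (ζ - ζ')]
  obtain ⟨w, s, hw, hs, hw0, hwc, hb⟩ := exists_disc₀ _ c hlip
  have hwb : ∀ ζ, ‖ζ‖ ≤ 1 → ‖w ζ‖ ≤ 3 / 2 := by
    intro ζ h
    have h1 := norm_add_le (w ζ - c) c
    rw [sub_add_cancel] at h1
    have h2 := hwc ζ h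
    linarith
  have hint := hN.interior hδ0.le hδ (by linarith : ‖z1‖ ≤ 1) hw hs hwb (fun ζ h => by
    rw [hb ζ h, G_eq])
  have hsub : ∀ z ∈ U0, z - z1 ∈ Metric.ball (0 : ℂ) 1 := by
    intro z hz
    rw [mem_ball_zero_iff] at hz ⊢
    have := norm_sub_le z z1
    linarith
  have hsh : DifferentiableOn ℂ (fun z : ℂ => z - z1) U0 := by fun_prop
  refine ⟨fun z => w (z - z1), ⟨?_, ?_, ?_⟩, ?_, ?_⟩
  · exact hw.differentiableOn.comp hsh hsub
  · have h1 : DifferentiableOn ℂ (fun z => s (z - z1)) U0 := hs.differentiableOn.comp hsh hsub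
    refine h1.congr fun z hz => ?_
    have h2 := hint (z - z1) (mem_ball_zero_iff.1 (hsub z hz)).le
    rw [h2, add_sub_cancel]
  · intro z hz
    have := hwb (z - z1) (mem_ball_zero_iff.1 (hsub z hz)).le
    show ‖w (z - z1)‖ < 4
    linarith
  · simp [hw0]
  · intro z hz
    exact hwc (z - z1) (mem_ball_zero_iff.1 (hsub z hz)).le

theorem IsLeaf.compare {f g : ℂ → ℂ} (hN : Normal φ δ₀) (hf : IsLeaf φ f) (hg : IsLeaf φ g)
    {y0 y : ℂ} (hy0 : ‖y0‖ < 1 / 4) (hy : ‖y - y0‖ ≤ 1 / 4 ) : ‖f y - g y‖ ≤ 2 * ‖f y0 - g y0‖ := by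
  have hsub : Metric.ball y0 (3 / 4 - ‖y0‖) ⊆ U0 := by
    intro z hz
    rw [Metric.mem_ball, dist_eq_norm] at hz
    rw [mem_ball_zero_iff]
    have := norm_add_le (z - y0) y0
    rw [sub_add_cancel] at this
    linarith
  refine hN.compare δ₀_pos.le δ₀_le (R := 3 / 4 - ‖y0‖) (r := 1 / 2) (by norm_num) (by linarith)
    (u := fun z => z) (fun z hz => ?_) (fun z hz => hf.bound z (hsub hz))
    (fun z hz => hg.bound z (hsub hz)) (hf.diff.mono hsub) (hg.diff.mono hsub)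
    (hf.diffG.mono hsub) (hg.diffG.mono hsub) (by linarith)
  have := mem_ball_zero_iff.1 (hsub hz)
  linarith

theorem IsLeaf.unique {f g : ℂ → ℂ} (hN : Normal φ δ₀) (hf : IsLeaf φ f) (hg : IsLeaf φ g)
    {y : ℂ} (hy : y ∈ U0) (h : f y = g y) : Set.EqOn f g U0 := by
  have hpre : IsPreconnected U0 := (convex_ball _ _).isPreconnected
  refine AnalyticOnNhd.eqOn_of_preconnected_of_eventuallyEq
    (hf.diff.analyticOnNhd Metric.isOpen_ball) (hg.diff.analyticOnNhd Metric.isOpen_ball) hpre hy ?_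
  obtain ⟨R, hR, hsub⟩ := Metric.isOpen_iff.1 Metric.isOpen_ball y hy
  filter_upwards [Metric.ball_mem_nhds y (show 0 < R / 4 by positivity)] with z hz
  have h1 := hN.compare δ₀_pos.le δ₀_le (y0 := y) (R := R) (r := R / 2) (by positivity)
    (by linarith) (u := fun z => z) (fun z hz => by
      have := mem_ball_zero_iff.1 (hsub hz)
      linarith) (fun z hz => hf.bound z (hsub hz))
    (fun z hz => hg.bound z (hsub hz)) (hf.diff.mono hsub) (hg.diff.mono hsub)
    (hf.diffG.mono hsub) (hg.diffG.mono hsub) (y := z) (by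
      rw [Metric.mem_ball, dist_eq_norm] at hz
      linarith)
  rw [h, sub_self, norm_zero, mul_zero] at h1
  exact sub_eq_zero.1 (norm_le_zero_iff.1 h1)

end

end Pool.Agent.H90.Fol
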