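import Pool.Agent.H90.Fol.Reduce

set_option autoImplicit false

open Metric Filter Topology InnerProductSpace
open scoped ComplexConjugate

namespace Pool.Agent.H90.Fol

/-- The affine homeomorphism `x ↦ q + L x`. -/
noncomputable def theta (q : ℂ × ℂ) (L : (ℂ × ℂ) ≃L[ℂ] (ℂ × ℂ)) : (ℂ × ℂ) ≃ₜ (ℂ × ℂ) :=
  L.toHomeomorph.trans (Homeomorph.addLeft q)

theorem theta_apply (q : ℂ × ℂ) (L : (ℂ × ℂ) ≃L[ℂ] (ℂ × ℂ)) (x : ℂ × ℂ) :
    theta q L x = q + L x := rfl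

/-- The properties of the charts. -/
structure Good (Ω : Set (ℂ × ℂ)) (φ : ℂ × ℂ → ℝ) (Φ : OpenPartialHomeomorph (ℂ × ℂ) (ℂ × ℂ)) :
    Prop where
  source_eq : Φ.source = ball 0 1 ×ˢ ball 0 1
  target_subset : Φ.target ⊆ nonzeroSet Ω φ
  hol : ∀ z ∈ ball (0 : ℂ) 1, ∀ t ∈ ball (0 : ℂ) 1,
    DifferentiableAt ℂ (fun y => Φ (y, t)) z ∧ deriv (fun y => Φ (y, t)) z ≠ 0
  null : ∀ z ∈ ball (0 : ℂ) 1, ∀ t ∈ ball (0 : ℂ) 1,
    levi φ (Φ (z, t)) (deriv (fun y => Φ (y, t)) z) = 0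
  absorb : ∀ (γ : ℂ → ℂ × ℂ) (y0 : ℂ),
    (∀ᶠ y in 𝓝 y0, DifferentiableAt ℂ γ y ∧ levi φ (γ y) (deriv γ y) = 0) →
    ∀ z ∈ ball (0 : ℂ) 1, ∀ t ∈ ball (0 : ℂ) 1, γ y0 = Φ (z, t) →
      ∀ᶠ y in 𝓝 y0, ∃ z' ∈ ball (0 : ℂ) 1, γ y = Φ (z', t)

theorem exists_good {Ω : Set (ℂ × ℂ)} (hΩ : IsOpen Ω) {φ : ℂ × ℂ → ℝ}
    (hφ : ∀ x ∈ Ω, ContDiffAt ℝ 2 φ x) (hnn : ∀ x ∈ Ω, ∀ ξ, 0 ≤ levi φ x ξ)
    (hdeg : ∀ x ∈ Ω, ∃ ξ, ξ ≠ 0 ∧ levi φ x ξ = 0) {q : ℂ × ℂ} (hq : q ∈ nonzeroSet Ω φ) :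
    ∃ Φ : OpenPartialHomeomorph (ℂ × ℂ) (ℂ × ℂ), Good Ω φ Φ ∧ q ∈ Φ.target := by
  obtain ⟨L, κ, ψ, hκ, hN, hmem, hlev⟩ := exists_normal hΩ hφ hnn hdeg hq.1 hq.2 δ₀_pos
  have hδ1 : δ₀ < 1 := lt_of_le_of_lt δ₀_le (by norm_num)
  set Φ : OpenPartialHomeomorph (ℂ × ℂ) (ℂ × ℂ) := (chart hN).transHomeomorph (theta q L) with hΦ
  have hΦa : ∀ x : ℂ × ℂ, Φ x = q + L (x.1 / 4, lf hN (0, x.2 / 2) (x.1 / 4)) := fun x => rfl
  have hz4 : ∀ z ∈ ball (0 : ℂ) 1, ‖z / 4‖ < 1 / 4 := fun z hz => by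
    have := mem_ball_zero_iff.1 hz
    rw [norm_div]; norm_num; linarith
  have ht2 : ∀ t ∈ ball (0 : ℂ) 1, ‖t / 2‖ < 1 / 2 := fun z hz => by
    have := mem_ball_zero_iff.1 hz
    rw [norm_div]; norm_num; linarith
  have hsmall : ∀ x ∈ tgt hN, ‖x‖ < 4 := fun x hx => by
    obtain ⟨⟨h1, h2⟩, _⟩ := hx
    have : x = (x.1, x.2) := rfl
    rw [this]
    exact norm_pair_lt (by linarith) (by linarith)
  -- the leaves
  have hleaf : ∀ t ∈ ball (0 : ℂ) 1, IsLeaf ψ (lf hN (0, t / 2)) := fun t ht =>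
    (lf_spec hN (q := (0, t / 2)) (by simp) (by
      have := ht2 t ht
      show ‖t / 2‖ < 1
      linarith)).1
  have hpl : ∀ z ∈ ball (0 : ℂ) 1, ∀ t ∈ ball (0 : ℂ) 1,
      HasDerivAt (fun y => Φ (y, t)) (L ((4⁻¹ : ℂ) • (1, deriv (lf hN (0, t / 2)) (z / 4)))) z := by
    intro z hz t ht
    have h1 : HasDerivAt (lf hN (0, t / 2)) (deriv (lf hN (0, t / 2)) (z / 4)) (z / 4) :=
      ((hleaf t ht).diff.differentiableAt
        (Metric.isOpen_ball.mem_nhds (mem_U0 (hz4 z hz)))).hasDerivAt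
    have h2 : HasDerivAt (fun y : ℂ => y / 4) (4⁻¹ : ℂ) z := by
      simpa [div_eq_mul_inv] using (hasDerivAt_id z).div_const (4 : ℂ)
    have h3 : HasDerivAt (fun y : ℂ => lf hN (0, t / 2) (y / 4))
        (deriv (lf hN (0, t / 2)) (z / 4) * 4⁻¹) z := h1.comp z h2
    have h4 : HasDerivAt (fun y : ℂ => ((y / 4, lf hN (0, t / 2) (y / 4)) : ℂ × ℂ))
        ((4⁻¹ : ℂ) • (1, deriv (lf hN (0, t / 2)) (z / 4))) z := by
      have h5 := h2.prodMk h3
      have e : ((4⁻¹ : ℂ) • ((1 : ℂ), deriv (lf hN (0, t / 2)) (z / 4))) =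
          (4⁻¹, deriv (lf hN (0, t / 2)) (z / 4) * 4⁻¹) := by
        ext
        · simp
        · simp [mul_comm]
      rw [e]
      exact h5
    exact ((L : (ℂ × ℂ) →L[ℂ] (ℂ × ℂ)).hasFDerivAt.comp_hasDerivAt z h4).const_add q
  refine ⟨Φ, ⟨rfl, ?_, ?_, ?_, ?_⟩, ?_⟩
  · -- the target
    intro x hx
    have hx' : (theta q L).symm x ∈ tgt hN := hx
    set x1 := (theta q L).symm x with hx1
    have hxx : x = q + L x1 := by rw [← theta_apply, hx1, Homeomorph.apply_symm_apply]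
    refine ⟨by rw [hxx]; exact hmem x1 (hsmall x1 hx'), L (0, 1), ?_⟩
    rw [leviForm_eq, hxx]
    intro h0
    have h1 := hlev x1 (hsmall x1 hx') (0, 1)
    rw [h0, mul_zero] at h1
    have h2 := hN.levi_vert (hsmall x1 hx') 1
    rw [h1, norm_one] at h2
    linarith
  · intro z hz t ht
    refine ⟨(hpl z hz t ht).differentiableAt, ?_⟩
    rw [(hpl z hz t ht).deriv]
    intro h0
    have h1 := L.injective (h0.trans (map_zero L).symm)
    have h2 := congrArg Prod.fst h1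
    simp at h2
  · intro z hz t ht
    rw [(hpl z hz t ht).deriv]
    have hx : ‖((z / 4, lf hN (0, t / 2) (z / 4)) : ℂ × ℂ)‖ < 4 :=
      hsmall _ (lf_mem_tgt hN (hz4 z hz) (ht2 t ht)).1
    have h1 := hlev _ hx ((4⁻¹ : ℂ) • (1, deriv (lf hN (0, t / 2)) (z / 4)))
    rw [levi_smul (hN.smooth _ hx), (hleaf t ht).null hN hδ1 (mem_U0 (hz4 z hz)), mul_zero] at h1
    have h2 : levi φ (Φ (z, t)) (L ((4⁻¹ : ℂ) • (1, deriv (lf hN (0, t / 2)) (z / 4)))) = 0 := by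
      rcases mul_eq_zero.1 h1.symm with h | h
      · exact absurd h hκ.ne'
      · exact h
    exact h2
  · -- harmonic discs are absorbed
    intro γ y0 hγ z hz t ht h0
    set f := lf hN (0, t / 2) with hf
    set Li : (ℂ × ℂ) →L[ℂ] (ℂ × ℂ) := (L.symm : (ℂ × ℂ) →L[ℂ] (ℂ × ℂ)) with hLi
    set γ1 : ℂ → ℂ × ℂ := fun y => Li (γ y - q) with hγ1
    have hback : ∀ y, q + L (γ1 y) = γ y := by
      intro y
      have : L (γ1 y) = γ y - q := L.apply_symm_apply _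
      rw [this, add_sub_cancel]
    have hγ1d : ∀ y, DifferentiableAt ℂ γ y → HasDerivAt γ1 (Li (deriv γ y)) y := by
      intro y hy
      exact Li.hasFDerivAt.comp_hasDerivAt y (hy.hasDerivAt.sub_const q)
    have h1 : γ1 y0 = (z / 4, f (z / 4)) := by
      have h2 : L (γ1 y0) = L (z / 4, f (z / 4)) := by
        have h3 := hback y0
        rw [h0, hΦa] at h3
        exact add_left_cancel h3
      exact L.injective h2
    have hcont : ContinuousAt γ1 y0 := (hγ1d y0 hγ.self_of_nhds.1).continuousAt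
    have hfst : ContinuousAt (fun y => ‖(γ1 y).1‖) y0 := (continuous_fst.continuousAt.comp hcont).norm
    have hsnd : ContinuousAt (fun y => ‖(γ1 y).2‖) y0 := (continuous_snd.continuousAt.comp hcont).norm
    have hmem0 := (lf_mem_tgt hN (hz4 z hz) (ht2 t ht)).1
    have e1 : ∀ᶠ y in 𝓝 y0, ‖(γ1 y).1‖ < 1 / 4 := hfst.eventually (gt_mem_nhds (by
      show ‖(γ1 y0).1‖ < 1 / 4
      rw [h1]; exact hz4 z hz))
    have e2 : ∀ᶠ y in 𝓝 y0, ‖(γ1 y).2‖ < 1 := hsnd.eventually (gt_mem_nhds (by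
      show ‖(γ1 y0).2‖ < 1
      rw [h1]; exact hmem0.1.2))
    obtain ⟨R, hR, hball⟩ := Metric.eventually_nhds_iff_ball.1 (hγ.and (e1.and e2))
    have hx4 : ∀ y ∈ ball y0 R, ‖γ1 y‖ < 4 := by
      intro y hy
      obtain ⟨_, h3, h4⟩ := hball y hy
      have : γ1 y = ((γ1 y).1, (γ1 y).2) := rfl
      rw [this]
      exact norm_pair_lt (by linarith) (by linarith)
    have hu4 : ∀ y ∈ ball y0 R, ‖(γ1 y).1‖ < 4 := fun y hy => by
      have := (hball y hy).2.1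
      linarith
    have hU : ∀ y ∈ ball y0 R, (γ1 y).1 ∈ U0 := fun y hy => mem_U0 (hball y hy).2.1
    have hγ1D : DifferentiableOn ℂ γ1 (ball y0 R) := fun y hy =>
      (hγ1d y (hball y hy).1.1).differentiableAt.differentiableWithinAt
    have hu : DifferentiableOn ℂ (fun y => (γ1 y).1) (ball y0 R) := hγ1D.fst
    have hGa : DifferentiableOn ℂ (fun y => G ψ ((γ1 y).1, (γ1 y).2)) (ball y0 R) := by
      intro y hy
      have hd := hγ1d y (hball y hy).1.1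
      have h3 : levi ψ (γ1 y) (deriv γ1 y) = 0 := by
        rw [hlev _ (hx4 y hy), hd.deriv, hback]
        have : L (Li (deriv γ y)) = deriv γ y := L.apply_symm_apply _
        rw [this, (hball y hy).1.2, mul_zero]
      exact (hN.G_hol hd.differentiableAt (hx4 y hy) h3).differentiableWithinAt
    have hGb : DifferentiableOn ℂ (fun y => G ψ ((γ1 y).1, f (γ1 y).1)) (ball y0 R) :=
      (hleaf t ht).diffG.comp hu hU
    have hfd : DifferentiableOn ℂ (fun y => f (γ1 y).1) (ball y0 R) :=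
      (hleaf t ht).diff.comp hu hU
    filter_upwards [Metric.ball_mem_nhds y0 (show 0 < R / 4 by positivity)] with y hy
    have hyR : y ∈ ball y0 R := Metric.ball_subset_ball (by linarith) hy
    have h2 := hN.compare δ₀_pos.le δ₀_le (y0 := y0) (R := R) (r := R / 2) (by positivity)
      (by linarith) (u := fun y => (γ1 y).1) (a := fun y => (γ1 y).2) (b := fun y => f (γ1 y).1)
      hu4 (fun y hy => by
        have := (hball y hy).2.2
        linarith) (fun y hy => (hleaf t ht).bound _ (hU y hy)) hγ1D.snd hfd hGa hGb (y := y) (by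
      rw [Metric.mem_ball, dist_eq_norm] at hy
      linarith)
    have h3 : (γ1 y).2 = f (γ1 y).1 := by
      have h4 : (γ1 y0).2 - f (γ1 y0).1 = 0 := by rw [h1]; simp
      rw [h4, norm_zero, mul_zero] at h2
      exact sub_eq_zero.1 (norm_le_zero_iff.1 h2)
    refine ⟨4 * (γ1 y).1, mem_ball_zero_iff.2 ?_, ?_⟩
    · rw [norm_mul]
      norm_num
      have := (hball y hyR).2.1
      linarith
    · rw [hΦa, ← hback y]
      have e3 : 4 * (γ1 y).1 / 4 = (γ1 y).1 := by ring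
      show q + L (γ1 y) = q + L (4 * (γ1 y).1 / 4, f (4 * (γ1 y).1 / 4))
      rw [e3, ← h3]
  · show (theta q L).symm q ∈ tgt hN
    have h1 : (theta q L).symm q = (0, 0) := by
      apply (theta q L).injective
      rw [Homeomorph.apply_symm_apply, theta_apply]
      have : L ((0, 0) : ℂ × ℂ) = 0 := map_zero L
      rw [this, add_zero]
    rw [h1]
    have h2 := (lf_mem_tgt hN (z := 0) (t := 0) (by simp) (by simp)).1
    have h3 : lf hN (0, 0) 0 = 0 := (lf_spec hN (q := (0, 0)) (by simp) (by simp)).2.1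
    rw [h3] at h2
    exact h2

/-- The foliation. -/
theorem exists_foliation {Ω : Set (ℂ × ℂ)} (hΩ : IsOpen Ω) {φ : ℂ × ℂ → ℝ}
    (hφ : ContDiffOn ℝ 2 φ Ω) (h : IsMaximalPSH Ω φ) :
    ∃ F : HolFoliation (nonzeroSet Ω φ), F.HarmonicAlong φ ∧ F.ContainsHarmonicDiscs φ := by
  have hφ' : ∀ x ∈ Ω, ContDiffAt ℝ 2 φ x := fun x hx => hφ.contDiffAt (hΩ.mem_nhds hx)
  have hnn : ∀ x ∈ Ω, ∀ ξ, 0 ≤ levi φ x ξ := fun x hx ξ => levi_nonneg_of_isPSH hΩ hφ' h.1 hx ξ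
  have hdeg : ∀ x ∈ Ω, ∃ ξ, ξ ≠ 0 ∧ levi φ x ξ = 0 := fun x hx =>
    exists_null_of_isMaximalPSH hΩ hφ' h hx
  refine ⟨{ charts := {Φ | Good Ω φ Φ}
            source_eq := fun Φ hΦ => hΦ.source_eq
            target_subset := fun Φ hΦ => hΦ.target_subset
            cover := fun q hq => exists_good hΩ hφ' hnn hdeg hq
            holomorphic := fun Φ hΦ => hΦ.hol
            compatible := ?_ }, ?_, ?_⟩
  · intro Φ hΦ Ψ hΨ z hz t ht z' hz' t' ht' heq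
    have hγ : ∀ᶠ y in 𝓝 z, DifferentiableAt ℂ (fun y => Φ (y, t)) y ∧
        levi φ (Φ (y, t)) (deriv (fun y => Φ (y, t)) y) = 0 := by
      filter_upwards [isOpen_ball.mem_nhds hz] with y hy
      exact ⟨(hΦ.hol y hy t ht).1, hΦ.null y hy t ht⟩
    exact hΨ.absorb (fun y => Φ (y, t)) z hγ z' hz' t' ht' heq
  · intro Φ hΦ t ht z hz
    have hΦ' : Good Ω φ Φ := hΦ
    have hmem : ∀ y ∈ ball (0 : ℂ) 1, Φ (y, t) ∈ Ω := fun y hy =>
      (hΦ'.target_subset (Φ.map_source (by rw [hΦ'.source_eq]; exact ⟨hy, ht⟩))).1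
    have hev : ∀ y ∈ ball (0 : ℂ) 1, ∀ᶠ y' in 𝓝 y, DifferentiableAt ℂ (fun y => Φ (y, t)) y' := by
      intro y hy
      filter_upwards [isOpen_ball.mem_nhds hy] with y' hy'
      exact (hΦ'.hol y' hy' t ht).1
    have hc : ContDiffAt ℝ 2 (fun y => φ (Φ (y, t))) z :=
      ContDiffAt.comp (g := φ) z (hφ' _ (hmem z hz)) (contDiffAt_hol (hev z hz))
    refine (harmonicAt_iff_lap hc).2 ?_
    filter_upwards [isOpen_ball.mem_nhds hz] with y hy
    rw [lap_comp_hol (γ := fun y => Φ (y, t)) (hφ' _ (hmem y hy)) (hev y hy)]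
    exact hΦ'.null y hy t ht
  · intro γ y0 hγ hharm Φ hΦ z hz t ht h0
    have hΦ' : Good Ω φ Φ := hΦ
    have hmem : γ y0 ∈ Ω := by
      rw [h0]
      exact (hΦ'.target_subset (Φ.map_source (by rw [hΦ'.source_eq]; exact ⟨hz, ht⟩))).1
    have hin : ∀ᶠ y in 𝓝 y0, γ y ∈ Ω :=
      (hγ.self_of_nhds.continuousAt).eventually (hΩ.mem_nhds hmem)
    have hc : ContDiffAt ℝ 2 (fun y => φ (γ y)) y0 :=
      ContDiffAt.comp (g := φ) y0 (hφ' _ hmem) (contDiffAt_hol hγ)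
    refine hΦ'.absorb γ y0 ?_ z hz t ht h0
    filter_upwards [(harmonicAt_iff_lap hc).1 hharm, hin, hγ.eventually_nhds] with y h1 h2 h3
    refine ⟨h3.self_of_nhds, ?_⟩
    rw [← lap_comp_hol (hφ' _ h2) h3]
    exact h1

end Pool.Agent.H90.Fol
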