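import Pool.Agent.H90.Fol.Psh

set_option autoImplicit false

open Metric Filter Topology InnerProductSpace

namespace Pool.Agent.H90.Fol

theorem eventually_norm_sub_lt {E F : Type*} [NormedAddCommGroup F] [TopologicalSpace E]
    {g : E → F} {x : E} (h : ContinuousAt g x) {η : ℝ} (hη : 0 < η) :
    ∀ᶠ y in 𝓝 x, ‖g y - g x‖ < η := by
  have hc : ContinuousAt (fun y => ‖g y - g x‖) x := (h.sub continuousAt_const).norm
  refine hc.eventually (gt_mem_nhds ?_)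
  simpa using hη

theorem exists_norm_le {E F : Type*} [NormedAddCommGroup F] [TopologicalSpace E] {g : E → F}
    (h : Continuous g) (hs : HasCompactSupport g) (x : E) : ∃ C : ℝ, 0 ≤ C ∧ ∀ y, ‖g y‖ ≤ C := by
  obtain ⟨C, hC⟩ := h.bounded_above_of_compact_support hs
  exact ⟨C, (norm_nonneg _).trans (hC x), hC⟩

section
variable {V : Type*} [NormedAddCommGroup V] [NormedSpace ℝ V]

theorem bounded_D2 {χ : V → ℝ} (hχ : ContDiff ℝ 2 χ) (hs : HasCompactSupport χ) :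
    ∃ C : ℝ, 0 ≤ C ∧ ∀ y, ‖fderiv ℝ (fderiv ℝ χ) y‖ ≤ C := by
  have h1 : ContDiff ℝ 1 (fderiv ℝ χ) := hχ.fderiv_right (by norm_num)
  have h2 : Continuous (fderiv ℝ (fderiv ℝ χ)) := h1.continuous_fderiv (by norm_num)
  have h3 : HasCompactSupport (fderiv ℝ (fderiv ℝ χ)) := (hs.fderiv ℝ).fderiv ℝ
  exact exists_norm_le (F := V →L[ℝ] V →L[ℝ] ℝ) h2 h3 0

theorem D2_close {φ : V → ℝ} {x : V} (hf : ContDiffAt ℝ 2 φ x) {η : ℝ} (hη : 0 < η) :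
    ∀ᶠ y in 𝓝 x, ‖fderiv ℝ (fderiv ℝ φ) y - fderiv ℝ (fderiv ℝ φ) x‖ < η := by
  have h1 : ContDiffAt ℝ 1 (fderiv ℝ φ) x := hf.fderiv_right (by norm_num)
  have h2 : ContDiffAt ℝ 0 (fderiv ℝ (fderiv ℝ φ)) x := h1.fderiv_right (by norm_num)
  exact eventually_norm_sub_lt (F := V →L[ℝ] V →L[ℝ] ℝ) h2.continuousAt hη

end

theorem norm_I_smul (ξ : ℂ × ℂ) : ‖Complex.I • ξ‖ = ‖ξ‖ := by
  rw [norm_smul, Complex.norm_I, one_mul]

theorem D2_le {f : ℂ × ℂ → ℝ} {x : ℂ × ℂ} (v w : ℂ × ℂ) :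
    |D2 f x v w| ≤ ‖fderiv ℝ (fderiv ℝ f) x‖ * ‖v‖ * ‖w‖ := by
  unfold D2
  rw [← Real.norm_eq_abs]
  exact ContinuousLinearMap.le_opNorm₂ _ v w

theorem levi_sub_le {f : ℂ × ℂ → ℝ} {x y : ℂ × ℂ} (ξ : ℂ × ℂ) :
    |levi f x ξ - levi f y ξ| ≤
      2 * ‖fderiv ℝ (fderiv ℝ f) x - fderiv ℝ (fderiv ℝ f) y‖ * ‖ξ‖ ^ 2 := by
  set T := fderiv ℝ (fderiv ℝ f) x - fderiv ℝ (fderiv ℝ f) y with hT
  have e : levi f x ξ - levi f y ξ = T ξ ξ + T (Complex.I • ξ) (Complex.I • ξ) := by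
    unfold levi D2
    simp only [hT, ContinuousLinearMap.sub_apply]
    ring
  rw [e]
  have h1 : |T ξ ξ| ≤ ‖T‖ * ‖ξ‖ * ‖ξ‖ := by
    rw [← Real.norm_eq_abs]
    exact ContinuousLinearMap.le_opNorm₂ T ξ ξ
  have h2 : |T (Complex.I • ξ) (Complex.I • ξ)| ≤ ‖T‖ * ‖Complex.I • ξ‖ * ‖Complex.I • ξ‖ := by
    rw [← Real.norm_eq_abs]
    exact ContinuousLinearMap.le_opNorm₂ T _ _
  rw [norm_I_smul] at h2
  refine (abs_add_le _ _).trans ?_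
  nlinarith

theorem levi_le {f : ℂ × ℂ → ℝ} {x : ℂ × ℂ} (ξ : ℂ × ℂ) :
    |levi f x ξ| ≤ 2 * ‖fderiv ℝ (fderiv ℝ f) x‖ * ‖ξ‖ ^ 2 := by
  have h1 : |D2 f x ξ ξ| ≤ ‖fderiv ℝ (fderiv ℝ f) x‖ * ‖ξ‖ * ‖ξ‖ := D2_le ξ ξ
  have h2 := D2_le (f := f) (x := x) (Complex.I • ξ) (Complex.I • ξ)
  rw [norm_I_smul] at h2
  unfold levi
  refine (abs_add_le _ _).trans ?_
  nlinarith

theorem continuous_levi (f : ℂ × ℂ → ℝ) (x : ℂ × ℂ) : Continuous fun ξ => levi f x ξ := by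
  unfold levi D2
  have h1 : Continuous fun ξ : ℂ × ℂ => fderiv ℝ (fderiv ℝ f) x ξ ξ :=
    (fderiv ℝ (fderiv ℝ f) x).continuous.clm_apply continuous_id
  have h2 : Continuous fun ξ : ℂ × ℂ => Complex.I • ξ := continuous_const_smul _
  exact h1.add (h1.comp h2)

/-- Positive definiteness is uniform. -/
theorem exists_lower_bound {f : ℂ × ℂ → ℝ} {x : ℂ × ℂ} (hf : ContDiffAt ℝ 2 f x)
    (h : ∀ ξ, ξ ≠ 0 → 0 < levi f x ξ) : ∃ m > 0, ∀ ξ, m * ‖ξ‖ ^ 2 ≤ levi f x ξ := by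
  have hne : (sphere (0 : ℂ × ℂ) 1).Nonempty := NormedSpace.sphere_nonempty.2 zero_le_one
  obtain ⟨ξ0, hξ0, hmin⟩ := (isCompact_sphere (0 : ℂ × ℂ) 1).exists_isMinOn hne
    (continuous_levi f x).continuousOn
  have hn0 : ‖ξ0‖ = 1 := by simpa using hξ0
  have hpos : 0 < levi f x ξ0 := h ξ0 (by
    intro h0
    rw [h0, norm_zero] at hn0
    norm_num at hn0)
  refine ⟨levi f x ξ0, hpos, fun ξ => ?_⟩
  by_cases hξ : ξ = 0
  · subst hξ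
    unfold levi D2
    simp
  · have hn : 0 < ‖ξ‖ := norm_pos_iff.2 hξ
    have h1 : ((‖ξ‖⁻¹ : ℝ) : ℂ) • ξ ∈ sphere (0 : ℂ × ℂ) 1 := by
      rw [mem_sphere_zero_iff_norm, norm_smul, Complex.norm_real, norm_inv, norm_norm]
      exact inv_mul_cancel₀ hn.ne'
    have h2 : levi f x ξ0 ≤ levi f x (((‖ξ‖⁻¹ : ℝ) : ℂ) • ξ) := hmin h1
    rw [levi_smul hf, Complex.norm_real, norm_inv, norm_norm, inv_pow] at h2
    rw [inv_mul_eq_div, le_div_iff₀ (by positivity)] at h2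
    exact h2

theorem exists_bump (x : ℂ × ℂ) {r : ℝ} (hr : 0 < r) : ∃ χ : ℂ × ℂ → ℝ, ContDiff ℝ 2 χ ∧
    tsupport χ ⊆ closedBall x (r / 2) ∧ χ x = 1 ∧
      ∃ C : ℝ, 0 ≤ C ∧ ∀ y, ‖fderiv ℝ (fderiv ℝ χ) y‖ ≤ C := by
  let χ : ContDiffBump x := ⟨r / 4, r / 2, by positivity, by linarith⟩
  have hχ : ContDiff ℝ 2 (χ : ℂ × ℂ → ℝ) := χ.contDiff
  have hχsupp : HasCompactSupport (χ : ℂ × ℂ → ℝ) := χ.hasCompactSupport
  refine ⟨χ, hχ, χ.tsupport_eq.subset, ?_, ?_⟩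
  · exact χ.one_of_mem_closedBall (by
      rw [mem_closedBall, dist_self]
      exact χ.rIn_pos.le)
  · exact bounded_D2 hχ hχsupp

theorem levi_add_mul {f g : ℂ × ℂ → ℝ} {y : ℂ × ℂ} (hf : ContDiffAt ℝ 2 f y)
    (hg : ContDiffAt ℝ 2 g y) (ε : ℝ) (ξ : ℂ × ℂ) :
    levi (fun y => f y + ε * g y) y ξ = levi f y ξ + ε * levi g y ξ := by
  unfold levi
  rw [D2_add hf (contDiffAt_const.mul hg), D2_add hf (contDiffAt_const.mul hg), D2_const_mul hg,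
    D2_const_mul hg]
  ring

theorem levi_eventually {φ : ℂ × ℂ → ℝ} {x : ℂ × ℂ} (hf : ContDiffAt ℝ 2 φ x) {m : ℝ} (hm : 0 < m)
    (hlow : ∀ ξ, m * ‖ξ‖ ^ 2 ≤ levi φ x ξ) :
    ∀ᶠ y in 𝓝 x, ∀ ξ, m / 2 * ‖ξ‖ ^ 2 ≤ levi φ y ξ := by
  have hev : ∀ᶠ y in 𝓝 x, ‖fderiv ℝ (fderiv ℝ φ) y - fderiv ℝ (fderiv ℝ φ) x‖ < m / 4 :=
    D2_close hf (by positivity)
  filter_upwards [hev] with y h1 ξ
  have h2 := (abs_le.1 (levi_sub_le (f := φ) (x := y) (y := x) ξ)).1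
  have h3 := hlow ξ
  have h6 : 2 * ‖fderiv ℝ (fderiv ℝ φ) y - fderiv ℝ (fderiv ℝ φ) x‖ * ‖ξ‖ ^ 2 ≤
      m / 2 * ‖ξ‖ ^ 2 := mul_le_mul_of_nonneg_right (by linarith) (by positivity)
  linarith

/-- The Levi form of a maximal plurisubharmonic function is degenerate. -/
theorem exists_null_of_isMaximalPSH {Ω : Set (ℂ × ℂ)} (hΩ : IsOpen Ω) {φ : ℂ × ℂ → ℝ}
    (hφ : ∀ x ∈ Ω, ContDiffAt ℝ 2 φ x) (h : IsMaximalPSH Ω φ) {x : ℂ × ℂ} (hx : x ∈ Ω) :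
    ∃ ξ, ξ ≠ 0 ∧ levi φ x ξ = 0 := by
  have hnn : ∀ y ∈ Ω, ∀ ξ, 0 ≤ levi φ y ξ := fun y hy ξ => levi_nonneg_of_isPSH hΩ hφ h.1 hy ξ
  by_contra hcon
  push Not at hcon
  obtain ⟨m, hm, hlow⟩ := exists_lower_bound (hφ x hx) fun ξ hξ =>
    lt_of_le_of_ne (hnn x hx ξ) (Ne.symm (hcon ξ hξ))
  obtain ⟨r, hr, hball⟩ := Metric.eventually_nhds_iff_ball.1
    ((levi_eventually (hφ x hx) hm hlow).and (hΩ.mem_nhds hx))
  obtain ⟨χ, hχ, hts, hχ1, C, hC0, hC⟩ := exists_bump x hr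
  set ε : ℝ := m / (4 * (C + 1)) with hε
  have hε0 : 0 < ε := by positivity
  have hεC : ε * (2 * C) ≤ m / 2 := by
    rw [hε, div_mul_eq_mul_div, div_le_div_iff₀ (by positivity) (by norm_num)]
    have : 0 ≤ m * C := by positivity
    linarith
  have hvc : ∀ y ∈ Ω, ContDiffAt ℝ 2 (fun y => φ y + ε * χ y) y := fun y hy =>
    (hφ y hy).add (contDiffAt_const.mul hχ.contDiffAt)
  have hvl : ∀ y ∈ Ω, ∀ ξ, 0 ≤ levi (fun y => φ y + ε * χ y) y ξ := by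
    intro y hy ξ
    rw [levi_add_mul (hφ y hy) hχ.contDiffAt]
    by_cases hyb : y ∈ ball x r
    · have h1 := (hball y hyb).1 ξ
      have h4 := (abs_le.1 (levi_le (f := χ) (x := y) ξ)).1
      have h5 : 2 * ‖fderiv ℝ (fderiv ℝ χ) y‖ * ‖ξ‖ ^ 2 ≤ 2 * C * ‖ξ‖ ^ 2 :=
        mul_le_mul_of_nonneg_right (by linarith [hC y]) (by positivity)
      have h9 : ε * (-(2 * C * ‖ξ‖ ^ 2)) ≤ ε * levi χ y ξ :=
        mul_le_mul_of_nonneg_left (by linarith) hε0.le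
      have h10 : ε * (2 * C) * ‖ξ‖ ^ 2 ≤ m / 2 * ‖ξ‖ ^ 2 :=
        mul_le_mul_of_nonneg_right hεC (by positivity)
      have h11 : ε * (-(2 * C * ‖ξ‖ ^ 2)) = -(ε * (2 * C) * ‖ξ‖ ^ 2) := by ring
      linarith
    · have h1 : χ =ᶠ[𝓝 y] fun _ => 0 := by
        have h2 : y ∉ tsupport χ := by
          intro h3
          apply hyb
          have h4 := hts h3
          rw [mem_closedBall] at h4
          rw [mem_ball]
          linarith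
        exact notMem_tsupport_iff_eventuallyEq.1 h2
      have h2 : levi χ y ξ = 0 := by
        unfold levi
        rw [D2_congr h1, D2_congr h1, D2_const, D2_const, add_zero]
      rw [h2, mul_zero, add_zero]
      exact hnn y hy ξ
  have hvpsh := isPSH_of_levi hΩ hvc hvl
  have hfin := h.2 _ hvpsh ⟨closedBall x (r / 2), ?_, isCompact_closedBall _ _, ?_⟩ x hx
  · rw [EReal.coe_le_coe_iff, hχ1] at hfin
    linarith
  · intro y hy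
    have : y ∈ ball x r := by
      rw [mem_closedBall] at hy
      rw [mem_ball]
      linarith
    exact (hball y this).2
  · rintro y ⟨_, hy⟩
    rw [EReal.coe_le_coe_iff]
    have h1 : χ y = 0 := image_eq_zero_of_notMem_tsupport fun h => hy (hts h)
    rw [h1, mul_zero, add_zero]

end Pool.Agent.H90.Fol
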