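import Pool.Agent.H90.Fol.Calc
import Pool.Agent.H90.Fol.Disc

set_option autoImplicit false

open Filter Topology
open scoped ComplexConjugate

namespace Pool.Agent.H90.Fol

/-! ### Properties of the Levi form -/

section
variable {V : Type*} [NormedAddCommGroup V] [NormedSpace ℝ V] [NormedSpace ℂ V]
  [IsScalarTower ℝ ℂ V]

/-- The symmetric bilinear form belonging to the Levi form. -/
noncomputable def lev2 (f : V → ℝ) (x ξ η : V) : ℝ :=
  D2 f x ξ η + D2 f x (Complex.I • ξ) (Complex.I • η)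

theorem lev2_self (f : V → ℝ) (x ξ : V) : lev2 f x ξ ξ = levi f x ξ := rfl

theorem D2_add_left (f : V → ℝ) (x v v' w : V) : D2 f x (v + v') w = D2 f x v w + D2 f x v' w := by
  simp [D2]

theorem D2_add_right (f : V → ℝ) (x v w w' : V) : D2 f x v (w + w') = D2 f x v w + D2 f x v w' := by
  simp [D2]

theorem D2_smul_left (f : V → ℝ) (x v w : V) (t : ℝ) : D2 f x (t • v) w = t * D2 f x v w := by
  simp [D2]

theorem D2_smul_right (f : V → ℝ) (x v w : V) (t : ℝ) : D2 f x v (t • w) = t * D2 f x v w := by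
  simp [D2]

theorem D2_neg_left (f : V → ℝ) (x v w : V) : D2 f x (-v) w = - D2 f x v w := by
  simp [D2]

theorem D2_neg_right (f : V → ℝ) (x v w : V) : D2 f x v (-w) = - D2 f x v w := by
  simp [D2]

theorem lev2_add_left (f : V → ℝ) (x v v' w : V) :
    lev2 f x (v + v') w = lev2 f x v w + lev2 f x v' w := by
  unfold lev2
  rw [smul_add, D2_add_left, D2_add_left]
  ring

theorem lev2_add_right (f : V → ℝ) (x v w w' : V) :
    lev2 f x v (w + w') = lev2 f x v w + lev2 f x v w' := by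
  unfold lev2
  rw [smul_add, D2_add_right, D2_add_right]
  ring

theorem lev2_smul_left (f : V → ℝ) (x v w : V) (t : ℝ) : lev2 f x (t • v) w = t * lev2 f x v w := by
  unfold lev2
  rw [smul_comm, D2_smul_left, D2_smul_left]
  ring

theorem lev2_smul_right (f : V → ℝ) (x v w : V) (t : ℝ) : lev2 f x v (t • w) = t * lev2 f x v w := by
  unfold lev2
  rw [smul_comm, D2_smul_right, D2_smul_right]
  ring

theorem lev2_symm {f : V → ℝ} {x : V} (hf : ContDiffAt ℝ 2 f x) (v w : V) :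
    lev2 f x v w = lev2 f x w v := by
  unfold lev2
  rw [D2_symm hf, D2_symm hf (Complex.I • v)]

theorem lev2_I (f : V → ℝ) (x v w : V) :
    lev2 f x (Complex.I • v) (Complex.I • w) = lev2 f x v w := by
  unfold lev2
  rw [smul_smul, smul_smul, Complex.I_mul_I, neg_one_smul, neg_one_smul, D2_neg_left, D2_neg_right]
  ring

theorem lev2_I_self {f : V → ℝ} {x : V} (hf : ContDiffAt ℝ 2 f x) (v : V) :
    lev2 f x (Complex.I • v) v = 0 := by
  have h1 := lev2_I f x (Complex.I • v) v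
  rw [smul_smul, Complex.I_mul_I, neg_one_smul] at h1
  have h2 : lev2 f x (-v) (Complex.I • v) = - lev2 f x v (Complex.I • v) := by
    have := lev2_smul_left f x v (Complex.I • v) (-1)
    simpa using this
  rw [h2, lev2_symm hf v] at h1
  linarith

theorem complex_smul_eq (c : ℂ) (v : V) : c • v = c.re • v + c.im • (Complex.I • v) := by
  conv_lhs => rw [← Complex.re_add_im c]
  have h1 : ∀ (r : ℝ) (u : V), ((r : ℂ) • u) = r • u := fun r u =>
    IsScalarTower.algebraMap_smul ℂ r u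
  rw [add_smul, mul_smul, h1, h1]

theorem levi_smul {f : V → ℝ} {x : V} (hf : ContDiffAt ℝ 2 f x) (c : ℂ) (v : V) :
    levi f x (c • v) = ‖c‖ ^ 2 * levi f x v := by
  have a1 := lev2_I_self hf v
  have a2 : lev2 f x v (Complex.I • v) = 0 := by rw [lev2_symm hf]; exact a1
  rw [← lev2_self, complex_smul_eq, lev2_add_left, lev2_add_right, lev2_add_right]
  simp only [lev2_smul_left, lev2_smul_right]
  rw [lev2_I, a1, a2, lev2_self, Complex.sq_norm, Complex.normSq_apply]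
  ring

theorem lev2_eq_zero {f : V → ℝ} {x : V} (hf : ContDiffAt ℝ 2 f x) (hpos : ∀ ξ, 0 ≤ levi f x ξ)
    {v : V} (hv : levi f x v = 0) (w : V) : lev2 f x v w = 0 := by
  have h : ∀ t : ℝ, 0 ≤ 2 * t * lev2 f x v w + t ^ 2 * levi f x w := by
    intro t
    have h1 := hpos (v + t • w)
    rw [← lev2_self, lev2_add_left, lev2_add_right, lev2_add_right] at h1
    simp only [lev2_smul_left, lev2_smul_right] at h1
    rw [lev2_self, hv, lev2_symm hf w v, lev2_self] at h1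
    linarith
  by_contra hne
  set b := lev2 f x v w
  set c := levi f x w with hc
  have hc0 : 0 ≤ c := hpos w
  have h2 := h (-b / (c + 1))
  have h3 : 2 * (-b / (c + 1)) * b + (-b / (c + 1)) ^ 2 * c = -(b ^ 2) * (c + 2) / (c + 1) ^ 2 := by
    field_simp
    ring
  rw [h3] at h2
  have h4 : 0 < b ^ 2 * (c + 2) / (c + 1) ^ 2 := by positivity
  have h5 : -(b ^ 2) * (c + 2) / (c + 1) ^ 2 = -(b ^ 2 * (c + 2) / (c + 1) ^ 2) := by ring
  rw [h5] at h2
  linarith

end

/-! ### Functions in normal form -/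

/-- The function is close to `|w|^2`, plurisubharmonic, and its Levi form is degenerate. -/
structure Normal (φ : ℂ × ℂ → ℝ) (δ : ℝ) : Prop where
  smooth : ∀ x, ‖x‖ < 4 → ContDiffAt ℝ 2 φ x
  nonneg : ∀ x, ‖x‖ < 4 → ∀ ξ, 0 ≤ levi φ x ξ
  deg : ∀ x, ‖x‖ < 4 → ∃ ξ, ξ ≠ 0 ∧ levi φ x ξ = 0
  lip : ∀ x y, ‖x‖ < 4 → ‖y‖ < 4 → ∀ k : ℂ,
    |fderiv ℝ φ x (0, k) - fderiv ℝ φ y (0, k) - 2 * (conj (x.2 - y.2) * k).re| ≤
      2 * δ * ‖x - y‖ * ‖k‖
  zero : ∀ k : ℂ, fderiv ℝ φ 0 (0, k) = 0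

/-- The complex derivative in the vertical direction. -/
noncomputable def G (φ : ℂ × ℂ → ℝ) (x : ℂ × ℂ) : ℂ :=
  ((fderiv ℝ φ x (0, 1) : ℂ) - Complex.I * (fderiv ℝ φ x (0, Complex.I) : ℂ)) / 2

theorem fderiv_eq_G (φ : ℂ × ℂ → ℝ) (x : ℂ × ℂ) (k : ℂ) :
    fderiv ℝ φ x (0, k) = 2 * (G φ x * k).re := by
  have h1 : ((0 : ℂ), k) = k.re • ((0 : ℂ), (1 : ℂ)) + k.im • ((0 : ℂ), Complex.I) := by
    simp [Complex.ext_iff]
  rw [h1, map_add, map_smul, map_smul]
  unfold G
  set a := fderiv ℝ φ x (0, 1)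
  set b := fderiv ℝ φ x (0, Complex.I)
  simp only [smul_eq_mul, Complex.mul_re, Complex.div_re, Complex.div_im, Complex.sub_re,
    Complex.sub_im, Complex.mul_im, Complex.ofReal_re, Complex.ofReal_im, Complex.I_re, Complex.I_im]
  norm_num
  ring

/-- The deviation from the normal form. -/
noncomputable def pp (φ : ℂ × ℂ → ℝ) (x : ℂ × ℂ) : ℂ := G φ x - conj x.2

theorem G_eq (φ : ℂ × ℂ → ℝ) (x : ℂ × ℂ) : G φ x = conj x.2 + pp φ x := by
  unfold pp; ring

section
variable {φ : ℂ × ℂ → ℝ} {δ : ℝ}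

theorem Normal.pp_lip (hN : Normal φ δ) {x y : ℂ × ℂ} (hx : ‖x‖ < 4) (hy : ‖y‖ < 4) :
    ‖pp φ x - pp φ y‖ ≤ δ * ‖x - y‖ := by
  set d := pp φ x - pp φ y with hd
  have h := hN.lip x y hx hy (conj d)
  have e : fderiv ℝ φ x (0, conj d) - fderiv ℝ φ y (0, conj d) - 2 * (conj (x.2 - y.2) * conj d).re =
      2 * ‖d‖ ^ 2 := by
    rw [fderiv_eq_G, fderiv_eq_G]
    have h1 : 2 * (G φ x * conj d).re - 2 * (G φ y * conj d).re - 2 * (conj (x.2 - y.2) * conj d).re =
        2 * (d * conj d).re := by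
      have h3 : d = G φ x - G φ y - conj (x.2 - y.2) := by
        rw [map_sub]
        simp only [hd, pp]
        ring
      have h2 : d * conj d = G φ x * conj d - G φ y * conj d - conj (x.2 - y.2) * conj d := by
        refine (congrArg (fun u => u * conj d) h3).trans ?_
        ring
      rw [h2, Complex.sub_re, Complex.sub_re]
      ring
    rw [h1, Complex.mul_conj, Complex.ofReal_re, Complex.normSq_eq_norm_sq]
  rw [e, RCLike.norm_conj, abs_of_nonneg (by positivity)] at h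
  by_cases h0 : ‖d‖ = 0
  · rw [h0]
    by_contra hcon
    push Not at hcon
    have hxy : 0 ≤ ‖x - y‖ := norm_nonneg _
    -- the Lipschitz condition in a unit direction
    have h3 := hN.lip x y hx hy 1
    have h4 : 0 ≤ 2 * δ * ‖x - y‖ * ‖(1 : ℂ)‖ := (abs_nonneg _).trans h3
    rw [norm_one] at h4
    linarith
  · have h5 : 0 < ‖d‖ := lt_of_le_of_ne (norm_nonneg _) (Ne.symm h0)
    nlinarith

theorem Normal.pp_zero (hN : Normal φ δ) : pp φ 0 = 0 := by
  unfold pp G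
  rw [hN.zero, hN.zero]
  simp

theorem Normal.pp_le (hN : Normal φ δ) {x : ℂ × ℂ} (hx : ‖x‖ < 4) : ‖pp φ x‖ ≤ δ * ‖x‖ := by
  have := hN.pp_lip hx (y := 0) (by simp)
  rwa [hN.pp_zero, sub_zero, sub_zero] at this

/-- The vertical derivative is differentiable. -/
theorem Normal.G_diff (hN : Normal φ δ) {x : ℂ × ℂ} (hx : ‖x‖ < 4) : DifferentiableAt ℝ (G φ) x := by
  have h := fderiv_diff (hN.smooth x hx)
  unfold G
  have h1 : ∀ v : ℂ × ℂ, DifferentiableAt ℝ (fun y => ((fderiv ℝ φ y v : ℝ) : ℂ)) x := fun v =>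
    (Complex.ofRealCLM.differentiableAt).comp x (h.clm_apply (differentiableAt_const v))
  simp only [div_eq_mul_inv]
  exact ((h1 (0, 1)).fun_sub ((h1 (0, Complex.I)).const_mul Complex.I)).mul_const _

theorem Normal.D2_vert (hN : Normal φ δ) {x : ℂ × ℂ} (hx : ‖x‖ < 4) (k : ℂ) :
    2 * (1 - δ) * ‖k‖ ^ 2 ≤ D2 φ x (0, k) (0, k) := by
  have hd : HasFDerivAt (fun y => fderiv ℝ φ y (0, k)) ((fderiv ℝ (fderiv ℝ φ) x).flip (0, k)) x :=
    (fderiv_diff (hN.smooth x hx)).hasFDerivAt.clm_apply (hasFDerivAt_const _ x) |>.congr_fderiv (by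
      apply ContinuousLinearMap.ext
      intro u
      simp)
  have hl : HasDerivAt (fun t : ℝ => x + t • ((0 : ℂ), k)) ((0 : ℂ), k) 0 := by
    have := ((hasDerivAt_id (0 : ℝ)).smul_const ((0 : ℂ), k)).const_add x
    simpa using this
  have hd' : HasFDerivAt (fun y => fderiv ℝ φ y (0, k)) ((fderiv ℝ (fderiv ℝ φ) x).flip (0, k))
      (x + (0 : ℝ) • ((0 : ℂ), k)) := by simpa using hd
  have h1 : HasDerivAt (fun t : ℝ => fderiv ℝ φ (x + t • ((0 : ℂ), k)) (0, k))
      (D2 φ x (0, k) (0, k)) 0 :=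
    HasFDerivAt.comp_hasDerivAt (f := fun t : ℝ => x + t • ((0 : ℂ), k)) (0 : ℝ) hd' hl
  have hcont : Tendsto (fun t : ℝ => x + t • ((0 : ℂ), k)) (𝓝 0) (𝓝 x) := by
    have := hl.continuousAt.tendsto
    simpa using this
  have hev : ∀ᶠ t : ℝ in 𝓝 0, ‖x + t • ((0 : ℂ), k)‖ < 4 :=
    hcont.eventually ((continuous_norm.isOpen_preimage _ isOpen_Iio).mem_nhds hx)
  -- difference quotients
  rw [hasDerivAt_iff_tendsto_slope] at h1
  refine ge_of_tendsto (h1.mono_left (nhdsGT_le_nhdsNE 0)) ?_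
  filter_upwards [nhdsWithin_le_nhds hev, self_mem_nhdsWithin] with t ht htpos
  have htpos' : 0 < t := htpos
  have h2 := hN.lip (x + t • ((0 : ℂ), k)) x ht hx k
  have e1 : (x + t • ((0 : ℂ), k)).2 - x.2 = t * k := by simp
  have e2 : x + t • ((0 : ℂ), k) - x = t • ((0 : ℂ), k) := by abel
  have e3 : ‖t • ((0 : ℂ), k)‖ = t * ‖k‖ := by
    rw [norm_smul, Real.norm_eq_abs, abs_of_pos htpos', Prod.norm_def]
    simp
  have e4 : (conj ((t : ℂ) * k) * k).re = t * ‖k‖ ^ 2 := by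
    rw [map_mul, Complex.conj_ofReal, mul_assoc, Complex.conj_mul', ← Complex.ofReal_pow,
      ← Complex.ofReal_mul, Complex.ofReal_re]
  rw [e1, e2, e3, e4] at h2
  have h3 := (abs_le.1 h2).1
  rw [slope_def_field, sub_zero]
  have e5 : x + (0 : ℝ) • ((0 : ℂ), k) = x := by simp
  rw [e5, le_div_iff₀ htpos']
  nlinarith

theorem Normal.levi_vert (hN : Normal φ δ) {x : ℂ × ℂ} (hx : ‖x‖ < 4) (k : ℂ) :
    4 * (1 - δ) * ‖k‖ ^ 2 ≤ levi φ x (0, k) := by
  unfold levi
  have h1 := hN.D2_vert hx k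
  have e : Complex.I • ((0 : ℂ), k) = (0, Complex.I * k) := by simp
  have h2 := hN.D2_vert hx (Complex.I * k)
  rw [norm_mul, Complex.norm_I, one_mul] at h2
  rw [e]
  linarith

/-- There is a null direction of the form `(1, a)`. -/
theorem Normal.exists_null (hN : Normal φ δ) (hδ : δ < 1) {x : ℂ × ℂ} (hx : ‖x‖ < 4) :
    ∃ a : ℂ, levi φ x (1, a) = 0 := by
  obtain ⟨ξ, hξ, h0⟩ := hN.deg x hx
  have h1 : ξ.1 ≠ 0 := by
    intro h
    have h2 : ξ = (0, ξ.2) := by ext <;> simp [h]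
    have h3 : ξ.2 ≠ 0 := by
      intro h4
      apply hξ
      rw [h2, h4]
      rfl
    have h4 := hN.levi_vert hx ξ.2
    rw [← h2, h0] at h4
    have h5 : 0 < ‖ξ.2‖ ^ 2 := by positivity
    nlinarith
  refine ⟨ξ.2 / ξ.1, ?_⟩
  have h2 : ((1 : ℂ), ξ.2 / ξ.1) = (ξ.1)⁻¹ • ξ := by
    ext
    · simp [h1]
    · simp [div_eq_inv_mul]
  rw [h2, levi_smul (hN.smooth x hx), h0, mul_zero]

/-- Strict convexity in the vertical direction. -/
theorem Normal.convex (hN : Normal φ δ) {z w w' : ℂ} (hz : ‖z‖ < 4) (hw : ‖w‖ < 4)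
    (hw' : ‖w'‖ < 4) :
    φ (z, w) + 2 * (G φ (z, w) * (w' - w)).re + (1 - δ) * ‖w' - w‖ ^ 2 ≤ φ (z, w') := by
  set k := w' - w with hk
  have hmem : ∀ t ∈ Set.Icc (0 : ℝ) 1, ‖((z, w + t * k) : ℂ × ℂ)‖ < 4 := by
    intro t ht
    have : w + t * k = (1 - t : ℝ) • w + t • w' := by
      rw [hk, Complex.real_smul, Complex.real_smul]
      push_cast
      ring
    rw [Prod.norm_def, max_lt_iff]
    refine ⟨hz, ?_⟩
    rw [this]
    have hconv : Convex ℝ (Metric.ball (0 : ℂ) 4) := convex_ball _ _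
    have := hconv (mem_ball_zero_iff.2 hw) (mem_ball_zero_iff.2 hw') (by linarith [ht.2] : 0 ≤ 1 - t)
      ht.1 (by ring)
    exact mem_ball_zero_iff.1 this
  have hl : ∀ t : ℝ, HasDerivAt (fun t : ℝ => ((z, w + t * k) : ℂ × ℂ)) ((0 : ℂ), k) t := by
    intro t
    have h1 : HasDerivAt (fun t : ℝ => (t : ℂ)) 1 t := Complex.ofRealCLM.hasDerivAt
    have h2 : HasDerivAt (fun t : ℝ => w + (t : ℂ) * k) k t := by
      simpa using (h1.mul_const k).const_add w
    exact (hasDerivAt_const t z).prodMk h2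
  set f : ℝ → ℝ := fun t => φ (z, w + t * k) - 2 * t * (G φ (z, w) * k).re -
    (1 - δ) * t ^ 2 * ‖k‖ ^ 2 with hf
  have hderiv : ∀ t ∈ Set.Icc (0 : ℝ) 1, HasDerivAt f (2 * (G φ (z, w + t * k) * k).re -
      2 * (G φ (z, w) * k).re - (1 - δ) * (2 * t) * ‖k‖ ^ 2) t := by
    intro t ht
    have h1 := ((hN.smooth _ (hmem t ht)).differentiableAt (by norm_num)).hasFDerivAt.comp_hasDerivAt
      t (hl t)
    rw [fderiv_eq_G] at h1
    have h2 : HasDerivAt (fun t : ℝ => 2 * t * (G φ (z, w) * k).re) (2 * (G φ (z, w) * k).re) t := by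
      have := ((hasDerivAt_id t).const_mul 2).mul_const (G φ (z, w) * k).re
      simpa using this
    have h3 : HasDerivAt (fun t : ℝ => (1 - δ) * t ^ 2 * ‖k‖ ^ 2) ((1 - δ) * (2 * t) * ‖k‖ ^ 2) t := by
      have := ((hasDerivAt_pow 2 t).const_mul (1 - δ)).mul_const (‖k‖ ^ 2)
      simpa using this
    exact (h1.sub h2).sub h3
  have hmono : MonotoneOn f (Set.Icc 0 1) := by
    refine monotoneOn_of_deriv_nonneg (convex_Icc _ _)
      (fun t ht => (hderiv t ht).continuousAt.continuousWithinAt)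
      (fun t ht => (hderiv t (interior_subset ht)).differentiableAt.differentiableWithinAt) ?_
    intro t ht
    have ht' := interior_subset ht
    rw [(hderiv t ht').deriv]
    have h0 : ‖((z, w) : ℂ × ℂ)‖ < 4 := by
      rw [Prod.norm_def, max_lt_iff]
      exact ⟨hz, hw⟩
    have h1 := hN.pp_lip (hmem t ht') h0
    have e1 : ((z, w + t * k) : ℂ × ℂ) - (z, w) = (0, t * k) := by
      ext <;> simp
    have e2 : ‖(((0 : ℂ), (t : ℂ) * k) : ℂ × ℂ)‖ = t * ‖k‖ := by
      rw [Prod.norm_def, norm_zero, norm_mul, Complex.norm_real, Real.norm_eq_abs,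
        abs_of_nonneg ht'.1]
      exact max_eq_right (mul_nonneg ht'.1 (norm_nonneg _))
    rw [e1, e2] at h1
    have h2 : (G φ (z, w + t * k) * k).re - (G φ (z, w) * k).re =
        t * ‖k‖ ^ 2 + ((pp φ (z, w + t * k) - pp φ (z, w)) * k).re := by
      rw [G_eq, G_eq]
      have : (conj (w + t * k) + pp φ (z, w + t * k)) * k - (conj w + pp φ (z, w)) * k =
          t * (conj k * k) + (pp φ (z, w + t * k) - pp φ (z, w)) * k := by
        rw [map_add, map_mul, Complex.conj_ofReal]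
        ring
      rw [← Complex.sub_re, this, Complex.add_re, Complex.conj_mul', ← Complex.ofReal_pow,
        ← Complex.ofReal_mul, Complex.ofReal_re]
    have h3 : |((pp φ (z, w + t * k) - pp φ (z, w)) * k).re| ≤ δ * (t * ‖k‖) * ‖k‖ := by
      refine (Complex.abs_re_le_norm _).trans ?_
      rw [norm_mul]
      exact mul_le_mul_of_nonneg_right h1 (norm_nonneg _)
    have h4 := (abs_le.1 h3).1
    have h5 : 2 * (G φ (z, w + t * k) * k).re - 2 * (G φ (z, w) * k).re -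
        (1 - δ) * (2 * t) * ‖k‖ ^ 2 = 2 * (δ * t * ‖k‖ ^ 2 +
          ((pp φ (z, w + t * k) - pp φ (z, w)) * k).re) := by linarith
    rw [h5]
    nlinarith
  have h := hmono (Set.left_mem_Icc.2 zero_le_one) (Set.right_mem_Icc.2 zero_le_one) zero_le_one
  have e : w + k = w' := by rw [hk]; ring
  simp only [hf, Complex.ofReal_zero, Complex.ofReal_one, zero_mul, one_mul, add_zero, mul_zero,
    mul_one, one_pow, e] at h
  linarith

end

end Pool.Agent.H90.Fol
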