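import Pool.Agent.H90.Fol.Fourier

set_option autoImplicit false

open MeasureTheory AddCircle Complex
open scoped ComplexConjugate

namespace Pool.Agent.H90.Fol

/-- The sequence space. -/
abbrev L2 : Type := lp (fun _ : ℤ => ℂ) 2

/-- The set on which the contraction acts. -/
def XX (ρ : ℝ) : Set L2 :=
  {a | (∀ n ≤ 0, a n = 0) ∧ ∀ S : Finset ℤ, ∑ n ∈ S, (n : ℝ) ^ 2 * ‖a n‖ ^ 2 ≤ ρ ^ 2}

/-- The sum of the inverse squares. -/
noncomputable def ZZ : ℝ := ∑' n : ℤ, 1 / (n : ℝ) ^ 2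

theorem summable_inv_sq : Summable fun n : ℤ => 1 / (n : ℝ) ^ 2 :=
  Real.summable_one_div_int_pow.2 (by norm_num)

theorem ZZ_nonneg : 0 ≤ ZZ := tsum_nonneg fun n => by positivity

/-- A square summability condition implies summability. -/
theorem summable_of_weight {a : ℤ → ℂ} {ρ : ℝ} (hρ : 0 < ρ) (h0 : a 0 = 0)
    (h : ∀ S : Finset ℤ, ∑ n ∈ S, (n : ℝ) ^ 2 * ‖a n‖ ^ 2 ≤ ρ ^ 2) :
    Summable (fun n => ‖a n‖) ∧ ∑' n, ‖a n‖ ≤ ρ * (1 + ZZ) / 2 := by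
  have h1 : Summable fun n : ℤ => (n : ℝ) ^ 2 * ‖a n‖ ^ 2 :=
    summable_of_sum_le (fun n => by positivity) h
  have h2 : ∑' n : ℤ, (n : ℝ) ^ 2 * ‖a n‖ ^ 2 ≤ ρ ^ 2 := h1.tsum_le_of_sum_le h
  have h3 : ∀ n : ℤ, ‖a n‖ ≤ (1 / (2 * ρ)) * ((n : ℝ) ^ 2 * ‖a n‖ ^ 2) + (ρ / 2) * (1 / (n : ℝ) ^ 2) := by
    intro n
    by_cases hn : n = 0
    · subst hn; simp [h0]
    · have hn' : (0 : ℝ) < (n : ℝ) ^ 2 := by positivity
      have e : (1 / (2 * ρ)) * ((n : ℝ) ^ 2 * ‖a n‖ ^ 2) + (ρ / 2) * (1 / (n : ℝ) ^ 2) - ‖a n‖ =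
          ((n : ℝ) ^ 2 * ‖a n‖ - ρ) ^ 2 / (2 * ρ * (n : ℝ) ^ 2) := by
        field_simp
        ring
      have : 0 ≤ ((n : ℝ) ^ 2 * ‖a n‖ - ρ) ^ 2 / (2 * ρ * (n : ℝ) ^ 2) := by positivity
      linarith
  have h4 : Summable fun n : ℤ => (1 / (2 * ρ)) * ((n : ℝ) ^ 2 * ‖a n‖ ^ 2) +
      (ρ / 2) * (1 / (n : ℝ) ^ 2) := (h1.mul_left _).add (summable_inv_sq.mul_left _)
  have h5 : Summable fun n => ‖a n‖ := Summable.of_nonneg_of_le (fun _ => norm_nonneg _) h3 h4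
  refine ⟨h5, (h5.tsum_le_tsum h3 h4).trans ?_⟩
  rw [(h1.mul_left _).tsum_add (summable_inv_sq.mul_left _), tsum_mul_left, tsum_mul_left]
  have h6 : 1 / (2 * ρ) * ∑' n : ℤ, (n : ℝ) ^ 2 * ‖a n‖ ^ 2 ≤ 1 / (2 * ρ) * ρ ^ 2 :=
    mul_le_mul_of_nonneg_left h2 (by positivity)
  have h7 : 1 / (2 * ρ) * ρ ^ 2 = ρ / 2 := by field_simp
  rw [h7] at h6
  show _ + ρ / 2 * ZZ ≤ _
  linarith

/-- Translation of a series. -/
theorem mean_trans_ser {a : ℤ → ℂ} {C : ℝ} (ha : Summable fun n => ‖a n‖)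
    (hC : ∀ S : Finset ℤ, ∑ n ∈ S, (n : ℝ) ^ 2 * ‖a n‖ ^ 2 ≤ C) (h : ℝ) :
    (mean fun x => ‖trans (h : TT) (ser a) x - ser a x‖ ^ 2) ≤ (2 * Real.pi) ^ 2 * h ^ 2 * C := by
  have h1 := parseval (trans (h : TT) (ser a) - ser a)
  have e : ∀ n, fc (trans (h : TT) (ser a) - ser a) n = (fourier n (h : TT) - 1) * a n := by
    intro n
    rw [fc_sub, fc_trans, fc_ser ha]
    ring
  have h2 : ∀ S : Finset ℤ, ∑ n ∈ S, ‖fc (trans (h : TT) (ser a) - ser a) n‖ ^ 2 ≤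
      (2 * Real.pi) ^ 2 * h ^ 2 * C := by
    intro S
    have h3 : ∀ n ∈ S, ‖fc (trans (h : TT) (ser a) - ser a) n‖ ^ 2 ≤
        (2 * Real.pi) ^ 2 * h ^ 2 * ((n : ℝ) ^ 2 * ‖a n‖ ^ 2) := by
      intro n _
      rw [e, norm_mul, mul_pow]
      have h4 := pow_le_pow_left₀ (norm_nonneg _) (norm_fourier_sub_one_le n h) 2
      have h5 : (2 * Real.pi * |(n : ℝ)| * |h|) ^ 2 = (2 * Real.pi) ^ 2 * h ^ 2 * (n : ℝ) ^ 2 := by
        rw [mul_pow, mul_pow, sq_abs, sq_abs]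
        ring
      rw [h5] at h4
      calc _ ≤ (2 * Real.pi) ^ 2 * h ^ 2 * (n : ℝ) ^ 2 * ‖a n‖ ^ 2 :=
            mul_le_mul_of_nonneg_right h4 (by positivity)
        _ = _ := by ring
    refine (Finset.sum_le_sum h3).trans ?_
    rw [← Finset.mul_sum]
    exact mul_le_mul_of_nonneg_left (hC S) (by positivity)
  exact hasSum_le_of_sum_le h1 h2

section
variable (p : ℂ → ℂ → ℂ) (c : ℂ) (δ : ℝ)

/-- The Lipschitz condition. -/
def Lip : Prop := ∀ ζ ζ' w w' : ℂ, ‖ζ‖ = 1 → ‖ζ'‖ = 1 → ‖w - c‖ ≤ 1 / 2 → ‖w' - c‖ ≤ 1 / 2 →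
  ‖p ζ w - p ζ' w'‖ ≤ δ * (‖ζ - ζ'‖ + ‖w - w'‖)

open scoped Classical in
/-- The boundary function. -/
noncomputable def gg (a : ℤ → ℂ) : C(TT, ℂ) :=
  if h : Continuous (fun x : TT => p (fourier 1 x) (c + ser a x)) then ⟨_, h⟩ else 0

variable {p c δ}

theorem norm_fourier (n : ℤ) (x : TT) : ‖(fourier n x : ℂ)‖ = 1 := by
  rw [fourier_apply, Circle.norm_coe]

theorem gg_apply (hp : Lip p c δ) {a : ℤ → ℂ} (ha : ∀ x, ‖ser a x‖ ≤ 1 / 2) (x : TT) :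
    gg p c a x = p (fourier 1 x) (c + ser a x) := by
  have hc : Continuous (fun x : TT => p (fourier 1 x) (c + ser a x)) := by
    rw [continuous_iff_continuousAt]
    intro x
    rw [ContinuousAt, tendsto_iff_norm_sub_tendsto_zero]
    have h1 : ∀ y : TT, ‖p (fourier 1 y) (c + ser a y) - p (fourier 1 x) (c + ser a x)‖ ≤
        δ * (‖(fourier 1 y : ℂ) - fourier 1 x‖ + ‖ser a y - ser a x‖) := by
      intro y
      have := hp (fourier 1 y) (fourier 1 x) (c + ser a y) (c + ser a x) (norm_fourier 1 y)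
        (norm_fourier 1 x) (by simpa using ha y) (by simpa using ha x)
      simpa using this
    have h2 : Filter.Tendsto (fun y : TT => δ * (‖(fourier 1 y : ℂ) - fourier 1 x‖ +
        ‖ser a y - ser a x‖)) (nhds x) (nhds 0) := by
      have : Continuous (fun y : TT => δ * (‖(fourier 1 y : ℂ) - fourier 1 x‖ +
        ‖ser a y - ser a x‖)) := by fun_prop
      have h3 := this.tendsto x
      simpa using h3
    exact squeeze_zero (fun _ => norm_nonneg _) h1 h2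
  unfold gg
  rw [dif_pos hc]
  rfl

theorem gg_trans_le (hp : Lip p c δ) (hδ : 0 ≤ δ) {a : ℤ → ℂ} (ha : ∀ x, ‖ser a x‖ ≤ 1 / 2)
    (hs : Summable fun n => ‖a n‖) {C : ℝ}
    (hC : ∀ S : Finset ℤ, ∑ n ∈ S, (n : ℝ) ^ 2 * ‖a n‖ ^ 2 ≤ C) (h : ℝ) :
    (mean fun x => ‖trans (h : TT) (gg p c a) x - gg p c a x‖ ^ 2) ≤
      2 * δ ^ 2 * (2 * Real.pi) ^ 2 * (1 + C) * h ^ 2 := by
  have h1 : ∀ x, ‖trans (h : TT) (gg p c a) x - gg p c a x‖ ^ 2 ≤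
      2 * δ ^ 2 * ((2 * Real.pi) ^ 2 * h ^ 2) +
        2 * δ ^ 2 * ‖trans (h : TT) (ser a) x - ser a x‖ ^ 2 := by
    intro x
    rw [trans_apply, trans_apply, gg_apply hp ha, gg_apply hp ha]
    have h2 := hp (fourier 1 (x + (h : TT))) (fourier 1 x) (c + ser a (x + (h : TT))) (c + ser a x)
      (norm_fourier 1 _) (norm_fourier 1 x) (by simpa using ha (x + (h : TT))) (by simpa using ha x)
    have h3 : ‖(fourier 1 (x + (h : TT)) : ℂ) - fourier 1 x‖ ≤ 2 * Real.pi * |h| := by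
      have e2 : (fourier 1 (x + (h : TT)) : ℂ) = fourier 1 x * fourier 1 (h : TT) := by
        simp only [fourier_apply, smul_add, toCircle_add, Circle.coe_mul]
      have e3 : (fourier 1 x * fourier 1 (h : TT) : ℂ) - fourier 1 x =
          fourier 1 x * (fourier 1 (h : TT) - 1) := by ring
      rw [e2, e3, norm_mul, norm_fourier, one_mul]
      have := norm_fourier_sub_one_le 1 h
      simpa using this
    have h4 : c + ser a (x + (h : TT)) - (c + ser a x) = ser a (x + (h : TT)) - ser a x := by ring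
    rw [h4] at h2
    have h5 : ‖p (fourier 1 (x + (h : TT))) (c + ser a (x + (h : TT))) - p (fourier 1 x) (c + ser a x)‖ ^ 2 ≤
        (δ * (2 * Real.pi * |h| + ‖ser a (x + (h : TT)) - ser a x‖)) ^ 2 := by
      refine pow_le_pow_left₀ (norm_nonneg _) (h2.trans ?_) 2
      exact mul_le_mul_of_nonneg_left (by linarith) hδ
    refine h5.trans ?_
    have h6 : (2 * Real.pi * |h|) ^ 2 = (2 * Real.pi) ^ 2 * h ^ 2 := by rw [mul_pow, sq_abs]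
    nlinarith [sq_nonneg (2 * Real.pi * |h| - ‖ser a (x + (h : TT)) - ser a x‖), sq_nonneg δ,
      mul_nonneg (sq_nonneg δ) (sq_nonneg (2 * Real.pi * |h| - ‖ser a (x + (h : TT)) - ser a x‖))]
  have h2 := mean_mono (by fun_prop) (by fun_prop) h1
  rw [mean_add (by fun_prop) (by fun_prop), mean_const, mean_const_mul] at h2
  have h3 := mean_trans_ser hs hC h
  have h4 : 2 * δ ^ 2 * (mean fun x => ‖trans (h : TT) (ser a) x - ser a x‖ ^ 2) ≤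
      2 * δ ^ 2 * ((2 * Real.pi) ^ 2 * h ^ 2 * C) := mul_le_mul_of_nonneg_left h3 (by positivity)
  linarith

theorem gg_coeff_bound (hp : Lip p c δ) (hδ : 0 ≤ δ) {a : ℤ → ℂ} (ha : ∀ x, ‖ser a x‖ ≤ 1 / 2)
    (hs : Summable fun n => ‖a n‖) {C : ℝ} (hC0 : 0 ≤ C)
    (hC : ∀ S : Finset ℤ, ∑ n ∈ S, (n : ℝ) ^ 2 * ‖a n‖ ^ 2 ≤ C) (S : Finset ℤ) :
    ∑ n ∈ S, (n : ℝ) ^ 2 * ‖fc (gg p c a) n‖ ^ 2 ≤ 2 * δ ^ 2 * (2 * Real.pi) ^ 2 * (1 + C) := by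
  set D : ℝ := 2 * δ ^ 2 * (2 * Real.pi) ^ 2 * (1 + C) with hD
  have hD0 : 0 ≤ D := by positivity
  have h := coeff_bound (gg p c a) (Real.sqrt D) (fun h => by
    rw [Real.sq_sqrt hD0]
    exact gg_trans_le hp hδ ha hs hC h) S
  rwa [Real.sq_sqrt hD0] at h

theorem gg_sub_le (hp : Lip p c δ) (hδ : 0 ≤ δ) {a b : ℤ → ℂ} (ha : ∀ x, ‖ser a x‖ ≤ 1 / 2)
    (hb : ∀ x, ‖ser b x‖ ≤ 1 / 2) :
    (mean fun x => ‖(gg p c a - gg p c b) x‖ ^ 2) ≤ δ ^ 2 * mean fun x => ‖(ser a - ser b) x‖ ^ 2 := by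
  rw [← mean_const_mul]
  refine mean_mono (by fun_prop) (by fun_prop) fun x => ?_
  show ‖gg p c a x - gg p c b x‖ ^ 2 ≤ δ ^ 2 * ‖ser a x - ser b x‖ ^ 2
  rw [gg_apply hp ha, gg_apply hp hb]
  have h2 := hp (fourier 1 x) (fourier 1 x) (c + ser a x) (c + ser b x)
    (norm_fourier 1 _) (norm_fourier 1 x) (by simpa using ha x) (by simpa using hb x)
  have h4 : c + ser a x - (c + ser b x) = ser a x - ser b x := by ring
  rw [h4, sub_self, norm_zero, zero_add] at h2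
  rw [← mul_pow]
  exact pow_le_pow_left₀ (norm_nonneg _) h2 2

variable (p c) in
/-- The coefficients of the image of the contraction. -/
noncomputable def Tseq (a : ℤ → ℂ) (n : ℤ) : ℂ := if 0 < n then -conj (fc (gg p c a) (-n)) else 0

theorem Tseq_norm_le (a : ℤ → ℂ) (n : ℤ) : ‖Tseq p c a n‖ ≤ ‖fc (gg p c a) (-n)‖ := by
  unfold Tseq
  split
  · rw [norm_neg, RCLike.norm_conj]
  · simp

theorem Tseq_sub_norm_le (a b : ℤ → ℂ) (n : ℤ) :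
    ‖Tseq p c a n - Tseq p c b n‖ ≤ ‖fc (gg p c a - gg p c b) (-n)‖ := by
  unfold Tseq
  split
  · rw [fc_sub]
    have e : -conj (fc (gg p c a) (-n)) - -conj (fc (gg p c b) (-n)) =
        -conj (fc (gg p c a) (-n) - fc (gg p c b) (-n)) := by
      rw [map_sub]; ring
    rw [e, norm_neg, RCLike.norm_conj]
  · simp

theorem summable_neg {f : ℤ → ℝ} (h : Summable f) : Summable fun n => f (-n) :=
  (Equiv.neg ℤ).summable_iff.2 h

theorem sum_neg_le {f : ℤ → ℝ} {C : ℝ} (h : ∀ S : Finset ℤ, ∑ n ∈ S, f n ≤ C) (S : Finset ℤ) :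
    ∑ n ∈ S, f (-n) ≤ C := by
  have h1 := h (S.map (Equiv.neg ℤ).toEmbedding)
  rw [Finset.sum_map] at h1
  exact h1

variable (p c) in
/-- The contraction. -/
noncomputable def Tmap (a : L2) : L2 :=
  ⟨Tseq p c a, by
    refine memℓp_gen ?_
    have h1 : Summable fun n : ℤ => ‖fc (gg p c a) (-n)‖ ^ 2 := summable_neg (parseval _).summable
    refine Summable.of_nonneg_of_le (fun n => by positivity) (fun n => ?_) h1
    have := pow_le_pow_left₀ (norm_nonneg _) (Tseq_norm_le (p := p) (c := c) a n) 2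
    simpa using this⟩

theorem Tmap_apply (a : L2) (n : ℤ) : Tmap p c a n = Tseq p c a n := rfl

theorem L2_hasSum (a : L2) : HasSum (fun n => ‖a n‖ ^ 2) (‖a‖ ^ 2) := by
  have h := lp.hasSum_norm (p := 2) (by simp) a
  simpa using h

theorem XX_ser_le {ρ : ℝ} (hρ : 0 < ρ) (hρ1 : ρ * (1 + ZZ) / 2 ≤ 1 / 2) {a : L2} (ha : a ∈ XX ρ) :
    Summable (fun n => ‖a n‖) ∧ ∀ x, ‖ser a x‖ ≤ 1 / 2 := by
  obtain ⟨h1, h2⟩ := summable_of_weight hρ (ha.1 0 le_rfl) ha.2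
  exact ⟨h1, fun x => (ser_norm_le h1 x).trans (h2.trans hρ1)⟩

theorem Tmap_mem (hp : Lip p c δ) (hδ : 0 ≤ δ) {ρ : ℝ} (hρ : 0 < ρ)
    (hρ1 : ρ * (1 + ZZ) / 2 ≤ 1 / 2)
    (hδ2 : 2 * δ ^ 2 * (2 * Real.pi) ^ 2 * (1 + ρ ^ 2) ≤ ρ ^ 2) {a : L2} (ha : a ∈ XX ρ) :
    Tmap p c a ∈ XX ρ := by
  obtain ⟨h1, h2⟩ := XX_ser_le hρ hρ1 ha
  refine ⟨fun n hn => ?_, fun S => ?_⟩
  · rw [Tmap_apply]
    unfold Tseq
    rw [if_neg (by omega)]
  · have h3 := sum_neg_le (f := fun n : ℤ => (n : ℝ) ^ 2 * ‖fc (gg p c a) n‖ ^ 2)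
      (gg_coeff_bound hp hδ h2 h1 (by positivity) ha.2) S
    refine (Finset.sum_le_sum fun n _ => ?_).trans (h3.trans hδ2)
    rw [Tmap_apply]
    have := pow_le_pow_left₀ (norm_nonneg _) (Tseq_norm_le (p := p) (c := c) a n) 2
    have e : ((-n : ℤ) : ℝ) ^ 2 = (n : ℝ) ^ 2 := by push_cast; ring
    rw [e]
    exact mul_le_mul_of_nonneg_left this (by positivity)

theorem Tmap_dist (hp : Lip p c δ) (hδ : 0 ≤ δ) {ρ : ℝ} (hρ : 0 < ρ)
    (hρ1 : ρ * (1 + ZZ) / 2 ≤ 1 / 2) {a b : L2} (ha : a ∈ XX ρ) (hb : b ∈ XX ρ) :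
    ‖Tmap p c a - Tmap p c b‖ ≤ δ * ‖a - b‖ := by
  obtain ⟨ha1, ha2⟩ := XX_ser_le hρ hρ1 ha
  obtain ⟨hb1, hb2⟩ := XX_ser_le hρ hρ1 hb
  have h1 := L2_hasSum (Tmap p c a - Tmap p c b)
  have h2 : ∀ S : Finset ℤ, ∑ n ∈ S, ‖(Tmap p c a - Tmap p c b) n‖ ^ 2 ≤
      mean fun x => ‖(gg p c a - gg p c b) x‖ ^ 2 := by
    intro S
    have h3 := sum_neg_le (f := fun n : ℤ => ‖fc (gg p c a - gg p c b) n‖ ^ 2)
      (bessel (gg p c a - gg p c b)) S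
    refine (Finset.sum_le_sum fun n _ => ?_).trans h3
    exact pow_le_pow_left₀ (norm_nonneg _) (Tseq_sub_norm_le (p := p) (c := c) a b n) 2
  have h3 := hasSum_le_of_sum_le h1 h2
  have h4 : (mean fun x => ‖(ser a - ser b) x‖ ^ 2) = ‖a - b‖ ^ 2 := by
    have h5 : Summable fun n => ‖a n - b n‖ :=
      Summable.of_nonneg_of_le (fun _ => norm_nonneg _) (fun n => norm_sub_le _ _) (ha1.add hb1)
    have h6 := mean_ser h5
    rw [ser_sub ha1 hb1] at h6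
    exact h6.unique (L2_hasSum (a - b))
  have h5 := gg_sub_le hp hδ ha2 hb2
  rw [h4] at h5
  have h6 : ‖Tmap p c a - Tmap p c b‖ ^ 2 ≤ (δ * ‖a - b‖) ^ 2 := by
    rw [mul_pow]; exact h3.trans h5
  exact (abs_le_of_sq_le_sq' h6 (by positivity)).2

theorem XX_closed (ρ : ℝ) : IsClosed (XX ρ) := by
  have hc : ∀ n : ℤ, Continuous fun a : L2 => a n := fun n =>
    (continuous_apply n).comp (lp.uniformContinuous_coe (p := 2) (E := fun _ : ℤ => ℂ)).continuous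
  have e : XX ρ = (⋂ n : ℤ, ⋂ _ : n ≤ 0, {a : L2 | a n = 0}) ∩
      ⋂ S : Finset ℤ, {a : L2 | ∑ n ∈ S, (n : ℝ) ^ 2 * ‖a n‖ ^ 2 ≤ ρ ^ 2} := by
    ext a
    simp [XX]
  rw [e]
  refine IsClosed.inter ?_ ?_
  · exact isClosed_iInter fun n => isClosed_iInter fun _ => isClosed_eq (hc n) continuous_const
  · refine isClosed_iInter fun S => isClosed_le ?_ continuous_const
    exact continuous_finset_sum S fun n _ => continuous_const.mul ((hc n).norm.pow 2)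

/-- Existence of the fixed point. -/
theorem exists_fixed (hp : Lip p c δ) (hδ : 0 ≤ δ) (hδ1 : δ < 1) {ρ : ℝ} (hρ : 0 < ρ)
    (hρ1 : ρ * (1 + ZZ) / 2 ≤ 1 / 2)
    (hδ2 : 2 * δ ^ 2 * (2 * Real.pi) ^ 2 * (1 + ρ ^ 2) ≤ ρ ^ 2) :
    ∃ a : L2, a ∈ XX ρ ∧ Tmap p c a = a := by
  have hmaps : Set.MapsTo (Tmap p c) (XX ρ) (XX ρ) := fun a ha => Tmap_mem hp hδ hρ hρ1 hδ2 ha
  have h0 : (0 : L2) ∈ XX ρ := by
    refine ⟨fun n _ => rfl, fun S => ?_⟩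
    simp only [lp.coeFn_zero, Pi.zero_apply, norm_zero]
    simp
    positivity
  have hcontr : ContractingWith ⟨δ, hδ⟩ (hmaps.restrict (Tmap p c) (XX ρ) (XX ρ)) := by
    refine ⟨by rw [← NNReal.coe_lt_coe]; exact hδ1, ?_⟩
    refine LipschitzWith.of_dist_le_mul fun a b => ?_
    rw [Subtype.dist_eq, Subtype.dist_eq, dist_eq_norm, dist_eq_norm]
    exact Tmap_dist hp hδ hρ hρ1 a.2 b.2
  obtain ⟨y, hy, hfix, _⟩ := hcontr.exists_fixedPoint' (XX_closed ρ).isComplete hmaps h0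
    (edist_ne_top _ _)
  exact ⟨y, hy, hfix⟩

end

end Pool.Agent.H90.Fol
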