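import Pool.Agent.H90.Fol.Maximal
import Pool.Agent.H90.Fol.Chart

set_option autoImplicit false

open Metric Filter Topology InnerProductSpace
open scoped ComplexConjugate

namespace Pool.Agent.H90.Fol

theorem lev2_smul_smul {V : Type*} [NormedAddCommGroup V] [NormedSpace ℝ V] [NormedSpace ℂ V]
    [IsScalarTower ℝ ℂ V] {f : V → ℝ} {x : V} (hf : ContDiffAt ℝ 2 f x) (a c : ℂ) (v : V) :
    lev2 f x (a • v) (c • v) = (a * conj c).re * levi f x v := by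
  have a1 := lev2_I_self hf v
  have a2 : lev2 f x v (Complex.I • v) = 0 := by rw [lev2_symm hf]; exact a1
  rw [complex_smul_eq a, complex_smul_eq c, lev2_add_left, lev2_add_right, lev2_add_right]
  simp only [lev2_smul_left, lev2_smul_right]
  rw [lev2_I, a1, a2, lev2_self]
  simp only [Complex.mul_re, Complex.conj_re, Complex.conj_im]
  ring

/-- A linear isomorphism adapted to the kernel of the Levi form. -/
theorem exists_frame {φ : ℂ × ℂ → ℝ} {q v0 η : ℂ × ℂ} (hφ : ContDiffAt ℝ 2 φ q)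
    (hv0 : v0 ≠ 0) (h0 : levi φ q v0 = 0) (hη : levi φ q η ≠ 0) :
    ∃ A : (ℂ × ℂ) ≃L[ℂ] (ℂ × ℂ), ∀ x, A x = x.1 • v0 + x.2 • η := by
  let A0 : (ℂ × ℂ) →ₗ[ℂ] (ℂ × ℂ) :=
    (LinearMap.toSpanSingleton ℂ (ℂ × ℂ) v0).comp (LinearMap.fst ℂ ℂ ℂ) +
      (LinearMap.toSpanSingleton ℂ (ℂ × ℂ) η).comp (LinearMap.snd ℂ ℂ ℂ)
  have hA0 : ∀ x, A0 x = x.1 • v0 + x.2 • η := fun x => by simp [A0]
  have hinj : Function.Injective A0 := by
    rw [← LinearMap.ker_eq_bot, LinearMap.ker_eq_bot']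
    intro x hx
    rw [hA0] at hx
    have h1 : x.2 • η = (-x.1) • v0 := by
      rw [neg_smul]
      exact eq_neg_of_add_eq_zero_right hx
    have h2 : levi φ q (x.2 • η) = 0 := by rw [h1, levi_smul hφ, h0, mul_zero]
    rw [levi_smul hφ] at h2
    have h3 : x.2 = 0 := by
      have := (mul_eq_zero.1 h2).resolve_right hη
      exact norm_eq_zero.1 (pow_eq_zero_iff (two_ne_zero) |>.1 this)
    rw [h3, zero_smul, add_zero] at hx
    have h4 : x.1 = 0 := (smul_eq_zero.1 hx).resolve_right hv0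
    ext <;> simp [h3, h4]
  refine ⟨(LinearEquiv.ofInjectiveEndo A0 hinj).toContinuousLinearEquiv, fun x => ?_⟩
  rw [← hA0]
  rfl

theorem contDiffAt_strict {V : Type*} [NormedAddCommGroup V] [NormedSpace ℝ V] {φ : V → ℝ} {q : V}
    (hφ : ContDiffAt ℝ 2 φ q) {e : ℝ} (he : 0 < e) :
    ∃ r > 0, ∀ a ∈ ball q r, ∀ b ∈ ball q r, ∀ v,
      |fderiv ℝ φ a v - fderiv ℝ φ b v - D2 φ q (a - b) v| ≤ e * ‖a - b‖ * ‖v‖ := by
  have h1 : ContDiffAt ℝ 1 (fderiv ℝ φ) q := hφ.fderiv_right (by norm_num)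
  have h2 : HasStrictFDerivAt (fderiv ℝ φ) (fderiv ℝ (fderiv ℝ φ) q) q :=
    h1.hasStrictFDerivAt (by norm_num)
  obtain ⟨s, hs, h3⟩ := h2.approximates_deriv_on_nhds (c := ⟨e, he.le⟩) (Or.inr he)
  obtain ⟨r, hr, hrs⟩ := Metric.mem_nhds_iff.1 hs
  refine ⟨r, hr, fun a ha b hb v => ?_⟩
  have h4 := h3 _ (hrs ha) _ (hrs hb)
  have h5 := ContinuousLinearMap.le_of_opNorm_le _ h4 v
  rw [← Real.norm_eq_abs]
  exact h5

/-- Reduction to the normal form. -/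
theorem exists_normal {Ω : Set (ℂ × ℂ)} (hΩ : IsOpen Ω) {φ : ℂ × ℂ → ℝ}
    (hφ : ∀ x ∈ Ω, ContDiffAt ℝ 2 φ x) (hnn : ∀ x ∈ Ω, ∀ ξ, 0 ≤ levi φ x ξ)
    (hdeg : ∀ x ∈ Ω, ∃ ξ, ξ ≠ 0 ∧ levi φ x ξ = 0) {q : ℂ × ℂ} (hq : q ∈ Ω)
    (hne : ∃ ξ, levi φ q ξ ≠ 0) {δ : ℝ} (hδ : 0 < δ) :
    ∃ (L : (ℂ × ℂ) ≃L[ℂ] (ℂ × ℂ)) (κ : ℝ) (ψ : ℂ × ℂ → ℝ), 0 < κ ∧ Normal ψ δ ∧
      (∀ x, ‖x‖ < 4 → q + L x ∈ Ω) ∧
      ∀ x, ‖x‖ < 4 → ∀ ξ, levi ψ x ξ = κ * levi φ (q + L x) (L ξ) := by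
  obtain ⟨v0, hv0, h0⟩ := hdeg q hq
  obtain ⟨η, hη⟩ := hne
  have hηpos : 0 < levi φ q η := lt_of_le_of_ne (hnn q hq η) (Ne.symm hη)
  obtain ⟨A, hA⟩ := exists_frame (hφ q hq) hv0 h0 hη
  set N : ℝ := ‖(A : (ℂ × ℂ) →L[ℂ] (ℂ × ℂ))‖ + 1 with hNdef
  have hN1 : 0 < N := by positivity
  have hAN : ∀ x, ‖A x‖ ≤ N * ‖x‖ := by
    intro x
    refine ((A : (ℂ × ℂ) →L[ℂ] (ℂ × ℂ)).le_opNorm x).trans ?_
    exact mul_le_mul_of_nonneg_right (by linarith) (norm_nonneg _)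
  set b : ℝ := levi φ q η / 4 with hb
  have hb0 : 0 < b := by positivity
  obtain ⟨r1, hr1, hr1Ω⟩ := Metric.isOpen_iff.1 hΩ q hq
  obtain ⟨r2, hr2, hstrict⟩ := contDiffAt_strict (hφ q hq)
    (show 0 < 2 * δ * b / N ^ 2 by positivity)
  set r : ℝ := min r1 r2 with hr
  have hr0 : 0 < r := lt_min hr1 hr2
  set ε : ℝ := r / (4 * N) with hε
  have hε0 : 0 < ε := by positivity
  have hεne : (ε : ℂ) ≠ 0 := by exact_mod_cast hε0.ne'
  -- the scaled isomorphism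
  let L : (ℂ × ℂ) ≃L[ℂ] (ℂ × ℂ) :=
    A.trans (ContinuousLinearEquiv.smulLeft (Units.mk0 (ε : ℂ) hεne))
  have hL : ∀ x, L x = (ε : ℂ) • A x := fun x => rfl
  have hLn : ∀ x, ‖L x‖ ≤ ε * N * ‖x‖ := by
    intro x
    rw [hL, norm_smul, Complex.norm_real, Real.norm_eq_abs, abs_of_pos hε0, mul_assoc]
    exact mul_le_mul_of_nonneg_left (hAN x) hε0.le
  have hεN : ε * N = r / 4 := by
    rw [hε]
    field_simp
  have hmem : ∀ x, ‖x‖ < 4 → q + L x ∈ ball q r := by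
    intro x hx
    rw [mem_ball, dist_eq_norm, add_sub_cancel_left]
    refine lt_of_le_of_lt (hLn x) ?_
    rw [hεN]
    nlinarith
  have hmemΩ : ∀ x, ‖x‖ < 4 → q + L x ∈ Ω := fun x hx =>
    hr1Ω (ball_subset_ball (min_le_left _ _) (hmem x hx))
  set κ : ℝ := 1 / (ε ^ 2 * b) with hκ
  have hκ0 : 0 < κ := by positivity
  -- the real linear map
  set LR : (ℂ × ℂ) →L[ℝ] (ℂ × ℂ) := (L : (ℂ × ℂ) →L[ℂ] (ℂ × ℂ)).restrictScalars ℝ with hLR
  have hLRa : ∀ x, LR x = L x := fun x => rfl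
  have hLI : ∀ x, L (Complex.I • x) = Complex.I • L x := fun x => map_smul L Complex.I x
  set T : (ℂ × ℂ) →L[ℝ] (ℂ × ℂ) →L[ℝ] ℝ := fderiv ℝ (fderiv ℝ φ) q with hT
  set B : (ℂ × ℂ) →L[ℝ] (ℂ × ℂ) →L[ℝ] ℝ := κ • T.bilinearComp LR LR with hB
  have hBa : ∀ v w, B v w = κ * D2 φ q (L v) (L w) := fun v w => rfl
  have hBs : ∀ v w, B v w = B w v := by
    intro v w
    rw [hBa, hBa, D2_symm (hφ q hq)]
  set ℓ : (ℂ × ℂ) →L[ℝ] ℝ := κ • (fderiv ℝ φ q).comp LR with hℓ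
  set ψ : ℂ × ℂ → ℝ := fun x => κ * φ (q + LR x) - phPoly 0 ℓ B x with hψ
  have hcomp : ∀ x, ‖x‖ < 4 → ContDiffAt ℝ 2 (fun x => φ (q + LR x)) x := by
    intro x hx
    exact ContDiffAt.comp (g := φ) (f := fun x => q + LR x) x (hφ _ (hmemΩ x hx))
      (contDiffAt_const.add LR.contDiff.contDiffAt)
  have hsm : ∀ x, ‖x‖ < 4 → ContDiffAt ℝ 2 ψ x := fun x hx =>
    (contDiffAt_const.mul (hcomp x hx)).sub (contDiff_phPoly _ _ _).contDiffAt
  have hlev : ∀ x, ‖x‖ < 4 → ∀ ξ, levi ψ x ξ = κ * levi φ (q + L x) (L ξ) := by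
    intro x hx ξ
    have hph := levi_phPoly 0 ℓ hBs x ξ
    unfold levi at hph ⊢
    rw [hψ, D2_sub (contDiffAt_const.mul (hcomp x hx)) (contDiff_phPoly _ _ _).contDiffAt,
      D2_sub (contDiffAt_const.mul (hcomp x hx)) (contDiff_phPoly _ _ _).contDiffAt,
      D2_const_mul (hcomp x hx), D2_const_mul (hcomp x hx),
      D2_comp_affine (L := LR) (hφ _ (hmemΩ x hx)), D2_comp_affine (L := LR) (hφ _ (hmemΩ x hx))]
    rw [hLRa, hLRa, hLRa, hLI]
    linarith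
  have hfd : ∀ x, ‖x‖ < 4 → ∀ v, fderiv ℝ ψ x v = κ * fderiv ℝ φ (q + L x) (L v) -
      (ℓ v + phPart B x v) := by
    intro x hx v
    have d1 : HasFDerivAt (fun x => φ (q + LR x)) ((fderiv ℝ φ (q + LR x)).comp LR) x :=
      HasFDerivAt.comp (f := fun x => q + LR x) x
        ((hφ _ (hmemΩ x hx)).differentiableAt (by norm_num)).hasFDerivAt
        (LR.hasFDerivAt.const_add q)
    have d2 : HasFDerivAt (phPoly 0 ℓ B) (ℓ + phPart B x) x := by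
      rw [← fderiv_phPoly 0 ℓ hBs x]
      exact ((contDiff_phPoly 0 ℓ B).contDiffAt.differentiableAt (by norm_num)).hasFDerivAt
    have d3 := ((d1.const_mul κ).sub d2).fderiv
    have e : ((fun x => κ * φ (q + LR x)) - phPoly 0 ℓ B) = ψ := rfl
    rw [e] at d3
    rw [d3]
    rfl
  refine ⟨L, κ, ψ, hκ0, ⟨hsm, ?_, ?_, ?_, ?_⟩, hmemΩ, hlev⟩
  · intro x hx ξ
    rw [hlev x hx]
    exact mul_nonneg hκ0.le (hnn _ (hmemΩ x hx) _)
  · intro x hx
    obtain ⟨ξ, hξ, hξ0⟩ := hdeg _ (hmemΩ x hx)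
    refine ⟨L.symm ξ, ?_, ?_⟩
    · intro h
      apply hξ
      have := congrArg L h
      simpa using this
    · rw [hlev x hx, ContinuousLinearEquiv.apply_symm_apply, hξ0, mul_zero]
  · intro x y hx hy k
    rw [hfd x hx, hfd y hy]
    have hst := hstrict (q + L x) (ball_subset_ball (min_le_right _ _) (hmem x hx))
      (q + L y) (ball_subset_ball (min_le_right _ _) (hmem y hy)) (L (0, k))
    have e1 : q + L x - (q + L y) = L (x - y) := by rw [map_sub]; abel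
    rw [e1] at hst
    -- the quadratic part
    have e2 : κ * D2 φ q (L (x - y)) (L (0, k)) - phPart B (x - y) (0, k) =
        κ / 2 * lev2 φ q (L (x - y)) (L (0, k)) := by
      rw [phPart_apply, hBa, hBa, hLI, hLI]
      unfold lev2
      ring
    have e3 : lev2 φ q (L (x - y)) (L (0, k)) = ε ^ 2 * (4 * b) * (conj (x.2 - y.2) * k).re := by
      have e4 : L (x - y) = ((ε : ℂ) * (x - y).1) • v0 + ((ε : ℂ) * (x - y).2) • η := by
        rw [hL, hA, smul_add, smul_smul, smul_smul]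
      have e5 : L (0, k) = ((ε : ℂ) * k) • η := by
        rw [hL, hA]
        simp [smul_smul]
      have e6 : levi φ q (((ε : ℂ) * (x - y).1) • v0) = 0 := by
        rw [levi_smul (hφ q hq), h0, mul_zero]
      rw [e4, e5, lev2_add_left, lev2_eq_zero (hφ q hq) (hnn q hq) e6, zero_add,
        lev2_smul_smul (hφ q hq)]
      have e7 : (ε : ℂ) * (x - y).2 * conj ((ε : ℂ) * k) = ((ε ^ 2 : ℝ) : ℂ) * ((x.2 - y.2) * conj k) := by
        rw [map_mul, Complex.conj_ofReal, Prod.snd_sub]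
        push_cast
        ring
      rw [e7, Complex.re_ofReal_mul]
      have e8 : ((x.2 - y.2) * conj k).re = (conj (x.2 - y.2) * k).re := by
        rw [← Complex.conj_re, map_mul, Complex.conj_conj]
      rw [e8]
      have e9 : levi φ q η = 4 * b := by rw [hb]; ring
      rw [e9]
      ring
    have e4 : κ * (ε ^ 2 * b) = 1 := by
      rw [hκ]
      field_simp
    have e5 : κ * fderiv ℝ φ (q + L x) (L (0, k)) - (ℓ (0, k) + phPart B x (0, k)) -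
        (κ * fderiv ℝ φ (q + L y) (L (0, k)) - (ℓ (0, k) + phPart B y (0, k))) -
        2 * (conj (x.2 - y.2) * k).re =
        κ * (fderiv ℝ φ (q + L x) (L (0, k)) - fderiv ℝ φ (q + L y) (L (0, k)) -
          D2 φ q (L (x - y)) (L (0, k))) := by
      have e6 : phPart B (x - y) (0, k) = phPart B x (0, k) - phPart B y (0, k) := by
        rw [map_sub]; rfl
      rw [e6, e3] at e2
      have e7 : κ / 2 * (ε ^ 2 * (4 * b) * (conj (x.2 - y.2) * k).re) =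
          2 * (κ * (ε ^ 2 * b)) * (conj (x.2 - y.2) * k).re := by ring
      rw [e7, e4] at e2
      linarith
    rw [e5, abs_mul, abs_of_pos hκ0]
    have h1 : ‖L (x - y)‖ ≤ ε * N * ‖x - y‖ := hLn _
    have h2 : ‖L (0, k)‖ ≤ ε * N * ‖k‖ := by
      have h3 : ‖((0 : ℂ), k)‖ = ‖k‖ := by
        rw [Prod.norm_def, norm_zero]
        exact max_eq_right (norm_nonneg _)
      have h4 := hLn (0, k)
      rwa [h3] at h4
    calc κ * |fderiv ℝ φ (q + L x) (L (0, k)) - fderiv ℝ φ (q + L y) (L (0, k)) -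
          D2 φ q (L (x - y)) (L (0, k))|
        ≤ κ * (2 * δ * b / N ^ 2 * ‖L (x - y)‖ * ‖L (0, k)‖) :=
          mul_le_mul_of_nonneg_left hst hκ0.le
      _ ≤ κ * (2 * δ * b / N ^ 2 * (ε * N * ‖x - y‖) * (ε * N * ‖k‖)) := by
          refine mul_le_mul_of_nonneg_left ?_ hκ0.le
          exact mul_le_mul (mul_le_mul_of_nonneg_left h1 (by positivity)) h2 (norm_nonneg _)
            (by positivity)
      _ = (κ * (ε ^ 2 * b)) * (2 * δ * ‖x - y‖ * ‖k‖) := by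
          field_simp
      _ = 2 * δ * ‖x - y‖ * ‖k‖ := by rw [e4, one_mul]
  · intro k
    rw [hfd 0 (by simp)]
    simp [hℓ, hLRa]

end Pool.Agent.H90.Fol
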